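import Pool.Agent.MargE.Defs

/-!
# The inequality of Kusmin and Landau (PACKAGE EA1)

`‖1 - ee d‖ = 2 |sin (π d)| ≥ 4 θ` for `d ∈ [m + θ, m + 1 - θ]` (`sin (π t) ≥ 2 t` for `0 ≤ t ≤ 1/2`,
`Real.mul_le_sin`; use the symmetry about `1/2`, and `ee (d - m) = ee d`).

Proof of `kusmin_landau`. If `L ≤ 1` the sum has norm at most `1 ≤ 2 / θ`. Let `L ≥ 2`, `d i = dd x i`
and `g i = 1 / (1 - ee (d i))` for `i + 1 < L` (the denominator is not zero, `‖g i‖ ≤ 1 / (4 θ)`).
`ee (x i) = (ee (x i) - ee (x (i + 1))) * g i`, because `ee (x (i + 1)) = ee (x i) * ee (d i)`.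
Partial summation (induction on `n`): for `n + 2 ≤ L`,
`∑ i < n + 1, ee (x i) = ee (x 0) * g 0 - ee (x (n + 1)) * g n + ∑ i < n, ee (x (i + 1)) * (g (i + 1) - g i)`.
`g i = 1 / 2 + i cot (π d) / 2`: real part `1 / 2`, imaginary part `cot (π d) / 2`, so
`‖g (i + 1) - g i‖ = |im (g (i + 1)) - im (g i)| = im (g i) - im (g (i + 1))`, since the imaginary part is a
decreasing function of `d ∈ (m, m + 1)` (`cot a - cot b = sin (b - a) / (sin a sin b)`), and `d` is
increasing (`h2`). The sum telescopes: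
`∑ i < n, ‖g (i + 1) - g i‖ = im (g 0) - im (g n) ≤ 1 / (4 θ) + 1 / (4 θ)`. With `n = L - 2`:
`‖∑ i < L, ee (x i)‖ ≤ 1 / (4 θ) + 1 / (4 θ) + 1 / (2 θ) + 1 ≤ 1 / θ + 1 ≤ 2 / θ`.
-/

set_option autoImplicit false

open Finset Real

namespace MargE

private theorem kl_sin {θ f : ℝ} (hθ : 0 < θ) (h1 : θ ≤ f) (h2 : f ≤ 1 - θ) :
    2 * θ ≤ sin (π * f) := by
  rcases le_total f (1 / 2) with h | h
  · have h3 := Real.mul_le_sin (x := π * f) (mul_nonneg Real.pi_pos.le (by linarith))
      (by nlinarith [Real.pi_pos])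
    have h4 : 2 / π * (π * f) = 2 * f := by
      field_simp
    rw [h4] at h3
    linarith
  · have h3 := Real.mul_le_sin (x := π * (1 - f))
      (mul_nonneg Real.pi_pos.le (by linarith)) (by nlinarith [Real.pi_pos])
    have h4 : 2 / π * (π * (1 - f)) = 2 * (1 - f) := by
      field_simp
    have h5 : sin (π * (1 - f)) = sin (π * f) := by
      rw [mul_sub, mul_one, Real.sin_pi_sub]
    rw [h4, h5] at h3
    linarith

/-- `1 / (1 - ee f)` -/
private noncomputable def klG (f : ℝ) : ℂ := ⟨1 / 2, cos (π * f) / sin (π * f) / 2⟩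

private theorem kl_mul {f : ℝ} (hs : sin (π * f) ≠ 0) : (1 - ee f) * klG f = 1 := by
  have h1 : cos (2 * π * f) = 2 * cos (π * f) ^ 2 - 1 := by
    rw [← Real.cos_two_mul]
    congr 1
    ring
  have h2 : sin (2 * π * f) = 2 * sin (π * f) * cos (π * f) := by
    rw [← Real.sin_two_mul]
    congr 1
    ring
  have h3 := Real.sin_sq_add_cos_sq (π * f)
  apply Complex.ext
  · rw [Complex.mul_re, Complex.sub_re, Complex.sub_im, ee_re, ee_im, h1, h2]
    simp only [klG, Complex.one_re, Complex.one_im]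
    field_simp
    ring
  · rw [Complex.mul_im, Complex.sub_re, Complex.sub_im, ee_re, ee_im, h1, h2]
    simp only [klG, Complex.one_re, Complex.one_im]
    field_simp
    linear_combination (-2 * cos (π * f)) * h3

private theorem kl_norm {θ f : ℝ} (hθ : 0 < θ) (h1 : θ ≤ f) (h2 : f ≤ 1 - θ) :
    ‖klG f‖ ≤ 1 / (4 * θ) := by
  have hs := kl_sin hθ h1 h2
  have hs0 : 0 < sin (π * f) := by linarith
  have h3 := Real.sin_sq_add_cos_sq (π * f)
  have h4 : ‖klG f‖ ^ 2 = (1 / (2 * sin (π * f))) ^ 2 := by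
    rw [← Complex.normSq_eq_norm_sq, Complex.normSq_apply]
    simp only [klG]
    field_simp
    linear_combination h3
  have h5 : ‖klG f‖ = 1 / (2 * sin (π * f)) :=
    (sq_eq_sq₀ (norm_nonneg _) (by positivity)).1 h4
  rw [h5]
  apply one_div_le_one_div_of_le (by positivity)
  linarith

private theorem kl_mono {θ f f' : ℝ} (hθ : 0 < θ) (h1 : θ ≤ f) (hff : f ≤ f')
    (h2 : f' ≤ 1 - θ) : (klG f').im ≤ (klG f).im := by
  have hs := kl_sin hθ h1 (hff.trans h2)
  have hs' := kl_sin hθ (h1.trans hff) h2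
  have hs0 : 0 < sin (π * f) := by linarith
  have hs0' : 0 < sin (π * f') := by linarith
  have h3 : 0 ≤ sin (π * f' - π * f) := by
    apply Real.sin_nonneg_of_nonneg_of_le_pi
    · nlinarith [Real.pi_pos]
    · nlinarith [Real.pi_pos]
  rw [Real.sin_sub] at h3
  simp only [klG]
  apply div_le_div_of_nonneg_right _ (by norm_num)
  rw [div_le_div_iff₀ hs0' hs0]
  linarith

private theorem kl_sum (x : ℕ → ℝ) (g : ℕ → ℂ) (n : ℕ)
    (h : ∀ i ≤ n, ee (x i) = (ee (x i) - ee (x (i + 1))) * g i) :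
    ∑ i ∈ range (n + 1), ee (x i) = ee (x 0) * g 0 - ee (x (n + 1)) * g n +
      ∑ i ∈ range n, ee (x (i + 1)) * (g (i + 1) - g i) := by
  induction n with
  | zero =>
    rw [Finset.sum_range_one, Finset.sum_range_zero]
    have h0 := h 0 le_rfl
    linear_combination h0
  | succ n ih =>
    rw [Finset.sum_range_succ, ih fun i hi => h i (by omega), Finset.sum_range_succ _ n]
    have h0 := h (n + 1) le_rfl
    linear_combination h0

theorem kusmin_landau {x : ℕ → ℝ} {L : ℕ} {θ : ℝ} (m : ℤ) (hθ : 0 < θ) (hθ1 : θ ≤ 1)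
    (h1 : ∀ i, i + 1 < L → m + θ ≤ dd x i ∧ dd x i ≤ m + 1 - θ)
    (h2 : ∀ i, i + 2 < L → dd x i ≤ dd x (i + 1)) :
    ‖∑ i ∈ range L, ee (x i)‖ ≤ 2 / θ := by
  have hb : 1 ≤ 1 / θ := by
    rw [le_div_iff₀ hθ]
    linarith
  have hc : 2 / θ = 1 / θ + 1 / θ := by ring
  rcases Nat.lt_or_ge L 2 with hL | hL
  · refine (norm_sum_ee_le _ _).trans ?_
    rw [Finset.card_range]
    have h3 : (L : ℝ) ≤ 1 := by exact_mod_cast Nat.lt_succ_iff.1 hL
    linarith
  · obtain ⟨n, rfl⟩ : ∃ n, L = n + 2 := ⟨L - 2, by omega⟩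
    have hf1 : ∀ i ≤ n, θ ≤ dd x i - m ∧ dd x i - m ≤ 1 - θ := by
      intro i hi
      have h3 := h1 i (by omega)
      constructor <;> linarith [h3.1, h3.2]
    have hkey : ∀ i ≤ n, ee (x i) = (ee (x i) - ee (x (i + 1))) * klG (dd x i - m) := by
      intro i hi
      have h3 := hf1 i hi
      have h4 := kl_sin hθ h3.1 h3.2
      have h5 := kl_mul (f := dd x i - m) (by linarith)
      have h6 : ee (x (i + 1)) = ee (x i) * ee (dd x i - m) := by
        have h7 : ee (dd x i - m) = ee (dd x i) := by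
          have h8 := ee_add (dd x i - m) m
          rw [ee_int, mul_one, sub_add_cancel] at h8
          exact h8.symm
        rw [h7, ← ee_add]
        congr 1
        unfold dd
        ring
      rw [h6]
      linear_combination (-ee (x i)) * h5
    have hdiff : ∀ i < n, ‖klG (dd x (i + 1) - m) - klG (dd x i - m)‖ =
        (klG (dd x i - m)).im - (klG (dd x (i + 1) - m)).im := by
      intro i hi
      have h3 := hf1 i hi.le
      have h4 := hf1 (i + 1) hi
      have h5 := kl_mono hθ h3.1 (f' := dd x (i + 1) - m)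
        (by linarith [h2 i (by omega)]) h4.2
      have h6 : klG (dd x (i + 1) - m) - klG (dd x i - m) =
          (((klG (dd x (i + 1) - m)).im - (klG (dd x i - m)).im : ℝ) : ℂ) * Complex.I := by
        apply Complex.ext
        · rw [Complex.sub_re, Complex.re_ofReal_mul, Complex.I_re, mul_zero]
          simp only [klG]
          ring
        · rw [Complex.sub_im, Complex.im_ofReal_mul, Complex.I_im, mul_one]
      rw [h6, norm_mul, Complex.norm_I, mul_one, Complex.norm_real, Real.norm_eq_abs,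
        abs_of_nonpos (by linarith)]
      ring
    rw [Finset.sum_range_succ, kl_sum x (fun i => klG (dd x i - m)) n hkey]
    have h3 : ‖∑ i ∈ range n, ee (x (i + 1)) *
        (klG (dd x (i + 1) - m) - klG (dd x i - m))‖ ≤
        (klG (dd x 0 - m)).im - (klG (dd x n - m)).im := by
      refine (norm_sum_le _ _).trans ?_
      have h4 : ∀ i ∈ range n, ‖ee (x (i + 1)) *
          (klG (dd x (i + 1) - m) - klG (dd x i - m))‖ =
          (klG (dd x i - m)).im - (klG (dd x (i + 1) - m)).im := by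
        intro i hi
        rw [norm_mul, norm_ee, one_mul, hdiff i (Finset.mem_range.1 hi)]
      rw [Finset.sum_congr rfl h4, Finset.sum_range_sub' (fun i => (klG (dd x i - m)).im)]
    have h0 := hf1 0 (Nat.zero_le n)
    have hn := hf1 n le_rfl
    have g0 := kl_norm hθ h0.1 h0.2
    have gn := kl_norm hθ hn.1 hn.2
    have i0 := (abs_le.1 ((Complex.abs_im_le_norm (klG (dd x 0 - m))).trans g0)).2
    have i1 := (abs_le.1 ((Complex.abs_im_le_norm (klG (dd x n - m))).trans gn)).1
    have e : 1 / (4 * θ) = 1 / θ / 4 := by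
      field_simp
    rw [e] at g0 gn i0 i1
    have t1 : ‖ee (x 0) * klG (dd x 0 - m)‖ ≤ 1 / θ / 4 := by
      rw [norm_mul, norm_ee, one_mul]
      exact g0
    have t2 : ‖ee (x (n + 1)) * klG (dd x n - m)‖ ≤ 1 / θ / 4 := by
      rw [norm_mul, norm_ee, one_mul]
      exact gn
    have t3 := norm_ee (x (n + 1))
    have t4 := norm_add_le (ee (x 0) * klG (dd x 0 - m) - ee (x (n + 1)) * klG (dd x n - m) +
      ∑ i ∈ range n, ee (x (i + 1)) * (klG (dd x (i + 1) - m) - klG (dd x i - m)))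
      (ee (x (n + 1)))
    have t5 := norm_add_le (ee (x 0) * klG (dd x 0 - m) - ee (x (n + 1)) * klG (dd x n - m))
      (∑ i ∈ range n, ee (x (i + 1)) * (klG (dd x (i + 1) - m) - klG (dd x i - m)))
    have t6 := norm_sub_le (ee (x 0) * klG (dd x 0 - m)) (ee (x (n + 1)) * klG (dd x n - m))
    linarith

end MargE
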