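import Pool.Agent.MargE.Defs

/-!
# The derivatives of `h x ^ α + ξ log x` (PACKAGE EA7)

`pc α k = α (α - 1) ... (α - k + 1)`,
`Ak h α ξ k x = h (pc α k) x ^ α + (-1) ^ (k - 1) (k - 1)! ξ` for `k ≥ 1`
(written with `k + 1`), and `Fd h α ξ (k + 1) x = Ak h α ξ (k + 1) x / x ^ (k + 1)`.

`hasDerivAt_Fd`. `j = 0`: `(h x ^ α + ξ log x)' = h α x ^ (α - 1) + ξ / x = (h α x ^ α + ξ) / x`
(`Real.hasDerivAt_rpow_const`, `x ^ (α - 1) = x ^ α / x`, `pc α 1 = α`). `j = k + 1`: the derivative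
of `A / x ^ (k + 1)` is `A' / x ^ (k + 1) - (k + 1) A / x ^ (k + 2)`, i.e.
`(x A' - (k + 1) A) / x ^ (k + 2)`, and `x A' = α h (pc α (k + 1)) x ^ α`, so
`x A' - (k + 1) A = h pc α (k + 1) (α - (k + 1)) x ^ α - (k + 1) (-1) ^ k k! ξ`, which is
`A` for `k + 2`.

`Ak_succ` : `A_(k + 2) + (k + 1) A_(k + 1) = α h (pc α (k + 1)) x ^ α`
(`pc α (k + 2) = pc α (k + 1) (α - (k + 1))`).

`pc_ne_zero`: `α` is not a natural number.

`Ak_mono`, `Ak_anti`: `x ↦ x ^ α` is increasing for `x > 0`, `α > 0`.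

`Ak_le`: `x ^ α ≤ (2 N) ^ α`.
-/

set_option autoImplicit false

open Finset Real

namespace MargE

/-- `α (α - 1) ... (α - k + 1)` -/
noncomputable def pc (α : ℝ) (k : ℕ) : ℝ := ∏ j ∈ range k, (α - j)

/-- `x ^ (k + 1)` times the derivative of order `k + 1` of `h x ^ α + ξ log x` -/
noncomputable def Ak (h α ξ : ℝ) (k : ℕ) (x : ℝ) : ℝ :=
  h * pc α (k + 1) * x ^ α + (-1) ^ k * (k.factorial : ℝ) * ξ

/-- the derivatives of `h x ^ α + ξ log x` -/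
noncomputable def Fd (h α ξ : ℝ) : ℕ → ℝ → ℝ
  | 0, x => h * x ^ α + ξ * log x
  | k + 1, x => Ak h α ξ k x / x ^ (k + 1)

theorem pc_ne_zero {α : ℝ} (hα : ∀ n : ℕ, α ≠ n) (k : ℕ) : pc α k ≠ 0 := by
  exact Finset.prod_ne_zero_iff.2 fun j _ => sub_ne_zero.2 (hα j)

theorem Ak_succ (h α ξ : ℝ) (k : ℕ) (x : ℝ) :
    Ak h α ξ (k + 1) x + (k + 1) * Ak h α ξ k x = α * (h * pc α (k + 1) * x ^ α) := by
  have h1 : pc α (k + 1 + 1) = pc α (k + 1) * (α - ((k + 1 : ℕ) : ℝ)) := by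
    unfold pc
    rw [Finset.prod_range_succ]
  unfold Ak
  rw [h1, Nat.factorial_succ]
  push_cast
  ring

theorem hasDerivAt_Fd (h α ξ : ℝ) (j : ℕ) {x : ℝ} (hx : 0 < x) :
    HasDerivAt (Fd h α ξ j) (Fd h α ξ (j + 1) x) x := by
  have hx0 : x ≠ 0 := hx.ne'
  have hr : HasDerivAt (fun y : ℝ => y ^ α) (α * x ^ (α - 1)) x :=
    hasDerivAt_rpow_const (Or.inl hx0)
  have hs : x ^ (α - 1) = x ^ α / x := rpow_sub_one hx0 α
  cases j with
  | zero =>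
    have h1 := (hr.const_mul h).add ((hasDerivAt_log hx0).const_mul ξ)
    refine (HasDerivAt.congr_deriv h1 ?_).congr_of_eventuallyEq ?_
    · show _ = (h * pc α (0 + 1) * x ^ α + (-1) ^ 0 * (Nat.factorial 0 : ℝ) * ξ) / x ^ (0 + 1)
      rw [hs]
      unfold pc
      simp only [zero_add, Finset.prod_range_one, Nat.cast_zero, sub_zero, pow_zero,
        Nat.factorial_zero, Nat.cast_one, one_mul, pow_one]
      field_simp
    · exact Filter.EventuallyEq.refl _ _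
  | succ k =>
    have h1 : HasDerivAt (Ak h α ξ k) (h * pc α (k + 1) * (α * x ^ (α - 1))) x := by
      unfold Ak
      exact (hr.const_mul (h * pc α (k + 1))).add_const _
    have h2 : HasDerivAt (fun y : ℝ => y ^ (k + 1)) (((k + 1 : ℕ) : ℝ) * x ^ k) x := by
      simpa using hasDerivAt_pow (k + 1) x
    have h3 := h1.div h2 (pow_ne_zero _ hx0)
    refine HasDerivAt.congr_deriv h3 ?_
    show _ = Ak h α ξ (k + 1) x / x ^ (k + 1 + 1)
    have h4 := Ak_succ h α ξ k x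
    have h5 : Ak h α ξ (k + 1) x = α * (h * pc α (k + 1) * x ^ α) - (k + 1) * Ak h α ξ k x := by
      linarith
    rw [h5, hs]
    push_cast
    field_simp
    ring

theorem Ak_mono {h α : ℝ} (hα : 0 < α) {k : ℕ} (hs : 0 ≤ h * pc α (k + 1)) (ξ : ℝ) {x y : ℝ}
    (hx : 0 < x) (hxy : x ≤ y) : Ak h α ξ k x ≤ Ak h α ξ k y := by
  unfold Ak
  have h1 : x ^ α ≤ y ^ α := rpow_le_rpow hx.le hxy hα.le
  have h2 := mul_le_mul_of_nonneg_left h1 hs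
  linarith

theorem Ak_anti {h α : ℝ} (hα : 0 < α) {k : ℕ} (hs : h * pc α (k + 1) ≤ 0) (ξ : ℝ) {x y : ℝ}
    (hx : 0 < x) (hxy : x ≤ y) : Ak h α ξ k y ≤ Ak h α ξ k x := by
  unfold Ak
  have h1 : x ^ α ≤ y ^ α := rpow_le_rpow hx.le hxy hα.le
  have h2 := mul_le_mul_of_nonpos_left h1 hs
  linarith

/-- upper bound -/
theorem Ak_le (h : ℝ) {α : ℝ} (hα : 0 < α) (k : ℕ) : ∃ C : ℝ, 1 ≤ C ∧ ∀ N ξ x : ℝ, 1 ≤ N →
    x ∈ Set.Icc N (2 * N) → |Ak h α ξ k x| ≤ C * (N ^ α + |ξ|) := by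
  refine ⟨1 + |h * pc α (k + 1)| * 2 ^ α + (k.factorial : ℝ), ?_, ?_⟩
  · have h1 : 0 ≤ |h * pc α (k + 1)| * (2 : ℝ) ^ α :=
      mul_nonneg (abs_nonneg _) (rpow_nonneg (by norm_num) _)
    have h2 : (0 : ℝ) ≤ (k.factorial : ℝ) := Nat.cast_nonneg _
    linarith
  · intro N ξ x hN hx
    have hN0 : (0 : ℝ) < N := by linarith
    have hx0 : 0 < x := lt_of_lt_of_le hN0 hx.1
    have h1 : x ^ α ≤ 2 ^ α * N ^ α := by
      rw [← mul_rpow (by norm_num) hN0.le]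
      exact rpow_le_rpow hx0.le hx.2 hα.le
    have h2 : 0 ≤ x ^ α := rpow_nonneg hx0.le _
    have h3 : 0 ≤ N ^ α := rpow_nonneg hN0.le _
    have h4 : (0 : ℝ) ≤ (k.factorial : ℝ) := Nat.cast_nonneg _
    have h5 := abs_nonneg ξ
    have h6 := abs_nonneg (h * pc α (k + 1))
    have h7 : (0 : ℝ) ≤ 2 ^ α := rpow_nonneg (by norm_num) _
    have h8 : |Ak h α ξ k x| ≤ |h * pc α (k + 1)| * x ^ α + (k.factorial : ℝ) * |ξ| := by
      unfold Ak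
      refine (abs_add_le _ _).trans (le_of_eq ?_)
      rw [abs_mul (h * pc α (k + 1)) (x ^ α), abs_of_nonneg h2,
        abs_mul ((-1 : ℝ) ^ k * (k.factorial : ℝ)) ξ, abs_mul ((-1 : ℝ) ^ k) (k.factorial : ℝ),
        abs_pow, abs_neg, abs_one, one_pow, one_mul, Nat.abs_cast]
    have h9 := mul_le_mul_of_nonneg_left h1 h6
    have h10 : 0 ≤ |h * pc α (k + 1)| * 2 ^ α * |ξ| := by positivity
    have h11 : 0 ≤ (k.factorial : ℝ) * N ^ α := by positivity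
    nlinarith

/-- if the derivative of order `k + 1` is small then the next one is large. Proof: let
`a = |h pc α (k + 1)| > 0`, `c₂ = α a / (2 (1 + a))`, `c = min (1 / 2) (c₂ / (2 (k + 1)))`,
`Λ = N ^ α + |ξ|`, `|A_(k + 1) (x)| < c Λ`. Then `|ξ| ≤ k! |ξ| ≤ a x ^ α + c Λ` and
`Λ ≤ x ^ α + |ξ| ≤ (1 + a) x ^ α + Λ / 2`, so `x ^ α ≥ Λ / (2 (1 + a))`, and by `Ak_succ`
`s A_(k + 2) (x) = α a x ^ α - (k + 1) s A_(k + 1) (x) ≥ c₂ Λ - (k + 1) c Λ ≥ (c₂ / 2) Λ ≥ c Λ`,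
where `s` is the sign of `h pc α (k + 1)`. (`c ≤ c₂ / 2` since `k + 1 ≥ 1`.) -/
theorem Ak_large {h α : ℝ} (hh : h ≠ 0) (hα1 : 1 < α) (hα : ∀ n : ℕ, α ≠ n) (k : ℕ) :
    ∃ c : ℝ, 0 < c ∧ ∀ N ξ x : ℝ, 1 ≤ N → N ≤ x → |Ak h α ξ k x| < c * (N ^ α + |ξ|) →
      (0 < h * pc α (k + 1) → c * (N ^ α + |ξ|) ≤ Ak h α ξ (k + 1) x) ∧
      (h * pc α (k + 1) < 0 → Ak h α ξ (k + 1) x ≤ -(c * (N ^ α + |ξ|))) := by
  set b : ℝ := h * pc α (k + 1) with hb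
  have hb0 : b ≠ 0 := mul_ne_zero hh (pc_ne_zero hα _)
  set a : ℝ := |b| with ha
  have ha0 : 0 < a := abs_pos.2 hb0
  have hα0 : 0 < α := by linarith
  set c₂ : ℝ := α * a / (2 * (1 + a)) with hc₂
  have hc₂0 : 0 < c₂ := by positivity
  have hk1 : (1 : ℝ) ≤ (k : ℝ) + 1 := by
    have : (0 : ℝ) ≤ (k : ℝ) := Nat.cast_nonneg _
    linarith
  have hk0 : (0 : ℝ) < (k : ℝ) + 1 := by linarith
  set c : ℝ := min (1 / 2) (c₂ / (2 * ((k : ℝ) + 1))) with hc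
  have hc0 : 0 < c := lt_min (by norm_num) (by positivity)
  have hc1 : c ≤ 1 / 2 := min_le_left _ _
  have hc2 : ((k : ℝ) + 1) * c ≤ c₂ / 2 := by
    have h1 : c ≤ c₂ / (2 * ((k : ℝ) + 1)) := min_le_right _ _
    have h2 := mul_le_mul_of_nonneg_left h1 hk0.le
    have h3 : ((k : ℝ) + 1) * (c₂ / (2 * ((k : ℝ) + 1))) = c₂ / 2 := by field_simp
    linarith
  have hc3 : c ≤ c₂ / 2 := by nlinarith
  refine ⟨c, hc0, fun N ξ x hN hNx hA => ?_⟩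
  have hN0 : (0 : ℝ) < N := by linarith
  have hx0 : 0 < x := lt_of_lt_of_le hN0 hNx
  have hX : N ^ α ≤ x ^ α := rpow_le_rpow hN0.le hNx hα0.le
  have hNα : 0 ≤ N ^ α := rpow_nonneg hN0.le _
  set X : ℝ := x ^ α with hXdef
  set Λ : ℝ := N ^ α + |ξ| with hΛ
  have hX0 : 0 ≤ X := hNα.trans hX
  have hξ0 := abs_nonneg ξ
  have hΛ0 : 0 ≤ Λ := by positivity
  have hfac : (1 : ℝ) ≤ (k.factorial : ℝ) := by
    exact_mod_cast Nat.succ_le_of_lt (Nat.factorial_pos k)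
  have hAdef : Ak h α ξ k x = b * X + (-1) ^ k * (k.factorial : ℝ) * ξ := rfl
  have hξ1 : |ξ| ≤ a * X + c * Λ := by
    have h1 : |(-1 : ℝ) ^ k * (k.factorial : ℝ) * ξ| = (k.factorial : ℝ) * |ξ| := by
      rw [abs_mul, abs_mul, abs_pow, abs_neg, abs_one, one_pow, one_mul, Nat.abs_cast]
    have h2 : (-1 : ℝ) ^ k * (k.factorial : ℝ) * ξ = Ak h α ξ k x - b * X := by
      rw [hAdef]
      ring
    have h3 : |Ak h α ξ k x - b * X| ≤ |Ak h α ξ k x| + |b * X| := abs_sub _ _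
    have h4 : |b * X| = a * X := by rw [abs_mul, abs_of_nonneg hX0]
    rw [← h2, h1, h4] at h3
    nlinarith
  have hΛX : Λ ≤ 2 * (1 + a) * X := by
    have h1 : c * Λ ≤ 1 / 2 * Λ := mul_le_mul_of_nonneg_right hc1 hΛ0
    nlinarith
  have hmain : c₂ * Λ ≤ α * a * X := by
    have h1 : c₂ * Λ ≤ c₂ * (2 * (1 + a) * X) := mul_le_mul_of_nonneg_left hΛX hc₂0.le
    have h2 : c₂ * (2 * (1 + a) * X) = α * a * X := by
      rw [hc₂]
      field_simp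
    linarith
  have hkA : ((k : ℝ) + 1) * |Ak h α ξ k x| ≤ c₂ / 2 * Λ := by
    have h1 : ((k : ℝ) + 1) * |Ak h α ξ k x| ≤ ((k : ℝ) + 1) * (c * Λ) :=
      mul_le_mul_of_nonneg_left hA.le hk0.le
    have h2 := mul_le_mul_of_nonneg_right hc2 hΛ0
    linarith
  have hcΛ : c * Λ ≤ c₂ / 2 * Λ := mul_le_mul_of_nonneg_right hc3 hΛ0
  have hsucc := Ak_succ h α ξ k x
  have hle := neg_abs_le (Ak h α ξ k x)
  have hge := le_abs_self (Ak h α ξ k x)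
  constructor
  · intro hpos
    have h1 : a = b := abs_of_pos hpos
    have h2 : ((k : ℝ) + 1) * Ak h α ξ k x ≤ ((k : ℝ) + 1) * |Ak h α ξ k x| :=
      mul_le_mul_of_nonneg_left hge hk0.le
    have h3 : α * (b * X) = α * a * X := by
      rw [h1]
      ring
    change Ak h α ξ (k + 1) x + (k + 1) * Ak h α ξ k x = α * (b * X) at hsucc
    linarith
  · intro hneg
    have h1 : a = -b := abs_of_neg hneg
    have h2 : ((k : ℝ) + 1) * (-|Ak h α ξ k x|) ≤ ((k : ℝ) + 1) * Ak h α ξ k x :=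
      mul_le_mul_of_nonneg_left hle hk0.le
    have h3 : α * (b * X) = -(α * a * X) := by
      rw [h1]
      ring
    change Ak h α ξ (k + 1) x + (k + 1) * Ak h α ξ k x = α * (b * X) at hsucc
    linarith

end MargE
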