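import Pool.Agent.MargE.Diff
import Pool.Agent.MargE.Fam

/-!
# One block of an exponential sum (PACKAGE EA8)

Proof. Let `Λ = N ^ α + |ξ| > 0`, `C₁` the constant of `Ak_le` for `k`. If `n = 0` the sum is zero (take `K ≥ 0`). The real interval
`I = [N + a, N + a + n - 1]` is contained in `[N, 2 N]`. Assume the first alternative. For `z ∈ I`:
`Fd h α ξ (k + 1) z = Ak h α ξ k z / z ^ (k + 1)` is between `lam = c Λ / (2 N) ^ (k + 1)` and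
`C₁ Λ / N ^ (k + 1) = (C₁ 2 ^ (k + 1) / c) lam`. By `dd_real` (with `y = N + a`, `F = Fd h α ξ`,
`hasDerivAt_Fd`; for `i + (k + 1) < n` the interval `[y + i, y + i + (k + 1)]` is in `I`) the `(k + 1)`-th
differences of `x i = Fd h α ξ 0 (N + a + i)` are in `[lam, C lam]`, `C = C₁ 2 ^ (k + 1) / c`, for
`i + (k + 1) < n`. `lam = (c / 2 ^ (k + 1)) Λ N ^ (-(k + 1))` is between `c₀ N ^ (-q)` and `c₀ N ^ (-p)`,
`c₀ = c / 2 ^ (k + 1)` (the hypotheses on `Λ`; `N ^ (k + 1 - q) = N ^ (k + 1) N ^ (-q)`). So `hV` with `C`, `c₀`, `C₀ = c₀` gives `K` (`n ≤ N`).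
The second alternative: the same for `- x i` (`dd_iterate_neg`, `norm_sum_ee_neg`; use `dd_real` for `Fd` and negate).
-/

set_option autoImplicit false

open Finset Real

namespace MargE

/-- the bounds for the derivative of order `k + 1` on the block -/
private lemma Fd_bounds {h α ξ c C₁ N z : ℝ} {k : ℕ} (hc : 0 < c) (hN : 1 ≤ N)
    (hΛ : 0 ≤ N ^ α + |ξ|) (hzN : N ≤ z) (hz2 : z ≤ 2 * N)
    (hlow : c * (N ^ α + |ξ|) ≤ Ak h α ξ k z) (hup : Ak h α ξ k z ≤ C₁ * (N ^ α + |ξ|)) :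
    c * (N ^ α + |ξ|) / (2 * N) ^ (k + 1) ≤ Ak h α ξ k z / z ^ (k + 1) ∧
      Ak h α ξ k z / z ^ (k + 1) ≤
        C₁ * 2 ^ (k + 1) / c * (c * (N ^ α + |ξ|) / (2 * N) ^ (k + 1)) := by
  have hN0 : 0 < N := by linarith
  have hz0 : 0 < z := by linarith
  have h0 : 0 ≤ c * (N ^ α + |ξ|) := mul_nonneg hc.le hΛ
  constructor
  · exact div_le_div₀ (h0.trans hlow) hlow (pow_pos hz0 _) (pow_le_pow_left₀ hz0.le hz2 _)
  · have h1 : C₁ * 2 ^ (k + 1) / c * (c * (N ^ α + |ξ|) / (2 * N) ^ (k + 1)) =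
        C₁ * (N ^ α + |ξ|) / N ^ (k + 1) := by
      rw [mul_pow]
      field_simp
    rw [h1]
    exact div_le_div₀ ((h0.trans hlow).trans hup) hup (pow_pos hN0 _)
      (pow_le_pow_left₀ hN0.le hzN _)

theorem exp_block {k : ℕ} {p q δ : ℝ} (hV : VdCd (k + 1) p q δ) (h : ℝ) {α : ℝ} (hα : 0 < α)
    {c : ℝ} (hc : 0 < c) :
    ∃ K : ℝ, 0 ≤ K ∧ ∀ (N a n : ℕ) (ξ : ℝ), 1 ≤ N → a + n ≤ N →
      (N : ℝ) ^ ((k : ℝ) + 1 - q) ≤ (N : ℝ) ^ α + |ξ| →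
      (N : ℝ) ^ α + |ξ| ≤ (N : ℝ) ^ ((k : ℝ) + 1 - p) →
      ((∀ z ∈ Set.Icc ((N : ℝ) + a) (N + a + n - 1), c * ((N : ℝ) ^ α + |ξ|) ≤ Ak h α ξ k z) ∨
        (∀ z ∈ Set.Icc ((N : ℝ) + a) (N + a + n - 1),
          Ak h α ξ k z ≤ -(c * ((N : ℝ) ^ α + |ξ|)))) →
      ‖∑ i ∈ range n, ee (Fd h α ξ 0 (N + a + i))‖ ≤ K * (N : ℝ) ^ (1 - δ) := by
  obtain ⟨C₁, hC₁, hAk⟩ := Ak_le h hα k
  set c₀ : ℝ := c / 2 ^ (k + 1) with hc₀
  set C : ℝ := C₁ * 2 ^ (k + 1) / c with hC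
  have hc₀0 : 0 < c₀ := by positivity
  obtain ⟨K₀, hK₀⟩ := hV C c₀ c₀ hc₀0
  refine ⟨max K₀ 0, le_max_right _ _, ?_⟩
  intro N a n ξ hN han hΛ1 hΛ2 halt
  have hN1 : (1 : ℝ) ≤ (N : ℝ) := by exact_mod_cast hN
  have hN0 : (0 : ℝ) < (N : ℝ) := by linarith
  have hrp : 0 ≤ (N : ℝ) ^ (1 - δ) := rpow_nonneg hN0.le _
  rcases Nat.eq_zero_or_pos n with hn | hn
  · subst hn
    simp only [range_zero, sum_empty, norm_zero]
    exact mul_nonneg (le_max_right _ _) hrp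
  set Λ : ℝ := (N : ℝ) ^ α + |ξ| with hΛ
  have hΛ0 : 0 ≤ Λ := add_nonneg (rpow_nonneg hN0.le _) (abs_nonneg _)
  have hcast : (N : ℝ) ^ ((k : ℝ) + 1) = (N : ℝ) ^ (k + 1) := by
    rw [← rpow_natCast]
    push_cast
    rfl
  have hsplit : ∀ r : ℝ, (N : ℝ) ^ ((k : ℝ) + 1 - r) = (N : ℝ) ^ (k + 1) * (N : ℝ) ^ (-r) := by
    intro r
    rw [sub_eq_add_neg, rpow_add hN0, hcast]
  have hpow : (0 : ℝ) < (N : ℝ) ^ (k + 1) := pow_pos hN0 _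
  set lam : ℝ := c * Λ / (2 * (N : ℝ)) ^ (k + 1) with hlam
  have hlam' : lam = c₀ * (Λ / (N : ℝ) ^ (k + 1)) := by
    rw [hlam, hc₀, mul_pow]
    field_simp
  have hl1 : c₀ * (N : ℝ) ^ (-q) ≤ lam := by
    rw [hlam']
    refine mul_le_mul_of_nonneg_left ?_ hc₀0.le
    rw [le_div_iff₀ hpow, mul_comm, ← hsplit]
    exact hΛ1
  have hl2 : lam ≤ c₀ * (N : ℝ) ^ (-p) := by
    rw [hlam']
    refine mul_le_mul_of_nonneg_left ?_ hc₀0.le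
    rw [div_le_iff₀ hpow, mul_comm ((N : ℝ) ^ (-p)), ← hsplit]
    exact hΛ2
  have hnN : (n : ℝ) ≤ (N : ℝ) := by exact_mod_cast (by omega : n ≤ N)
  have hanN : (a : ℝ) + n ≤ N := by exact_mod_cast han
  have ha0 : (0 : ℝ) ≤ (a : ℝ) := Nat.cast_nonneg _
  -- the points of the small intervals
  have hpt : ∀ i : ℕ, i + (k + 1) < n → ∀ z ∈ Set.Icc ((N : ℝ) + a + i)
      ((N : ℝ) + a + i + ((k + 1 : ℕ) : ℝ)),
      z ∈ Set.Icc ((N : ℝ) + a) (N + a + n - 1) ∧ (N : ℝ) ≤ z ∧ z ≤ 2 * N := by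
    intro i hi z hz
    have hi0 : (0 : ℝ) ≤ (i : ℝ) := Nat.cast_nonneg _
    have hi1 : (i : ℝ) + ((k + 1 : ℕ) : ℝ) + 1 ≤ n := by exact_mod_cast hi
    obtain ⟨hz1, hz2⟩ := hz
    refine ⟨⟨by linarith, by linarith⟩, by linarith, by linarith⟩
  have hder : ∀ i : ℕ, i + (k + 1) < n → ∀ j, j < k + 1 → ∀ z ∈ Set.Icc ((N : ℝ) + a + i)
      ((N : ℝ) + a + i + ((k + 1 : ℕ) : ℝ)),
      HasDerivAt (Fd h α ξ j) (Fd h α ξ (j + 1) z) z := by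
    intro i hi j _ z hz
    have := (hpt i hi z hz).2.1
    exact hasDerivAt_Fd h α ξ j (by linarith)
  have hKle : K₀ * (N : ℝ) ^ (1 - δ) ≤ max K₀ 0 * (N : ℝ) ^ (1 - δ) :=
    mul_le_mul_of_nonneg_right (le_max_left _ _) hrp
  rcases halt with halt | halt
  · refine (hK₀ N hN1 n lam hnN hl1 hl2 (fun i : ℕ => Fd h α ξ 0 (N + a + i)) ?_).trans hKle
    intro i hi
    refine dd_real (F := Fd h α ξ) (k := k + 1) (y := (N : ℝ) + a) (i := i) (hder i hi) ?_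
    intro z hz
    obtain ⟨hz1, hz2, hz3⟩ := hpt i hi z hz
    exact Fd_bounds hc hN1 hΛ0 hz2 hz3 (halt z hz1)
      ((le_abs_self _).trans (hAk N ξ z hN1 ⟨hz2, hz3⟩))
  · rw [← norm_sum_ee_neg]
    refine (hK₀ N hN1 n lam hnN hl1 hl2 (fun i : ℕ => -Fd h α ξ 0 (N + a + i)) ?_).trans hKle
    intro i hi
    have hdd : -(C * lam) ≤ dd^[k + 1] (fun i : ℕ => Fd h α ξ 0 (N + a + i)) i ∧
        dd^[k + 1] (fun i : ℕ => Fd h α ξ 0 (N + a + i)) i ≤ -lam := by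
      refine dd_real (F := Fd h α ξ) (k := k + 1) (y := (N : ℝ) + a) (i := i) (hder i hi) ?_
      intro z hz
      obtain ⟨hz1, hz2, hz3⟩ := hpt i hi z hz
      have hneg : ∀ x : ℝ, Ak (-h) α (-ξ) k x = -Ak h α ξ k x := by
        intro x
        unfold Ak
        ring
      have hb := Fd_bounds (h := -h) (α := α) (ξ := -ξ) (c := c) (C₁ := C₁) (N := (N : ℝ))
        (z := z) (k := k) hc hN1 (by rw [abs_neg]; exact hΛ0) hz2 hz3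
        (by rw [hneg, abs_neg]; linarith [halt z hz1])
        (by rw [hneg, abs_neg]; exact (neg_le_abs _).trans (hAk N ξ z hN1 ⟨hz2, hz3⟩))
      rw [hneg, abs_neg, neg_div] at hb
      show -(C * lam) ≤ Ak h α ξ k z / z ^ (k + 1) ∧ Ak h α ξ k z / z ^ (k + 1) ≤ -lam
      exact ⟨by linarith [hb.2], by linarith [hb.1]⟩
    rw [dd_iterate_neg]
    exact ⟨by linarith [hdd.2], by linarith [hdd.1]⟩

end MargE
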