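import Pool.Agent.MargS.Point

/-!
# Weights: definitions (complete file)
-/

set_option autoImplicit false

open Finset Real MeasureTheory Filter Topology Marg
open scoped ENNReal NNReal

namespace MargE

/-- The weights `ω` have small correlation in mean square (over `u`) with the functions
`z ⌊exp (u + c) n ^ β⌋` on the blocks `[N, 2 N)`. -/
def Wt (ω : ℕ → ℝ) (β δ : ℝ) : Prop :=
  ∀ c : ℝ, ∃ C : ℝ, 0 ≤ C ∧ ∀ᶠ N : ℕ in atTop, ∀ z : ℕ → ℝ, (∀ n, |z n| ≤ 1) →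
    ∫ u, (∑ i ∈ range N, ω (N + i) *
      MargS.ft z (MargS.lc β c N - 1) (1 + MargS.lc β c (2 * N))
        (u + MargS.lc β c ((N + i : ℕ) : ℝ))) ^ 2 ≤ C * (N : ℝ) ^ (2 - 2 * δ)

/-- weighted block average -/
noncomputable def TW (ω z : ℕ → ℝ) (β c : ℝ) (N : ℕ) (u : ℝ) : ℝ :=
  (∑ i ∈ range N, ω (N + i) * MargS.ZE z (u + MargS.lc β c ((N + i : ℕ) : ℝ))) / (N : ℝ)

/-- the dimension -/
noncomputable def sw (b : ℕ) (δ : ℝ) : ℝ := 1 - δ / (b + 3)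

lemma sw_pos (b : ℕ) {δ : ℝ} (h1 : δ ≤ 1) : 0 < sw b δ := by
  unfold sw
  have h : (0 : ℝ) ≤ b := Nat.cast_nonneg b
  have h2 : δ / (b + 3) ≤ 1 / 3 := by
    rw [div_le_div_iff₀ (by positivity) (by norm_num)]
    linarith
  linarith

lemma sw_lt_one (b : ℕ) {δ : ℝ} (h0 : 0 < δ) : sw b δ < 1 := by
  unfold sw
  have : 0 < δ / ((b : ℝ) + 3) := by positivity
  linarith

/-- the dimension as an element of `ℝ≥0` -/
noncomputable def swN (b : ℕ) {δ : ℝ} (h1 : δ ≤ 1) : ℝ≥0 := ⟨sw b δ, (sw_pos b h1).le⟩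

lemma swN_lt_one (b : ℕ) {δ : ℝ} (h0 : 0 < δ) (h1 : δ ≤ 1) : swN b h1 < 1 := by
  rw [← NNReal.coe_lt_coe]
  exact sw_lt_one b h0

end MargE
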