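import Pool.Agent.MargE.SmL2
import Pool.Agent.MargE.WtDefs

/-!
# Content of the exceptional set of one block (PACKAGE EB6)

`hcont_badset_w`: copy the proof of `MargS.hcont_badset` (`Pool/Agent/MargS/L2.lean`): if `u` is not in the union of the bad sets then
every `rem0 z v0 v1 s (u + t i)` is zero, so the weighted sum is zero too.

`hcont_block`. Let `C₀` be the constant of `h` for `c` (for all large `N`), `cc : ℕ` with `exp (1 + c) ≤ cc`. Let `N ≥ 3`, `s = N ^ (-(b + 3) : ℝ)`,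
`v0 = lc β c N - 1`, `v1 = 1 + lc β c (2 N)`, `f = ft z v0 v1`, `t i = lc β c (N + i)`, `w i = ω (N + i)`. For `0 ≤ u ≤ 1` and `i < N`:
`u + t i ∈ [v0, v1]` (`MargS.lc_mono`), so `ZE z (u + t i) = f (u + t i)` (`MargS.ft_eq`), hence
`TW ω z β c N u = G u + A u / N`, `G u = (∑ w i * sm f s (u + t i)) / N`, `A u = ∑ w i * rem0 z v0 v1 s (u + t i)`.
* `|G x - G y| ≤ (2 / s) |x - y|` (`Marg.Bdd.sm_lip`, `MargS.ft_bdd`, `|w i| ≤ 1`).
* `G = (1 / N) sm g s`, `g v = ∑ w i * f (v + t i)` (`Marg.Bdd.sm_sum`), so `G ^ 2` is integrable and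
  `∫ G ^ 2 ≤ (1 / N ^ 2) ∫ g ^ 2 ≤ C₀ N ^ (-2 δ)` (`Marg.Bdd.sum_cpt`, `Marg.Cpt.sm_sq`, `h`).
* `Marg.hcont_superlevel` (`Pool/Agent/Marg/Cover.lean`) with `Lc = 2 / s`, `h = ε s / 4` and `σ = sw b δ`: the content of `{0 ≤ u ≤ 1, ε < |G u|}` is at
  most `4 C₀ N ^ (-2 δ) / ε ^ 2 * (ε / 4) ^ (σ - 1) * s ^ (σ - 1)` and `s ^ (σ - 1) = N ^ ((b + 3) (1 - σ)) = N ^ δ`.
* `hcont_badset_w` with `K = cc (2 N) ^ b ≥ exp v1` (see `MargS.hcont_RM`): the content of `{A u ≠ 0}` is at most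
  `N (K + 3) s ^ σ ≤ (cc 2 ^ b + 3) N ^ (b + 1) s s ^ (σ - 1) = (cc 2 ^ b + 3) N ^ (b + 1 - (b + 3) + δ) ≤ (cc 2 ^ b + 3) N ^ (-δ)` (`δ ≤ 1`).
* If `ε < |TW|` then `ε < |G u|` or `A u ≠ 0`. So `C = 4 C₀ / ε ^ 2 * (ε / 4) ^ (σ - 1) + (cc 2 ^ b + 3)`.
-/

set_option autoImplicit false

open Finset Real MeasureTheory Filter Topology Marg
open scoped ENNReal NNReal

namespace MargE

theorem hcont_badset_w {σ : ℝ} {hσ : 0 < σ} {z : ℕ → ℝ} (hz : ∀ n, |z n| ≤ 1) {v0 v1 s : ℝ}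
    (hs : 0 < s) {K N : ℕ} (hK : Real.exp v1 ≤ K) (w t : ℕ → ℝ) :
    hcont σ hσ {u | ∑ i ∈ Finset.range N, w i * MargS.rem0 z v0 v1 s (u + t i) ≠ 0}
      ≤ ENNReal.ofReal (N * (K + 3) * s ^ σ) := by
  have hsub : {u | ∑ i ∈ Finset.range N, w i * MargS.rem0 z v0 v1 s (u + t i) ≠ 0} ⊆
      ⋃ i ∈ Finset.range N,
        ((⋃ k ∈ Finset.range (K + 1), Set.Icc (log k - t i) (log k - t i + s)) ∪
        (Set.Icc (v0 - t i) (v0 - t i + s) ∪ Set.Icc (v1 - t i) (v1 - t i + s))) := by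
    intro u hu
    by_contra hcon
    apply hu
    apply Finset.sum_eq_zero
    intro i hi
    rw [Set.mem_iUnion₂] at hcon
    push Not at hcon
    have h1 := hcon i hi
    have h2 : u + t i ∉ MargS.badset v0 v1 s K := by
      intro hbad
      apply h1
      unfold MargS.badset at hbad
      rcases hbad with hb | hb | hb
      · left
        rw [Set.mem_iUnion₂] at hb ⊢
        obtain ⟨k, hk, hk1, hk2⟩ := hb
        exact ⟨k, hk, by linarith, by linarith⟩
      · right; left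
        exact ⟨by linarith [hb.1], by linarith [hb.2]⟩
      · right; right
        exact ⟨by linarith [hb.1], by linarith [hb.2]⟩
    unfold MargS.rem0
    rw [MargS.sm_eq_of_notMem_badset hz hs hK h2]
    ring
  have hone : ∀ x : ℝ, hcont σ hσ (Set.Icc x (x + s)) ≤ ENNReal.ofReal (s ^ σ) := by
    intro x
    refine (hcont_Icc_le x).trans (le_of_eq ?_)
    rw [ENNReal.ofReal_rpow_of_pos hs]
  refine (measure_mono hsub).trans ((measure_biUnion_finset_le _ _).trans ?_)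
  calc ∑ i ∈ Finset.range N, hcont σ hσ
        ((⋃ k ∈ Finset.range (K + 1), Set.Icc (log k - t i) (log k - t i + s)) ∪
        (Set.Icc (v0 - t i) (v0 - t i + s) ∪ Set.Icc (v1 - t i) (v1 - t i + s)))
      ≤ ∑ _i ∈ Finset.range N, ENNReal.ofReal ((K + 3) * s ^ σ) := by
        refine Finset.sum_le_sum fun i _ => ?_
        have hsσ : 0 ≤ s ^ σ := by positivity
        have h1 : hcont σ hσ (⋃ k ∈ Finset.range (K + 1), Set.Icc (log k - t i) (log k - t i + s))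
            ≤ ENNReal.ofReal ((K + 1) * s ^ σ) := by
          refine (measure_biUnion_finset_le _ _).trans ?_
          refine (Finset.sum_le_sum fun k _ => hone _).trans (le_of_eq ?_)
          rw [Finset.sum_const, Finset.card_range, nsmul_eq_mul,
            ENNReal.ofReal_mul (by positivity)]
          congr 1
          rw [← ENNReal.ofReal_natCast]
          push_cast
          rfl
        refine (measure_union_le _ _).trans ?_
        refine (add_le_add h1 ((measure_union_le _ _).trans (add_le_add (hone _) (hone _)))).trans ?_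
        rw [← ENNReal.ofReal_add hsσ hsσ, ← ENNReal.ofReal_add (by positivity) (by positivity)]
        apply ENNReal.ofReal_le_ofReal
        apply le_of_eq
        ring
    _ = ENNReal.ofReal (N * (K + 3) * s ^ σ) := by
        rw [Finset.sum_const, Finset.card_range, nsmul_eq_mul, mul_assoc,
          ENNReal.ofReal_mul (p := (N : ℝ)) (by positivity), ENNReal.ofReal_natCast]

theorem hcont_block {ω : ℕ → ℝ} (hω : ∀ n, |ω n| ≤ 1) {β : ℝ} (hβ : 1 ≤ β) {b : ℕ} (hb : β ≤ b)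
    {δ : ℝ} (h0 : 0 < δ) (h1 : δ ≤ 1) (h : Wt ω β δ) (c : ℝ) {ε : ℝ} (hε : 0 < ε) :
    ∃ C : ℝ, 0 ≤ C ∧ ∀ᶠ N : ℕ in atTop, ∀ z : ℕ → ℝ, (∀ n, |z n| ≤ 1) →
      hcont (sw b δ) (sw_pos b h1) {u | 0 ≤ u ∧ u ≤ 1 ∧ ε < |TW ω z β c N u|}
        ≤ ENNReal.ofReal (C * (N : ℝ) ^ (-δ)) := by
  obtain ⟨C₀, hC0, hC₀⟩ := h c
  obtain ⟨cc, hcc⟩ := exists_nat_ge (exp (1 + c))
  refine ⟨4 * C₀ / ε ^ 2 * (ε / 4) ^ (sw b δ - 1) + (cc * 2 ^ b + 3), by positivity, ?_⟩
  filter_upwards [hC₀, eventually_ge_atTop 3] with N hCN hN3' z hz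
  have hI := hCN z hz
  have hN3 : (3 : ℝ) ≤ N := by exact_mod_cast hN3'
  have hN0 : (0 : ℝ) < N := by linarith
  have hN1 : (1 : ℝ) ≤ N := by linarith
  set s : ℝ := (N : ℝ) ^ (-((b : ℝ) + 3)) with hsdef
  have hs : 0 < s := Real.rpow_pos_of_pos hN0 _
  set σ : ℝ := sw b δ with hσdef
  have hb3 : (b : ℝ) + 3 ≠ 0 := by positivity
  have hsσ : s ^ (σ - 1) = (N : ℝ) ^ δ := by
    rw [hsdef, ← Real.rpow_mul hN0.le]
    congr 1
    rw [hσdef]
    unfold sw
    field_simp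
    ring
  set v0 : ℝ := MargS.lc β c (N : ℝ) - 1 with hv0
  set v1 : ℝ := 1 + MargS.lc β c (2 * (N : ℝ)) with hv1
  set f : ℝ → ℝ := MargS.ft z v0 v1 with hf
  have hBf : Bdd f := MargS.ft_bdd hz v0 v1
  set t : ℕ → ℝ := fun i => MargS.lc β c ((N + i : ℕ) : ℝ) with ht
  set w : ℕ → ℝ := fun i => ω (N + i) with hw
  set g : ℝ → ℝ := fun v => ∑ i ∈ range N, w i * f (v + t i) with hg
  set G : ℝ → ℝ := fun u => (∑ i ∈ range N, w i * sm f s (u + t i)) / N with hG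
  set A : ℝ → ℝ := fun u => ∑ i ∈ range N, w i * MargS.rem0 z v0 v1 s (u + t i) with hA
  have htm : ∀ i, i < N → t i ∈ Set.Icc (MargS.lc β c (N : ℝ)) (MargS.lc β c (2 * (N : ℝ))) := by
    intro i hi
    have hi' : (i : ℝ) ≤ N := by exact_mod_cast hi.le
    have hi0 : (0 : ℝ) ≤ i := Nat.cast_nonneg i
    have e : ((N + i : ℕ) : ℝ) = (N : ℝ) + i := by push_cast; ring
    refine ⟨?_, ?_⟩
    · simp only [ht]
      rw [e]
      exact MargS.lc_mono hβ c hN3 (by linarith)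
    · simp only [ht]
      rw [e]
      exact MargS.lc_mono hβ c (by linarith) (by linarith)
  have hcpt := hBf.sum_cpt (MargS.ft_supp v0 v1) N (w := w) (fun i => hω _) htm
  obtain ⟨hsi, hsI⟩ := hcpt.sm_sq hs
  have hGg : ∀ u, G u = sm g s u / N := by
    intro u
    simp only [hG, hg]
    rw [hBf.sm_sum]
  have hG2 : (fun u => G u ^ 2) = fun u => sm g s u ^ 2 * (1 / (N : ℝ) ^ 2) := by
    funext u
    rw [hGg, div_pow]
    ring
  have hGi : Integrable (fun u => G u ^ 2) := by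
    rw [hG2]
    exact hsi.mul_const _
  have hGI : ∫ u, G u ^ 2 ≤ C₀ * (N : ℝ) ^ (-(2 * δ)) := by
    rw [hG2, integral_mul_const]
    have e1 : (N : ℝ) ^ (2 - 2 * δ) * (1 / (N : ℝ) ^ 2) = (N : ℝ) ^ (-(2 * δ)) := by
      have e2 : (N : ℝ) ^ 2 = (N : ℝ) ^ (2 : ℝ) := by
        rw [← Real.rpow_natCast]
        norm_num
      rw [e2, mul_one_div, ← Real.rpow_sub hN0]
      congr 1
      ring
    calc (∫ u, sm g s u ^ 2) * (1 / (N : ℝ) ^ 2)
        ≤ (C₀ * (N : ℝ) ^ (2 - 2 * δ)) * (1 / (N : ℝ) ^ 2) := by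
          refine mul_le_mul_of_nonneg_right ?_ (by positivity)
          exact hsI.trans hI
      _ = C₀ * (N : ℝ) ^ (-(2 * δ)) := by rw [mul_assoc, e1]
  have hGlip : ∀ x y, |G x - G y| ≤ 2 / s * |x - y| := by
    intro x y
    simp only [hG]
    rw [← sub_div, ← Finset.sum_sub_distrib, abs_div, abs_of_pos hN0, div_le_iff₀ hN0]
    calc |∑ i ∈ range N, (w i * sm f s (x + t i) - w i * sm f s (y + t i))|
        ≤ ∑ i ∈ range N, |w i * sm f s (x + t i) - w i * sm f s (y + t i)| :=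
          Finset.abs_sum_le_sum_abs _ _
      _ ≤ ∑ _i ∈ range N, 2 / s * |x - y| := by
          refine Finset.sum_le_sum fun i _ => ?_
          have h3 := hBf.sm_lip hs (x + t i) (y + t i)
          rw [add_sub_add_right_eq_sub] at h3
          rw [← mul_sub, abs_mul]
          calc |w i| * |sm f s (x + t i) - sm f s (y + t i)|
              ≤ 1 * (2 / s * |x - y|) :=
                mul_le_mul (hω _) h3 (abs_nonneg _) zero_le_one
            _ = 2 / s * |x - y| := one_mul _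
      _ = 2 / s * |x - y| * N := by
          rw [Finset.sum_const, card_range, nsmul_eq_mul]; ring
  -- part one
  have p1 : hcont σ (sw_pos b h1) {u | 0 ≤ u ∧ u ≤ 1 ∧ ε < |G u|}
      ≤ ENNReal.ofReal ((4 * C₀ / ε ^ 2 * (ε / 4) ^ (σ - 1)) * (N : ℝ) ^ (-δ)) := by
    refine (hcont_superlevel (h := ε * s / 4) (Lc := 2 / s) (by positivity) hε (by positivity)
      hGlip hGi hGI ?_).trans ?_
    · apply le_of_eq
      field_simp
      norm_num
    · apply ENNReal.ofReal_le_ofReal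
      have e1 : ε * s / 4 = (ε / 4) * s := by ring
      have e2 : (N : ℝ) ^ (-(2 * δ)) * (N : ℝ) ^ δ = (N : ℝ) ^ (-δ) := by
        rw [← Real.rpow_add hN0]
        congr 1
        ring
      rw [e1, Real.mul_rpow (by positivity) hs.le, hsσ, ← e2]
      apply le_of_eq
      ring
  -- part two
  have hKexp : exp v1 ≤ ((cc * (2 * N) ^ b : ℕ) : ℝ) := by
    have h20 : (0 : ℝ) < 2 * N := by linarith
    rw [hv1, MargS.lc_exp h20]
    push_cast
    have h21 : (2 * (N : ℝ)) ^ β ≤ (2 * (N : ℝ)) ^ b := by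
      rw [← Real.rpow_natCast]
      exact Real.rpow_le_rpow_of_exponent_le (by linarith) hb
    gcongr
  have p2 : hcont σ (sw_pos b h1) {u | A u ≠ 0}
      ≤ ENNReal.ofReal ((cc * 2 ^ b + 3) * (N : ℝ) ^ (-δ)) := by
    refine (hcont_badset_w hz hs hKexp w t).trans ?_
    apply ENNReal.ofReal_le_ofReal
    have e1 : s ^ σ = s * (N : ℝ) ^ δ := by
      rw [← hsσ, Real.rpow_sub_one hs.ne']; field_simp
    have h6 : ((cc * (2 * N) ^ b : ℕ) : ℝ) + 3 ≤ (cc * 2 ^ b + 3) * (N : ℝ) ^ b := by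
      push_cast
      rw [mul_pow]
      have : (1 : ℝ) ≤ (N : ℝ) ^ b := one_le_pow₀ (by linarith)
      nlinarith
    have h7 : (N : ℝ) * (N : ℝ) ^ b * (s * (N : ℝ) ^ δ) ≤ (N : ℝ) ^ (-δ) := by
      have e3 : (N : ℝ) * (N : ℝ) ^ b * (s * (N : ℝ) ^ δ) =
          (N : ℝ) ^ (1 + (b : ℝ) + (-((b : ℝ) + 3) + δ)) := by
        rw [hsdef, Real.rpow_add hN0 (1 + (b : ℝ)), Real.rpow_add hN0 1, Real.rpow_one,
          Real.rpow_natCast, Real.rpow_add hN0 (-((b : ℝ) + 3))]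
      rw [e3]
      exact Real.rpow_le_rpow_of_exponent_le hN1 (by linarith)
    rw [e1]
    calc (N : ℝ) * (((cc * (2 * N) ^ b : ℕ) : ℝ) + 3) * (s * (N : ℝ) ^ δ)
        ≤ N * ((cc * 2 ^ b + 3) * (N : ℝ) ^ b) * (s * (N : ℝ) ^ δ) := by gcongr
      _ = (cc * 2 ^ b + 3) * ((N : ℝ) * (N : ℝ) ^ b * (s * (N : ℝ) ^ δ)) := by ring
      _ ≤ (cc * 2 ^ b + 3) * (N : ℝ) ^ (-δ) := by
          refine mul_le_mul_of_nonneg_left h7 (by positivity)
  have hTW : ∀ u, 0 ≤ u → u ≤ 1 → TW ω z β c N u = G u + A u / N := by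
    intro u hu0 hu1
    unfold TW
    simp only [hG, hA]
    rw [← add_div, ← Finset.sum_add_distrib]
    congr 1
    refine Finset.sum_congr rfl fun i hi => ?_
    have h3 := htm i (mem_range.1 hi)
    have h4 : u + t i ∈ Set.Icc v0 v1 := by
      constructor
      · rw [hv0]; linarith [h3.1]
      · rw [hv1]; linarith [h3.2]
    have h5 : f (u + t i) = MargS.ZE z (u + t i) := MargS.ft_eq h4
    have h6 : MargS.ZE z (u + MargS.lc β c ((N + i : ℕ) : ℝ)) = f (u + t i) := h5.symm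
    rw [h6]
    simp only [hw]
    unfold MargS.rem0
    rw [← hf]
    ring
  have hsub : {u | 0 ≤ u ∧ u ≤ 1 ∧ ε < |TW ω z β c N u|}
      ⊆ {u | 0 ≤ u ∧ u ≤ 1 ∧ ε < |G u|} ∪ {u | A u ≠ 0} := by
    rintro u ⟨h3, h4, h5⟩
    by_cases hA0 : A u = 0
    · left
      rw [hTW u h3 h4, hA0, zero_div, add_zero] at h5
      exact ⟨h3, h4, h5⟩
    · right; exact hA0
  refine (measure_mono hsub).trans ((measure_union_le _ _).trans ((add_le_add p1 p2).trans ?_))
  rw [← ENNReal.ofReal_add (by positivity) (by positivity)]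
  apply ENNReal.ofReal_le_ofReal
  apply le_of_eq
  ring

end MargE
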