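import Mathlib

/-!
# Exponential sums with differences: definitions (complete file)
-/

open Finset Real

namespace MargE

/-- `exp (2 π i x)` -/
noncomputable def ee (x : ℝ) : ℂ := Complex.exp ((2 * π * x : ℝ) * Complex.I)

/-- the difference operator -/
def dd (x : ℕ → ℝ) (i : ℕ) : ℝ := x (i + 1) - x i

@[simp] lemma norm_ee (x : ℝ) : ‖ee x‖ = 1 := by
  unfold ee
  exact Complex.norm_exp_ofReal_mul_I _

lemma ee_zero : ee 0 = 1 := by simp [ee]

lemma ee_add (x y : ℝ) : ee (x + y) = ee x * ee y := by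
  unfold ee
  rw [← Complex.exp_add]
  congr 1
  push_cast
  ring

lemma ee_neg (x : ℝ) : ee (-x) = (starRingEnd ℂ) (ee x) := by
  unfold ee
  rw [← Complex.exp_conj, map_mul, Complex.conj_ofReal, Complex.conj_I]
  congr 1
  push_cast
  ring

lemma ee_sub (x y : ℝ) : ee (x - y) = ee x * (starRingEnd ℂ) (ee y) := by
  rw [sub_eq_add_neg, ee_add, ee_neg]

lemma ee_int (m : ℤ) : ee m = 1 := by
  unfold ee
  rw [Complex.exp_eq_one_iff]
  refine ⟨m, ?_⟩
  push_cast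
  ring

lemma ee_re (x : ℝ) : (ee x).re = cos (2 * π * x) := by
  unfold ee
  rw [Complex.exp_ofReal_mul_I_re]

lemma ee_im (x : ℝ) : (ee x).im = sin (2 * π * x) := by
  unfold ee
  rw [Complex.exp_ofReal_mul_I_im]

lemma norm_sum_ee_le (s : Finset ℕ) (x : ℕ → ℝ) : ‖∑ i ∈ s, ee (x i)‖ ≤ s.card := by
  refine (norm_sum_le _ _).trans ?_
  simp

/-- changing the sign of the phases -/
lemma norm_sum_ee_neg (s : Finset ℕ) (x : ℕ → ℝ) :
    ‖∑ i ∈ s, ee (-x i)‖ = ‖∑ i ∈ s, ee (x i)‖ := by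
  simp_rw [ee_neg]
  rw [← map_sum, RCLike.norm_conj]

lemma dd_iterate_succ (k : ℕ) (x : ℕ → ℝ) (i : ℕ) :
    dd^[k + 1] x i = dd^[k] x (i + 1) - dd^[k] x i := by
  rw [Function.iterate_succ_apply']
  rfl

lemma dd_iterate_neg (k : ℕ) (x : ℕ → ℝ) (i : ℕ) :
    dd^[k] (fun i => -x i) i = -dd^[k] x i := by
  induction k generalizing i with
  | zero => rfl
  | succ k ih => rw [dd_iterate_succ, dd_iterate_succ, ih, ih]; ring

lemma dd_iterate_sub (k : ℕ) (x y : ℕ → ℝ) (i : ℕ) :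
    dd^[k] (fun i => x i - y i) i = dd^[k] x i - dd^[k] y i := by
  induction k generalizing i with
  | zero => rfl
  | succ k ih => rw [dd_iterate_succ, dd_iterate_succ, dd_iterate_succ, ih, ih]; ring

lemma dd_iterate_shift (k : ℕ) (x : ℕ → ℝ) (j i : ℕ) :
    dd^[k] (fun i => x (i + j)) i = dd^[k] x (i + j) := by
  induction k generalizing i with
  | zero => rfl
  | succ k ih =>
    rw [dd_iterate_succ, dd_iterate_succ, ih, ih, add_right_comm]

/-- the property of the `k`-th difference test with exponent `δ`: a bound `K N ^ (1 - δ)` for the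
sums of length `L ≤ N` of `ee (x i)` if the `k`-th differences of `x` are in `[lam, C lam]`, `lam`
between `c₀ N ^ (-q)` and `C₀ N ^ (-p)`. -/
def VdCd (k : ℕ) (p q δ : ℝ) : Prop :=
  ∀ C c₀ C₀ : ℝ, 0 < c₀ → ∃ K : ℝ, ∀ N : ℝ, 1 ≤ N → ∀ (L : ℕ) (lam : ℝ),
    (L : ℝ) ≤ N → c₀ * N ^ (-q) ≤ lam → lam ≤ C₀ * N ^ (-p) → ∀ x : ℕ → ℝ,
      (∀ i, i + k < L → lam ≤ dd^[k] x i ∧ dd^[k] x i ≤ C * lam) →
      ‖∑ i ∈ range L, ee (x i)‖ ≤ K * N ^ (1 - δ)

/-- the property of the `k`-th difference test for some `δ > 0` -/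
def VdC (k : ℕ) (p q : ℝ) : Prop := ∃ δ : ℝ, 0 < δ ∧ VdCd k p q δ

end MargE
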