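import Pool.Agent.MargE.Defs

/-!
# Differences of smooth functions (PACKAGE EA6)

`F j`, `j = 0, 1, …, k`, is a family with `(F j)' = F (j + 1)`. The `k`-th difference of `i ↦ F 0 (y + i)`
lies between the bounds of `F k`.

Proof of `dd_real`: by induction on `k` (for all families and all `y`). `k = 0`: clear. `k + 1`: by `dd_iterate_succ`
`dd^[k + 1] (fun i => F 0 (y + i)) i` is the `k`-th difference of `i ↦ F 0 (y + i + 1) - F 0 (y + i)`
(`dd_iterate_sub`, `dd_iterate_shift`; or `Function.iterate_succ_apply`: `dd^[k + 1] x = dd^[k] (dd x)`). Apply the induction hypothesis to the family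
`G j z = F j (z + 1) - F j z`, `j ≤ k`, which satisfies `(G j)' = G (j + 1)` for `j < k` on `[y + i, y + i + k]`. By the mean value
theorem `G k z = F k (z + 1) - F k z` is a value of `F (k + 1)` on `[z, z + 1] ⊆ [y + i, y + i + k + 1]`, so it is in `[A, B]`.
-/

set_option autoImplicit false

open Finset Real

namespace MargE

theorem dd_real {F : ℕ → ℝ → ℝ} {k : ℕ} {A B y : ℝ} {i : ℕ}
    (hF : ∀ j, j < k → ∀ z ∈ Set.Icc (y + i) (y + i + k), HasDerivAt (F j) (F (j + 1) z) z)
    (hb : ∀ z ∈ Set.Icc (y + i) (y + i + k), A ≤ F k z ∧ F k z ≤ B) :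
    A ≤ dd^[k] (fun i : ℕ => F 0 (y + i)) i ∧ dd^[k] (fun i : ℕ => F 0 (y + i)) i ≤ B := by
  induction k generalizing F A B with
  | zero =>
    simp only [Function.iterate_zero, id_eq]
    exact hb (y + i) ⟨le_refl _, by simp⟩
  | succ k ih =>
    rw [Function.iterate_succ_apply]
    have h1 : dd (fun i : ℕ => F 0 (y + i)) =
        fun i : ℕ => (fun (j : ℕ) (z : ℝ) => F j (z + 1) - F j z) 0 (y + i) := by
      funext n
      simp only [dd]
      push_cast
      rw [add_assoc]
    rw [h1]
    have hk : ((k + 1 : ℕ) : ℝ) = (k : ℝ) + 1 := by push_cast; ring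
    refine ih (F := fun (j : ℕ) (z : ℝ) => F j (z + 1) - F j z) ?_ ?_
    · intro j hj z hz
      have h2 : HasDerivAt (F j) (F (j + 1) (z + 1)) (z + 1) :=
        hF j (by omega) (z + 1) ⟨by linarith [hz.1], by rw [hk]; linarith [hz.2]⟩
      have h3 : HasDerivAt (F j) (F (j + 1) z) z :=
        hF j (by omega) z ⟨hz.1, by rw [hk]; linarith [hz.2]⟩
      exact (h2.comp_add_const z 1).sub h3
    · intro z hz
      have hd : ∀ w ∈ Set.Icc z (z + 1), HasDerivAt (F k) (F (k + 1) w) w := fun w hw =>
        hF k (by omega) w ⟨by linarith [hz.1, hw.1], by rw [hk]; linarith [hz.2, hw.2]⟩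
      obtain ⟨c, hc, he⟩ := exists_hasDerivAt_eq_slope (F k) (F (k + 1))
        (by linarith : z < z + 1) (fun w hw => (hd w hw).continuousAt.continuousWithinAt)
        (fun w hw => hd w ⟨hw.1.le, hw.2.le⟩)
      have h4 := hb c ⟨by linarith [hz.1, hc.1], by rw [hk]; linarith [hz.2, hc.2]⟩
      have h5 : F (k + 1) c = F k (z + 1) - F k z := by
        rw [he]
        rw [add_sub_cancel_left, div_one]
      rw [h5] at h4
      exact h4

end MargE
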