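import Mathlib

/-!
# Equidistribution of sequences and of curves
-/

open MeasureTheory Filter Topology

namespace MargE

/-- The sequence `y 1, y 2, …` is equidistributed in `X` with respect to `μ`: the averages of every
compactly supported continuous function along it converge to the integral of the function. -/
def EquiSeq {X : Type*} [TopologicalSpace X] [MeasurableSpace X] (μ : Measure X)
    (y : ℕ → X) : Prop :=
  ∀ f : X → ℝ, Continuous f → HasCompactSupport f →
    Tendsto (fun N : ℕ => (∑ n ∈ Finset.Icc 1 N, f (y n)) / (N : ℝ)) atTop (𝓝 (∫ p, f p ∂μ))

/-- `y t`, `t ≥ 0`, is equidistributed in `X` with respect to `μ`: the averages of every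
compactly supported continuous function along it converge to the integral of the function. -/
def EquiReal {X : Type*} [TopologicalSpace X] [MeasurableSpace X] (μ : Measure X)
    (y : ℝ → X) : Prop :=
  ∀ f : X → ℝ, Continuous f → HasCompactSupport f →
    Tendsto (fun T : ℝ => (∫ t in (0 : ℝ)..T, f (y t)) / T) atTop (𝓝 (∫ p, f p ∂μ))

end MargE
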