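import Pool.Agent.MargE.Level

/-!
# Exponential sums with the phases `h n ^ α + ξ log n` (PACKAGE EA10, assembly)

Proof. `B = max α A`, `M = ⌈B⌉₊ + 1`, `δ m`, `m ≤ M`, from `exp_level`, `δ = min 1 (min of the δ m)` (for
instance `(range (M + 1)).inf'`). Given `h ≠ 0`: `K m` from `exp_level`, `K = 1 + ∑ m ≤ M, K m`. `N = 1`: the sum is at most
`L ≤ 1`. Let `N ≥ 2`, `Λ = N ^ α + |ξ|`, `N ^ α ≤ Λ ≤ N ^ α + N ^ A ≤ 2 N ^ B ≤ N ^ (B + 1)`. Let `t = log Λ / log N`, so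
`Λ = N ^ t`, `1 < α ≤ t ≤ B + 1`. Let `m + 2 = ⌊t + 5 / 4⌋₊` (at least `2`), so `m + 2 ≤ t + 5 / 4 < m + 3`, that is
`m + 2 - 5 / 4 ≤ t < m + 2 - 1 / 4`, and `m ≤ t - 3 / 4 ≤ B + 1 / 4`, `m ≤ M`. So the hypotheses of `exp_level` hold and the sum is
at most `K m N ^ (1 - δ m) ≤ K N ^ (1 - δ)`.
-/

set_option autoImplicit false

open Finset Real

namespace MargE

theorem exp_sum {α : ℝ} (hα1 : 1 < α) (hα : ∀ n : ℕ, α ≠ n) (A : ℝ) :
    ∃ δ : ℝ, 0 < δ ∧ δ ≤ 1 ∧ ∀ h : ℝ, h ≠ 0 → ∃ K : ℝ, 0 ≤ K ∧ ∀ N : ℕ, 1 ≤ N → ∀ L : ℕ, L ≤ N →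
      ∀ ξ : ℝ, |ξ| ≤ (N : ℝ) ^ A →
      ‖∑ i ∈ range L, ee (h * ((N + i : ℕ) : ℝ) ^ α + ξ * log ((N + i : ℕ) : ℝ))‖ ≤
        K * (N : ℝ) ^ (1 - δ) := by
  have hlev := exp_level (α := α) hα1 hα
  choose δ hδ hK using hlev
  set B : ℝ := max α A with hB
  set M : ℕ := ⌈B⌉₊ + 1 with hM
  have hne : (range (M + 1)).Nonempty := ⟨0, by simp⟩
  refine ⟨min 1 ((range (M + 1)).inf' hne δ), ?_, min_le_left _ _, ?_⟩
  · rw [lt_min_iff]
    exact ⟨one_pos, (Finset.lt_inf'_iff _).2 fun m _ => hδ m⟩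
  intro h hh
  choose K hK0 hKb using fun m => hK m h hh
  have hKs : 0 ≤ ∑ m ∈ range (M + 1), K m := Finset.sum_nonneg fun m _ => hK0 m
  refine ⟨1 + ∑ m ∈ range (M + 1), K m, by positivity, ?_⟩
  intro N hN L hL ξ hξ
  rcases Nat.lt_or_ge N 2 with hN2 | hN2
  · obtain rfl : N = 1 := by omega
    refine (norm_sum_ee_le _ _).trans ?_
    rw [card_range]
    have hL1 : (L : ℝ) ≤ 1 := by exact_mod_cast hL
    simp only [Nat.cast_one, one_rpow, mul_one]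
    linarith
  have hN1 : (1 : ℝ) < N := by exact_mod_cast hN2
  have hN0 : (0 : ℝ) < N := by linarith
  have hN2' : (2 : ℝ) ≤ N := by exact_mod_cast hN2
  set Λ : ℝ := (N : ℝ) ^ α + |ξ| with hΛ
  have hNα : 0 < (N : ℝ) ^ α := rpow_pos_of_pos hN0 _
  have hΛ1 : (N : ℝ) ^ α ≤ Λ := by rw [hΛ]; linarith [abs_nonneg ξ]
  have hΛ0 : 0 < Λ := lt_of_lt_of_le hNα hΛ1
  have hΛ2 : Λ ≤ (N : ℝ) ^ (B + 1) := by
    have h1 : (N : ℝ) ^ α ≤ (N : ℝ) ^ B := rpow_le_rpow_of_exponent_le hN1.le (le_max_left _ _)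
    have h2 : (N : ℝ) ^ A ≤ (N : ℝ) ^ B := rpow_le_rpow_of_exponent_le hN1.le (le_max_right _ _)
    rw [rpow_add hN0, rpow_one]
    have h3 : 0 < (N : ℝ) ^ B := rpow_pos_of_pos hN0 _
    have h4 : (N : ℝ) ^ B * 2 ≤ (N : ℝ) ^ B * N := by gcongr
    rw [hΛ]
    linarith
  set t : ℝ := log Λ / log N with ht
  have hlog : 0 < log N := log_pos hN1
  have hΛt : (N : ℝ) ^ t = Λ := by
    rw [rpow_def_of_pos hN0, ht, mul_div_cancel₀ _ hlog.ne', exp_log hΛ0]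
  have ht1 : α ≤ t := by
    rw [← rpow_le_rpow_left_iff hN1, hΛt]
    exact hΛ1
  have ht2 : t ≤ B + 1 := by
    rw [← rpow_le_rpow_left_iff hN1, hΛt]
    exact hΛ2
  have ht0 : 0 ≤ t + 5 / 4 := by linarith
  set m' : ℕ := ⌊t + 5 / 4⌋₊ with hm'
  have hm2 : 2 ≤ m' := by
    rw [hm', Nat.le_floor_iff ht0]
    push_cast
    linarith
  obtain ⟨m, hm⟩ : ∃ m, m' = m + 2 := ⟨m' - 2, by omega⟩
  have hf1 : ((m : ℝ) + 2) ≤ t + 5 / 4 := by
    have := Nat.floor_le ht0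
    rw [← hm', hm] at this
    push_cast at this
    exact this
  have hf2 : t + 5 / 4 < (m : ℝ) + 3 := by
    have := Nat.lt_floor_add_one (t + 5 / 4)
    rw [← hm', hm] at this
    push_cast at this
    linarith
  have hmM : m ∈ range (M + 1) := by
    rw [mem_range, hM]
    have h1 : (m : ℝ) < (⌈B⌉₊ : ℝ) + 1 := by
      have := Nat.le_ceil B
      linarith
    have h2 : m < ⌈B⌉₊ + 1 := by exact_mod_cast h1
    omega
  have key := hKb m N hN L hL ξ (by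
    rw [← hΛ, ← hΛt]
    exact rpow_le_rpow_of_exponent_le hN1.le (by linarith)) (by
    rw [← hΛ, ← hΛt]
    exact rpow_le_rpow_of_exponent_le hN1.le (by linarith))
  refine key.trans ?_
  have hKm : K m ≤ 1 + ∑ m ∈ range (M + 1), K m := by
    have := Finset.single_le_sum (f := K) (fun m _ => hK0 m) hmM
    linarith
  have hδm : min 1 ((range (M + 1)).inf' hne δ) ≤ δ m :=
    (min_le_right _ _).trans (Finset.inf'_le _ hmM)
  refine mul_le_mul hKm (rpow_le_rpow_of_exponent_le hN1.le (by linarith))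
    (rpow_nonneg hN0.le _) (by linarith)

end MargE
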