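import Mathlib

/-!
# A partition of unity on the circle (PACKAGE EC2)

`hat J j x = max 0 (1 / J - ‖x - j / J‖)`, `w J j = hat J j / ∑ i < J, hat J i`, `rho J x = max 0 (2 - J ‖x‖)` on `AddCircle (1 : ℝ)`
(the norm is the distance to the nearest integer).

`sum_hat_pos`: every `x` is represented by some `y ∈ [0, 1)`; let `i = round (J y)`, `|y - i / J| ≤ 1 / (2 J)`, `0 ≤ i ≤ J`; if `i < J` then
`‖x - i / J‖ ≤ 1 / (2 J)` (`AddCircle.norm_eq`, the norm of the class of a real number is at most its absolute value), and if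
`i = J` then `‖x - 0 / J‖ = ‖x - J / J‖ ≤ 1 / (2 J)` (the class of `1` is `0`). So some `hat` is at least `1 / (2 J) > 0`.

`rho_int`: `rho J x ≤ 2` and it is zero unless `‖x‖ ≤ 2 / J`; the measure of `{x | ‖x‖ ≤ 2 / J}` is at most `4 / J` (`AddCircle.volume_closedBall`), so the
integral is at most `8 / J`.

`near`: `‖(θ - j / J : ℝ)‖ = |θ - j / J - round (θ - j / J)|` (`AddCircle.norm_eq`, period one), `|θ - j / J| < 1`, so the integer
`m = round (θ - j / J)` is `- 1`, `0` or `1`. `m = 1`: `θ ≥ 1 + j / J - 1 / J ≥ 1 - 1 / J`, so `‖θ‖ ≤ 1 / J`, a contradiction. `m = - 1`: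
`θ ≤ j / J - 1 + 1 / J ≤ 0` (`j + 1 ≤ J`), so `θ = 0`, `‖θ‖ = 0`, a contradiction. `m = 0`: done.
-/

set_option autoImplicit false

open Finset Real MeasureTheory

namespace MargE

/-- tent function -/
noncomputable def hat (J j : ℕ) : C(AddCircle (1 : ℝ), ℝ) where
  toFun x := max 0 (1 / J - ‖x - (((j : ℝ) / J : ℝ) : AddCircle (1 : ℝ))‖)
  continuous_toFun := by fun_prop

/-- the bad part of the circle -/
noncomputable def rho (J : ℕ) : C(AddCircle (1 : ℝ), ℝ) where
  toFun x := max 0 (2 - J * ‖x‖)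
  continuous_toFun := by fun_prop

private theorem part_norm_le (x : ℝ) (n : ℤ) : ‖(x : AddCircle (1 : ℝ))‖ ≤ |x - n| := by
  have h : ‖(x : AddCircle (1 : ℝ))‖ = |x - round x| := UnitAddCircle.norm_eq
  rw [h]
  exact round_le x n

theorem sum_hat_pos {J : ℕ} (hJ : 0 < J) (x : AddCircle (1 : ℝ)) :
    0 < ∑ i ∈ range J, hat J i x := by
  obtain ⟨y, rfl⟩ := QuotientAddGroup.mk_surjective x
  have hJ' : (0 : ℝ) < J := by exact_mod_cast hJ
  have hJz : (0 : ℤ) < J := by exact_mod_cast hJ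
  refine Finset.sum_pos' (fun i _ => le_max_left _ _) ?_
  obtain ⟨k, hk⟩ : ∃ k : ℤ, k = round (J * y) := ⟨_, rfl⟩
  have h1 := abs_sub_round ((J : ℝ) * y)
  rw [← hk] at h1
  have h2 := Int.emod_nonneg k hJz.ne'
  have h3 := Int.emod_lt_of_pos k hJz
  have h4 := Int.emod_add_mul_ediv k J
  refine ⟨(k % J).toNat, ?_, ?_⟩
  · rw [Finset.mem_range]
    omega
  · refine lt_of_lt_of_le ?_ (le_max_right _ _)
    have h5 : (((k % J).toNat : ℕ) : ℝ) = ((k % J : ℤ) : ℝ) := by
      have : (((k % J).toNat : ℕ) : ℤ) = k % J := Int.toNat_of_nonneg h2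
      exact_mod_cast congrArg (fun z : ℤ => (z : ℝ)) this
    rw [h5]
    have h6 : ‖((y : ℝ) : AddCircle (1 : ℝ)) - ((((k % J : ℤ) : ℝ) / J : ℝ) : AddCircle (1 : ℝ))‖
        ≤ 1 / 2 / J := by
      rw [← AddCircle.coe_sub]
      refine (part_norm_le _ (k / J)).trans ?_
      have h7 : y - ((k % J : ℤ) : ℝ) / J - ((k / J : ℤ) : ℝ) = (J * y - k) / J := by
        have h8 : (k : ℝ) = ((k % J : ℤ) : ℝ) + J * ((k / J : ℤ) : ℝ) := by
          exact_mod_cast h4.symm
        rw [h8]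
        field_simp
        ring
      rw [h7, abs_div, abs_of_pos hJ']
      exact div_le_div_of_nonneg_right h1 hJ'.le
    have h9 : (1 : ℝ) / 2 / J < 1 / J := div_lt_div_of_pos_right (by norm_num) hJ'
    have h10 : ‖(QuotientAddGroup.mk y : AddCircle (1 : ℝ)) -
        ((((k % J : ℤ) : ℝ) / J : ℝ) : AddCircle (1 : ℝ))‖ ≤ 1 / 2 / J := h6
    linarith

/-- partition of unity -/
theorem exists_part {J : ℕ} (hJ : 0 < J) : ∃ w : ℕ → C(AddCircle (1 : ℝ), ℝ),
    (∀ j x, 0 ≤ w j x) ∧ (∀ x, ∑ j ∈ range J, w j x = 1) ∧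
    ∀ j x, w j x ≠ 0 → ‖x - (((j : ℝ) / J : ℝ) : AddCircle (1 : ℝ))‖ ≤ 1 / J := by
  have hpos := sum_hat_pos hJ
  refine ⟨fun j => ⟨fun x => hat J j x / ∑ i ∈ range J, hat J i x, ?_⟩, ?_, ?_, ?_⟩
  · exact (hat J j).continuous.div (continuous_finsetSum _ fun i _ => (hat J i).continuous)
      fun x => (hpos x).ne'
  · intro j x
    exact div_nonneg (le_max_left _ _) (hpos x).le
  · intro x
    change ∑ j ∈ range J, (hat J j x / ∑ i ∈ range J, hat J i x) = 1
    rw [← Finset.sum_div, div_self (hpos x).ne']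
  · intro j x h
    have h1 : hat J j x ≠ 0 := by
      intro h0
      apply h
      change hat J j x / ∑ i ∈ range J, hat J i x = 0
      rw [h0, zero_div]
    by_contra h2
    apply h1
    change max 0 (1 / (J : ℝ) - ‖x - (((j : ℝ) / J : ℝ) : AddCircle (1 : ℝ))‖) = 0
    exact max_eq_left (by linarith)

theorem rho_nonneg (J : ℕ) (x : AddCircle (1 : ℝ)) : 0 ≤ rho J x := le_max_left _ _

theorem one_le_rho {J : ℕ} {x : AddCircle (1 : ℝ)} (hx : ‖x‖ ≤ 1 / J) : 1 ≤ rho J x := by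
  refine le_trans ?_ (le_max_right _ _)
  have h1 : (J : ℝ) * ‖x‖ ≤ 1 := by
    rcases Nat.eq_zero_or_pos J with h | h
    · subst h
      simp
    · have hJ' : (0 : ℝ) < J := by exact_mod_cast h
      rw [le_div_iff₀ hJ'] at hx
      linarith
  linarith

theorem rho_int {J : ℕ} (hJ : 0 < J) : ∫ x : AddCircle (1 : ℝ), rho J x ≤ 8 / J := by
  have hJ' : (0 : ℝ) < J := by exact_mod_cast hJ
  have h1 : ∫ x : AddCircle (1 : ℝ), rho J x ≤
      ∫ x : AddCircle (1 : ℝ), (Metric.closedBall (0 : AddCircle (1 : ℝ)) (2 / J)).indicator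
        (fun _ => (2 : ℝ)) x := by
    refine integral_mono_of_nonneg (Filter.Eventually.of_forall fun x => rho_nonneg J x)
      ((integrable_const (2 : ℝ)).indicator Metric.isClosed_closedBall.measurableSet)
      (Filter.Eventually.of_forall fun x => ?_)
    change max 0 (2 - (J : ℝ) * ‖x‖) ≤ _
    by_cases hx : x ∈ Metric.closedBall (0 : AddCircle (1 : ℝ)) (2 / J)
    · rw [Set.indicator_of_mem hx]
      refine max_le (by norm_num) ?_
      have := mul_nonneg hJ'.le (norm_nonneg x)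
      linarith
    · rw [Set.indicator_of_notMem hx]
      refine max_le le_rfl ?_
      rw [mem_closedBall_zero_iff, not_le, div_lt_iff₀ hJ'] at hx
      linarith
  refine h1.trans ?_
  rw [integral_indicator_const _ Metric.isClosed_closedBall.measurableSet, smul_eq_mul,
    Measure.real, AddCircle.volume_closedBall, ENNReal.toReal_ofReal]
  · have h2 : min (1 : ℝ) (2 * (2 / J)) ≤ 2 * (2 / J) := min_le_right _ _
    have h3 : (8 : ℝ) / J = 2 * (2 / J) * 2 := by ring
    rw [h3]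
    linarith
  · positivity

theorem near {J j : ℕ} (hj : j < J) {θ : ℝ} (h0 : 0 ≤ θ) (h1 : θ < 1)
    (h2 : 1 / (J : ℝ) < ‖(θ : AddCircle (1 : ℝ))‖)
    (h3 : ‖(θ : AddCircle (1 : ℝ)) - (((j : ℝ) / J : ℝ) : AddCircle (1 : ℝ))‖ ≤ 1 / J) :
    |θ - j / J| ≤ 1 / J := by
  have hJ : 0 < J := by omega
  have hJ' : (0 : ℝ) < J := by exact_mod_cast hJ
  have hj1 : (j : ℝ) + 1 ≤ J := by exact_mod_cast hj
  have hj0 : (0 : ℝ) ≤ (j : ℝ) / J := by positivity
  have hj2 : (j : ℝ) / J + 1 / J ≤ 1 := by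
    rw [← add_div, div_le_one hJ']
    exact hj1
  rw [← AddCircle.coe_sub] at h3
  have h4 : ‖((θ - (j : ℝ) / J : ℝ) : AddCircle (1 : ℝ))‖ =
      |(θ - (j : ℝ) / J) - round (θ - (j : ℝ) / J)| := UnitAddCircle.norm_eq
  rw [h4] at h3
  obtain ⟨m, hm⟩ : ∃ m : ℤ, m = round (θ - (j : ℝ) / J) := ⟨_, rfl⟩
  rw [← hm] at h3
  have h5 := abs_le.1 h3
  rcases lt_trichotomy m 0 with h | h | h
  · exfalso
    have h6 : (m : ℝ) ≤ -1 := by exact_mod_cast (by omega : m ≤ -1)
    have h7 : θ = 0 := by linarith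
    have h8 := part_norm_le θ 0
    rw [h7] at h8 h2
    have h9 : (0 : ℝ) < 1 / J := by positivity
    simp only [Int.cast_zero, sub_zero, abs_zero] at h8
    linarith
  · rw [h, Int.cast_zero, sub_zero] at h3
    exact h3
  · exfalso
    have h6 : (1 : ℝ) ≤ m := by exact_mod_cast (by omega : 1 ≤ m)
    have h8 := part_norm_le θ 1
    rw [Int.cast_one, abs_sub_comm, abs_of_pos (by linarith)] at h8
    linarith

end MargE
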