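import Pool.Agent.MargE.Trig
import Pool.Agent.MargE.Part

/-!
# The floor (PACKAGE EC3)

`t : ℕ → ℝ` nonnegative, `θ k = t k - ⌊t k⌋₊ ∈ [0, 1)`; on the circle the class of `θ k` is the class of `t k`. Write `A n a = (∑ k < n, a k) / n`.

(1) For every rational `c` and `ψ : C(AddCircle 1, ℝ)`: `A n (ψ (t k) * z (s * t k - c)) → L * ∫ ψ` (`trig_density` with `a k = z (s * t k - c)`,
`θ = t`), and `A n (ψ (t k)) → ∫ ψ` (`a k = 1`, `L = 1`).

(2) Let `J ≥ 1`, `w` from `exists_part`, and for `j < J` a rational `q j` with `|q j - s * j / J| ≤ 1 / J`. Let `η = ω ((s + 1) / J)`, a number such that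
`|z x - z y| ≤ η` for `|x - y| ≤ (s + 1) / J`. For every `k`:
`|z (s * ⌊t k⌋₊) - ∑ j < J, w j (t k) * z (s * t k - q j)| ≤ η + 2 C * rho J (t k)`.
Indeed the left side is at most `∑ j < J, w j (t k) * |z (s * ⌊t k⌋₊) - z (s * t k - q j)|` (`∑ w j = 1`). If `‖t k‖ ≤ 1 / J` (on the circle) this is at
most `2 C ≤ 2 C rho J (t k)` (`one_le_rho`). Otherwise for every `j` with `w j (t k) ≠ 0` : `|θ k - j / J| ≤ 1 / J` (`near`), and
`s * ⌊t k⌋₊ - (s * t k - q j) = q j - s * θ k`, of absolute value at most `|q j - s j / J| + s |j / J - θ k| ≤ (1 + s) / J`, so the difference is at most `η`.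

(3) Averaging: `|A n (z (s * ⌊t k⌋₊)) - ∑ j < J, A n (w j (t k) * z (s * t k - q j))| ≤ η + 2 C A n (rho J (t k))` for `n ≥ 1`. By (1) the sum over `j` tends to
`∑ j < J, L * ∫ w j = L * ∫ 1 = L` and `A n (rho J (t k))` tends to `∫ rho J ≤ 8 / J`. So for all large `n`
`|A n (z (s * ⌊t k⌋₊)) - L| ≤ η + 2 C * (8 / J) + η'` for every `η' > 0`. Given `ε > 0` choose `J` so large that `η ≤ ε / 4` (uniform continuity `hu`) and
`16 C / J ≤ ε / 4`.
-/

set_option autoImplicit false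

open Finset Real MeasureTheory Filter Topology

namespace MargE

private theorem integral_part {J : ℕ} {w : ℕ → C(AddCircle (1 : ℝ), ℝ)}
    (hw : ∀ x, ∑ j ∈ range J, w j x = 1) : ∑ j ∈ range J, ∫ x : AddCircle (1 : ℝ), w j x = 1 := by
  rw [← integral_finsetSum]
  · simp only [hw]
    have h1 : (volume : Measure (AddCircle (1 : ℝ))).real Set.univ = 1 := by
      rw [Measure.real, AddCircle.measure_univ]
      simp
    rw [integral_const, h1, smul_eq_mul, mul_one]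
  · intro j _
    exact (w j).continuous.integrable_of_hasCompactSupport (HasCompactSupport.of_compactSpace _)

private theorem coe_sub_floor (y : ℝ) :
    (((y - (⌊y⌋₊ : ℝ) : ℝ)) : AddCircle (1 : ℝ)) = (y : AddCircle (1 : ℝ)) := by
  rw [AddCircle.coe_sub]
  have h1 : (((⌊y⌋₊ : ℝ)) : AddCircle (1 : ℝ)) = 0 := by
    have h2 : ((⌊y⌋₊ : ℝ)) = (⌊y⌋₊ : ℕ) • (1 : ℝ) := by simp
    rw [h2, AddCircle.coe_nsmul, AddCircle.coe_period, smul_zero]
  rw [h1, sub_zero]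

/-- The estimate at one point. -/
private theorem floor_point {z : ℝ → ℝ} {C : ℝ} (hC : ∀ t, |z t| ≤ C) {ε δ : ℝ} (hε : 0 ≤ ε)
    (hu : ∀ t t' : ℝ, |t - t'| ≤ δ → |z t - z t'| ≤ ε) {s : ℝ} (hs : 0 < s) {J : ℕ}
    (hJδ : (s + 1) / J ≤ δ) {w : ℕ → C(AddCircle (1 : ℝ), ℝ)} (hw0 : ∀ j x, 0 ≤ w j x)
    (hw1 : ∀ x, ∑ j ∈ range J, w j x = 1)
    (hw2 : ∀ j x, w j x ≠ 0 → ‖x - (((j : ℝ) / J : ℝ) : AddCircle (1 : ℝ))‖ ≤ 1 / J)
    {q : ℕ → ℚ} (hq : ∀ j, |(q j : ℝ) - s * j / J| ≤ 1 / J) {y : ℝ} (hy : 0 ≤ y) :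
    |z (s * (⌊y⌋₊ : ℝ)) - ∑ j ∈ range J, w j y * z (s * y - q j)| ≤ ε + 2 * C * rho J y := by
  have hC0 : 0 ≤ C := (abs_nonneg _).trans (hC 0)
  have hr := rho_nonneg J (y : AddCircle (1 : ℝ))
  have e1 : z (s * (⌊y⌋₊ : ℝ)) - ∑ j ∈ range J, w j y * z (s * y - q j) =
      ∑ j ∈ range J, w j y * (z (s * (⌊y⌋₊ : ℝ)) - z (s * y - q j)) := by
    simp only [mul_sub]
    rw [Finset.sum_sub_distrib, ← Finset.sum_mul, hw1, one_mul]
  rw [e1]
  refine (Finset.abs_sum_le_sum_abs _ _).trans ?_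
  have e2 : ε + 2 * C * rho J y = ∑ j ∈ range J, w j y * (ε + 2 * C * rho J y) := by
    rw [← Finset.sum_mul, hw1, one_mul]
  rw [e2]
  refine Finset.sum_le_sum fun j hj => ?_
  rw [abs_mul, abs_of_nonneg (hw0 j _)]
  by_cases h0 : w j y = 0
  · rw [h0, zero_mul, zero_mul]
  refine mul_le_mul_of_nonneg_left ?_ (hw0 j _)
  by_cases h1 : ‖(y : AddCircle (1 : ℝ))‖ ≤ 1 / J
  · have h2 := one_le_rho h1
    calc |z (s * (⌊y⌋₊ : ℝ)) - z (s * y - q j)| ≤ |z (s * (⌊y⌋₊ : ℝ))| + |z (s * y - q j)| :=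
          abs_sub _ _
      _ ≤ C + C := add_le_add (hC _) (hC _)
      _ = 2 * C * 1 := by ring
      _ ≤ 2 * C * rho J y := by gcongr
      _ ≤ ε + 2 * C * rho J y := by linarith
  · rw [not_le] at h1
    have h2 := near (mem_range.1 hj) (θ := y - ⌊y⌋₊) (sub_nonneg.2 (Nat.floor_le hy))
      (by linarith [Nat.lt_floor_add_one y]) (by rw [coe_sub_floor]; exact h1)
      (by rw [coe_sub_floor]; exact hw2 j _ h0)
    have h3 : |s * (⌊y⌋₊ : ℝ) - (s * y - q j)| ≤ δ := by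
      have e3 : s * (⌊y⌋₊ : ℝ) - (s * y - q j) =
          ((q j : ℝ) - s * j / J) - s * ((y - ⌊y⌋₊) - j / J) := by ring
      rw [e3]
      calc |((q j : ℝ) - s * j / J) - s * ((y - ⌊y⌋₊) - j / J)|
          ≤ |(q j : ℝ) - s * j / J| + |s * ((y - ⌊y⌋₊) - j / J)| := abs_sub _ _
        _ ≤ 1 / J + s * (1 / J) := by
          rw [abs_mul, abs_of_pos hs]
          gcongr
          exact hq j
        _ = (s + 1) / J := by ring
        _ ≤ δ := hJδ
    have h4 := hu _ _ h3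
    have h5 : 0 ≤ 2 * C * rho J y := by positivity
    linarith

theorem floor_avg {z : ℝ → ℝ} {C : ℝ} (hC : ∀ t, |z t| ≤ C)
    (hu : ∀ ε : ℝ, 0 < ε → ∃ δ : ℝ, 0 < δ ∧ ∀ t t' : ℝ, |t - t'| ≤ δ → |z t - z t'| ≤ ε)
    {L s : ℝ} (hs : 0 < s) {t : ℕ → ℝ} (ht : ∀ k, 0 ≤ t k)
    (h1 : ∀ c : ℚ, Tendsto (fun n : ℕ => (∑ k ∈ range n, z (s * t k - c)) / (n : ℝ))
      atTop (𝓝 L))
    (h2 : ∀ (c : ℚ) (h : ℤ), h ≠ 0 → Tendsto (fun n : ℕ =>
      (∑ k ∈ range n, cos (2 * π * (h * t k)) * z (s * t k - c)) / (n : ℝ)) atTop (𝓝 0))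
    (h3 : ∀ (c : ℚ) (h : ℤ), h ≠ 0 → Tendsto (fun n : ℕ =>
      (∑ k ∈ range n, sin (2 * π * (h * t k)) * z (s * t k - c)) / (n : ℝ)) atTop (𝓝 0))
    (h4 : ∀ h : ℤ, h ≠ 0 → Tendsto (fun n : ℕ =>
      (∑ k ∈ range n, cos (2 * π * (h * t k))) / (n : ℝ)) atTop (𝓝 0))
    (h5 : ∀ h : ℤ, h ≠ 0 → Tendsto (fun n : ℕ =>
      (∑ k ∈ range n, sin (2 * π * (h * t k))) / (n : ℝ)) atTop (𝓝 0)) :
    Tendsto (fun n : ℕ => (∑ k ∈ range n, z (s * (⌊t k⌋₊ : ℝ))) / (n : ℝ)) atTop (𝓝 L) := by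
  have hC0 : 0 ≤ C := (abs_nonneg _).trans (hC 0)
  have c1 : ∀ (c : ℚ) (ψ : C(AddCircle (1 : ℝ), ℝ)), Tendsto (fun n : ℕ =>
      (∑ k ∈ range n, ψ (t k) * z (s * t k - c)) / (n : ℝ)) atTop
        (𝓝 (L * ∫ x : AddCircle (1 : ℝ), ψ x)) := fun c ψ =>
    trig_density (θ := t) (a := fun k => z (s * t k - c)) (fun _ => hC _) (h1 c) (h2 c) (h3 c) ψ
  have c2 : ∀ ψ : C(AddCircle (1 : ℝ), ℝ), Tendsto (fun n : ℕ =>
      (∑ k ∈ range n, ψ (t k)) / (n : ℝ)) atTop (𝓝 (∫ x : AddCircle (1 : ℝ), ψ x)) := by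
    intro ψ
    have k1 := trig_density (θ := t) (a := fun _ => 1) (C := 1) (L := 1) (fun _ => by simp)
      (by
        refine Tendsto.congr' ?_ tendsto_const_nhds
        filter_upwards [eventually_gt_atTop 0] with n hn
        have hn' : (n : ℝ) ≠ 0 := by exact_mod_cast hn.ne'
        rw [sum_const, card_range, nsmul_eq_mul, mul_one, div_self hn'])
      (by simpa only [mul_one] using h4) (by simpa only [mul_one] using h5) ψ
    simpa only [mul_one, one_mul] using k1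
  rw [Metric.tendsto_atTop']
  intro ε hε
  obtain ⟨δ, hδ, hδu⟩ := hu (ε / 4) (by positivity)
  obtain ⟨J, hJ⟩ := exists_nat_gt (max ((s + 1) / δ) (64 * C / ε))
  have hJ1 : (s + 1) / δ < J := (le_max_left _ _).trans_lt hJ
  have hJ2 : 64 * C / ε < J := (le_max_right _ _).trans_lt hJ
  have hJ0 : (0 : ℝ) < J := lt_trans (by positivity) hJ1
  have hJn : 0 < J := by exact_mod_cast hJ0
  have hJδ : (s + 1) / J ≤ δ := by
    rw [div_le_iff₀ hJ0]
    rw [div_lt_iff₀ hδ] at hJ1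
    linarith
  have hJε : 2 * C * (8 / J) ≤ ε / 4 := by
    have e : 2 * C * (8 / J) = 16 * C / J := by ring
    rw [e, div_le_iff₀ hJ0]
    rw [div_lt_iff₀ hε] at hJ2
    linarith
  obtain ⟨w, hw0, hw1, hw2⟩ := exists_part hJn
  have hq : ∀ j : ℕ, ∃ q : ℚ, |(q : ℝ) - s * j / J| ≤ 1 / J := by
    intro j
    obtain ⟨q, hq1, hq2⟩ := exists_rat_btwn (show s * j / J < s * j / J + 1 / J by
      have : 0 < 1 / (J : ℝ) := by positivity
      linarith)
    refine ⟨q, ?_⟩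
    rw [abs_of_pos (by linarith)]
    linarith
  choose q hq using hq
  -- the limits
  have l1 : Tendsto (fun n : ℕ => ∑ j ∈ range J,
      (∑ k ∈ range n, w j (t k) * z (s * t k - q j)) / (n : ℝ)) atTop (𝓝 L) := by
    have k1 := tendsto_finsetSum (range J) fun j _ => c1 (q j) (w j)
    rw [← Finset.mul_sum, integral_part hw1, mul_one] at k1
    exact k1
  have l2 := c2 (rho J)
  have e1 := (Metric.tendsto_nhds.1 l1) (ε / 4) (by positivity)
  have e2 := (Metric.tendsto_nhds.1 l2) (ε / (16 * (C + 1))) (by positivity)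
  have e3 : ∀ᶠ n : ℕ in atTop, 0 < n := eventually_gt_atTop 0
  obtain ⟨n₀, hn₀⟩ := eventually_atTop.1 (e1.and (e2.and e3))
  refine ⟨n₀, fun n hn => ?_⟩
  obtain ⟨k1, k2, k3⟩ := hn₀ n hn.le
  rw [Real.dist_eq] at k1 k2 ⊢
  have hn' : (0 : ℝ) < n := by exact_mod_cast k3
  have k4 : |(∑ k ∈ range n, z (s * (⌊t k⌋₊ : ℝ))) / (n : ℝ) - ∑ j ∈ range J,
      (∑ k ∈ range n, w j (t k) * z (s * t k - q j)) / (n : ℝ)| ≤
      ε / 4 + 2 * C * ((∑ k ∈ range n, rho J (t k)) / (n : ℝ)) := by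
    have f1 : (∑ k ∈ range n, z (s * (⌊t k⌋₊ : ℝ))) / (n : ℝ) - ∑ j ∈ range J,
        (∑ k ∈ range n, w j (t k) * z (s * t k - q j)) / (n : ℝ) =
        (∑ k ∈ range n, (z (s * (⌊t k⌋₊ : ℝ)) -
          ∑ j ∈ range J, w j (t k) * z (s * t k - q j))) / (n : ℝ) := by
      rw [← Finset.sum_div, Finset.sum_comm, ← sub_div, ← Finset.sum_sub_distrib]
    have f2 : ε / 4 + 2 * C * ((∑ k ∈ range n, rho J (t k)) / (n : ℝ)) =
        (∑ k ∈ range n, (ε / 4 + 2 * C * rho J (t k))) / (n : ℝ) := by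
      rw [Finset.sum_add_distrib, Finset.sum_const, card_range, nsmul_eq_mul, ← Finset.mul_sum]
      field_simp
    rw [f1, f2, abs_div, abs_of_pos hn']
    refine div_le_div_of_nonneg_right ((Finset.abs_sum_le_sum_abs _ _).trans
      (Finset.sum_le_sum fun k _ => ?_)) hn'.le
    exact floor_point hC (by positivity) hδu hs hJδ hw0 hw1 hw2 hq (ht k)
  have k5 : 2 * C * ((∑ k ∈ range n, rho J (t k)) / (n : ℝ)) ≤ ε / 4 + ε / 8 := by
    have f1 := (abs_lt.1 k2).2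
    have f2 := rho_int hJn
    have f3 : (∑ k ∈ range n, rho J (t k)) / (n : ℝ) ≤ 8 / J + ε / (16 * (C + 1)) := by linarith
    calc 2 * C * ((∑ k ∈ range n, rho J (t k)) / (n : ℝ))
        ≤ 2 * C * (8 / J + ε / (16 * (C + 1))) := by gcongr
      _ = 2 * C * (8 / J) + 2 * C * (ε / (16 * (C + 1))) := by ring
      _ ≤ ε / 4 + ε / 8 := by
        refine add_le_add hJε ?_
        have f4 : 2 * C * (ε / (16 * (C + 1))) = (ε / 8) * (C / (C + 1)) := by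
          field_simp
          ring
        rw [f4]
        refine mul_le_of_le_one_right (by positivity) ?_
        rw [div_le_one (by positivity)]
        linarith
  have k6 := abs_le.1 k4
  have k7 := abs_lt.1 k1
  rw [abs_lt]
  constructor <;> linarith [k6.1, k6.2, k7.1, k7.2]

end MargE
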