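import Pool.Agent.MargE.Null
import Pool.Agent.MargS.Flow

/-!
# Hausdorff dimension of the exceptional set, functions on the line with weights (PACKAGE EB8)

Proof. Copy the proof of `MargS.dim_speed_flow` (`Pool/Agent/MargS/Flow.lean`) with the weights `ω k` in the sums, `L = 0`,
`dim_weights` instead of `MargS.dim_speed` (no mean value is needed, `hL` disappears), and
`|ω k * (z (s k ^ β) - av z (J + 1) ⌊(J + 1) s k ^ β⌋₊)| ≤ |z (s k ^ β) - av ...| ≤ ε / 2`.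
-/

set_option autoImplicit false

open Finset Real MeasureTheory Filter Topology Marg
open scoped ENNReal NNReal

namespace MargE

theorem dim_weights_flow {ω : ℕ → ℝ} (hω : ∀ n, |ω n| ≤ 1) {β : ℝ} (hβ : 1 ≤ β) {b : ℕ}
    (hb : β ≤ b) {δ : ℝ} (h0 : 0 < δ) (h1 : δ ≤ 1) (h : Wt ω β δ) {z : ℝ → ℝ} (hz : Continuous z)
    {C : ℝ} (hC : ∀ t, |z t| ≤ C)
    (hu : ∀ ε : ℝ, 0 < ε → ∃ δ : ℝ, 0 < δ ∧ ∀ t t' : ℝ, |t - t'| ≤ δ → |z t - z t'| ≤ ε) :
    dimH {s : ℝ | 0 < s ∧ ¬ Tendsto (fun n : ℕ =>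
      (∑ k ∈ range n, ω k * z (s * (k : ℝ) ^ β)) / (n : ℝ)) atTop (𝓝 0)} ≤ swN b h1 := by
  set S : ℕ → Set ℝ := fun J => {s : ℝ | 0 < s ∧
    ¬ Tendsto (fun n : ℕ =>
      (∑ k ∈ range n, ω k * MargS.av z (J + 1) ⌊s * (k : ℝ) ^ β⌋₊) / (n : ℝ))
      atTop (𝓝 0)} with hS
  have hdS : ∀ J, dimH (S J) ≤ swN b h1 := by
    intro J
    exact dim_weights hω hβ hb h0 h1 h (z := MargS.av z (J + 1))
      (fun n => MargS.av_bdd hC (Nat.succ_pos J) n)
  have himg : ∀ J : ℕ, dimH ((fun s : ℝ => s / ((J + 1 : ℕ) : ℝ)) '' S J) ≤ dimH (S J) := by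
    intro J
    apply ContDiffOn.dimH_image_le (s := Set.univ) (f := fun s : ℝ => s / ((J + 1 : ℕ) : ℝ)) _
      convex_univ (Set.subset_univ _)
    exact (contDiff_id.div_const _).contDiffOn
  have hsub : {s : ℝ | 0 < s ∧
      ¬ Tendsto (fun n : ℕ => (∑ k ∈ range n, ω k * z (s * (k : ℝ) ^ β)) / (n : ℝ)) atTop (𝓝 0)}
      ⊆ ⋃ J : ℕ, (fun s : ℝ => s / ((J + 1 : ℕ) : ℝ)) '' S J := by
    rintro s ⟨hs, h3⟩
    rw [Set.mem_iUnion]
    by_contra hcon
    push Not at hcon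
    have hT : ∀ J : ℕ, Tendsto (fun n : ℕ =>
        (∑ k ∈ range n, ω k * MargS.av z (J + 1) ⌊(((J + 1 : ℕ) : ℝ) * s) * (k : ℝ) ^ β⌋₊) /
          (n : ℝ)) atTop (𝓝 0) := by
      intro J
      by_contra h4
      have hJ' : (0 : ℝ) < ((J + 1 : ℕ) : ℝ) := by positivity
      exact hcon J ⟨((J + 1 : ℕ) : ℝ) * s, ⟨by positivity, h4⟩, by
        simp only
        field_simp⟩
    apply h3
    rw [Metric.tendsto_atTop]
    intro ε hε
    obtain ⟨δ', hδ, hδ'⟩ := hu (ε / 2) (by positivity)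
    obtain ⟨J, hJ⟩ := exists_nat_one_div_lt hδ
    obtain ⟨N0, hN0⟩ := Metric.tendsto_atTop.1 (hT J) (ε / 2) (by positivity)
    refine ⟨max N0 1, fun n hn => ?_⟩
    have hn0 : N0 ≤ n := (le_max_left _ _).trans hn
    have hn1 : 1 ≤ n := (le_max_right _ _).trans hn
    have hnr : (0 : ℝ) < n := by exact_mod_cast hn1
    have h5 := hN0 n hn0
    rw [Real.dist_eq] at h5 ⊢
    have h6 : |(∑ k ∈ range n, ω k * z (s * (k : ℝ) ^ β)) / (n : ℝ) -
        (∑ k ∈ range n, ω k * MargS.av z (J + 1) ⌊(((J + 1 : ℕ) : ℝ) * s) * (k : ℝ) ^ β⌋₊) /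
          (n : ℝ)| ≤ ε / 2 := by
      rw [← sub_div, ← Finset.sum_sub_distrib, abs_div, abs_of_pos hnr, div_le_iff₀ hnr]
      calc |∑ k ∈ range n, (ω k * z (s * (k : ℝ) ^ β) -
            ω k * MargS.av z (J + 1) ⌊(((J + 1 : ℕ) : ℝ) * s) * (k : ℝ) ^ β⌋₊)|
          ≤ ∑ k ∈ range n, |ω k * z (s * (k : ℝ) ^ β) -
            ω k * MargS.av z (J + 1) ⌊(((J + 1 : ℕ) : ℝ) * s) * (k : ℝ) ^ β⌋₊| :=
            Finset.abs_sum_le_sum_abs _ _
        _ ≤ ∑ _k ∈ range n, ε / 2 := by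
            refine Finset.sum_le_sum fun k _ => ?_
            rw [← mul_sub, abs_mul]
            have h7 : |z (s * (k : ℝ) ^ β) -
                MargS.av z (J + 1) ⌊(((J + 1 : ℕ) : ℝ) * s) * (k : ℝ) ^ β⌋₊| ≤ ε / 2 := by
              rw [abs_sub_comm, mul_assoc]
              refine MargS.av_close hz (Nat.succ_pos J)
                (fun t t' ht => hδ' t t' (ht.trans ?_)) (by positivity)
              push_cast
              exact hJ.le
            have h8 := mul_le_mul (hω k) h7 (abs_nonneg _) zero_le_one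
            linarith
        _ = ε / 2 * n := by rw [Finset.sum_const, card_range, nsmul_eq_mul]; ring
    rw [abs_lt] at h5 ⊢
    rw [abs_le] at h6
    constructor <;> linarith [h5.1, h5.2, h6.1, h6.2]
  refine (dimH_mono hsub).trans ?_
  rw [dimH_iUnion]
  exact iSup_le fun J => (himg J).trans (hdS J)

end MargE
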