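import Pool.Agent.MargS.Step

/-!
# Decay of the Fourier transform of the step function (PACKAGE EB3)

`f = MargS.ft z v0 v1` is `v ↦ z ⌊exp v⌋₊` on `[v0, v1]` and zero outside.

Proof. For `v ∈ [v0, v1]`: `⌊exp v⌋₊ ≤ K`, as `exp v ≤ exp v1 ≤ K`. So `f = ∑ n ≤ K, z n * 1_(I n)`,
`I n = {v ∈ [v0, v1] | ⌊exp v⌋₊ = n}`, a bounded measurable set which is `OrdConnected` (`exp` and the floor are monotone).

For a bounded `OrdConnected` set `I`: `‖∫ v in I, exp (- 2 π i v ξ)‖ ≤ 1 / (π |ξ|) ≤ 1 / |ξ|`: if `I` is empty it is zero, otherwise let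
`a = sInf I`, `b = sSup I`; `Ioo a b ⊆ I ⊆ Icc a b`, so the integral over `I` is the one over `Icc a b` (or `Ioc a b`; the sets differ by null sets), that is
`∫ v in a..b, exp (- 2 π i v ξ) = (exp (- 2 π i b ξ) - exp (- 2 π i a ξ)) / (- 2 π i ξ)` (`integral_exp_mul_complex`), of norm at
most `2 / (2 π |ξ|)`.

So `‖𝓕 f ξ‖ ≤ ∑ n ≤ K, |z n| / |ξ| ≤ (K + 1) / |ξ|`.
-/

set_option autoImplicit false

open MeasureTheory Finset
open scoped FourierTransform

namespace MargE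

private theorem ord_int {I : Set ℝ} (hI : I.OrdConnected) {v0 v1 : ℝ} (hsub : I ⊆ Set.Icc v0 v1)
    {ξ : ℝ} (hξ : ξ ≠ 0) :
    ‖∫ v in I, Complex.exp (((-2 * Real.pi * v * ξ : ℝ) : ℂ) * Complex.I)‖ ≤ 1 / |ξ| := by
  have hξ' : 0 < |ξ| := abs_pos.2 hξ
  rcases I.eq_empty_or_nonempty with h | hne
  · subst h
    simp
  have hbb : BddBelow I := ⟨v0, fun x hx => (hsub hx).1⟩
  have hba : BddAbove I := ⟨v1, fun x hx => (hsub hx).2⟩
  have hab : sInf I ≤ sSup I := csInf_le_csSup hne hbb hba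
  have h1 : Set.Ioo (sInf I) (sSup I) ⊆ I := IsConnected.Ioo_csInf_csSup_subset ⟨hne, hI.isPreconnected⟩ hbb hba
  have h2 : I ⊆ Set.Icc (sInf I) (sSup I) := subset_Icc_csInf_csSup hbb hba
  have h3 : I =ᵐ[volume] Set.Ioc (sInf I) (sSup I) := by
    have hA : I ≤ᵐ[volume] Set.Icc (sInf I) (sSup I) := Filter.Eventually.of_forall h2
    have hB : Set.Ioo (sInf I) (sSup I) ≤ᵐ[volume] I := Filter.Eventually.of_forall h1
    have hC : Set.Icc (sInf I) (sSup I) ≤ᵐ[volume] Set.Ioc (sInf I) (sSup I) :=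
      Ioc_ae_eq_Icc.symm.le
    have hD : Set.Ioc (sInf I) (sSup I) ≤ᵐ[volume] Set.Ioo (sInf I) (sSup I) :=
      Ioo_ae_eq_Ioc.symm.le
    exact Filter.EventuallyLE.antisymm (Filter.EventuallyLE.trans hA hC)
      (Filter.EventuallyLE.trans hD hB)
  rw [setIntegral_congr_set h3, ← intervalIntegral.integral_of_le hab]
  have hc : ((-2 * Real.pi * ξ : ℝ) : ℂ) * Complex.I ≠ 0 := by
    refine mul_ne_zero ?_ Complex.I_ne_zero
    have : (-2 * Real.pi * ξ : ℝ) ≠ 0 := by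
      have := Real.pi_pos.ne'
      simp [hξ]
    exact_mod_cast this
  have h4 : ∀ v : ℝ, Complex.exp (((-2 * Real.pi * v * ξ : ℝ) : ℂ) * Complex.I) =
      Complex.exp ((((-2 * Real.pi * ξ : ℝ) : ℂ) * Complex.I) * (v : ℂ)) := by
    intro v
    congr 1
    push_cast
    ring
  simp_rw [h4]
  rw [integral_exp_mul_complex hc, norm_div]
  have h5 : ∀ v : ℝ, ‖Complex.exp ((((-2 * Real.pi * ξ : ℝ) : ℂ) * Complex.I) * (v : ℂ))‖ = 1 := by
    intro v
    rw [← h4, Complex.norm_exp_ofReal_mul_I]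
  have h6 : ‖((-2 * Real.pi * ξ : ℝ) : ℂ) * Complex.I‖ = 2 * Real.pi * |ξ| := by
    rw [norm_mul, Complex.norm_I, mul_one, Complex.norm_real, Real.norm_eq_abs, abs_mul, abs_mul,
      abs_neg, abs_two, abs_of_pos Real.pi_pos]
  rw [h6]
  have h7 := norm_sub_le (Complex.exp ((((-2 * Real.pi * ξ : ℝ) : ℂ) * Complex.I) * ((sSup I : ℝ) : ℂ)))
    (Complex.exp ((((-2 * Real.pi * ξ : ℝ) : ℂ) * Complex.I) * ((sInf I : ℝ) : ℂ)))
  rw [h5, h5] at h7
  rw [div_le_div_iff₀ (by positivity) hξ']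
  nlinarith [Real.pi_gt_three, hξ']

theorem ft_integrable {z : ℕ → ℝ} (hz : ∀ n, |z n| ≤ 1) (v0 v1 : ℝ) :
    Integrable (fun v : ℝ => ((MargS.ft z v0 v1 v : ℝ) : ℂ)) := by
  have h : Integrable (MargS.ft z v0 v1) := by
    unfold MargS.ft
    rw [integrable_indicator_iff measurableSet_Icc]
    refine IntegrableOn.of_bound (C := 1) ?_ (MargS.ZE_meas hz).aestronglyMeasurable ?_
    · exact measure_Icc_lt_top
    · exact Filter.Eventually.of_forall fun x => hz _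
  exact h.ofReal

theorem ft_memLp {z : ℕ → ℝ} (hz : ∀ n, |z n| ≤ 1) (v0 v1 : ℝ) :
    MemLp (fun v : ℝ => ((MargS.ft z v0 v1 v : ℝ) : ℂ)) 2 := by
  have h : MemLp (MargS.ft z v0 v1) 2 := by
    unfold MargS.ft
    rw [memLp_indicator_iff_restrict measurableSet_Icc]
    refine MemLp.of_bound (MargS.ZE_meas hz).aestronglyMeasurable 1 ?_
    exact Filter.Eventually.of_forall fun x => hz _
  exact h.ofReal

theorem ft_sq_le {z : ℕ → ℝ} (hz : ∀ n, |z n| ≤ 1) {v0 v1 : ℝ} (h : v0 ≤ v1) :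
    ∫ v, ‖((MargS.ft z v0 v1 v : ℝ) : ℂ)‖ ^ 2 ≤ v1 - v0 := by
  have h1 : ∀ v, ‖((MargS.ft z v0 v1 v : ℝ) : ℂ)‖ ^ 2 ≤
      Set.indicator (Set.Icc v0 v1) (fun _ => (1 : ℝ)) v := by
    intro v
    rw [Complex.norm_real, Real.norm_eq_abs]
    by_cases hv : v ∈ Set.Icc v0 v1
    · rw [Set.indicator_of_mem hv]
      have := (MargS.ft_bdd hz v0 v1).bound v
      have h0 := abs_nonneg (MargS.ft z v0 v1 v)
      nlinarith
    · rw [Set.indicator_of_notMem hv, MargS.ft_supp v0 v1 v hv]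
      simp
  have h2 : Integrable (Set.indicator (Set.Icc v0 v1) (fun _ => (1 : ℝ))) := by
    rw [integrable_indicator_iff measurableSet_Icc]
    exact integrableOn_const (by simp)
  calc ∫ v, ‖((MargS.ft z v0 v1 v : ℝ) : ℂ)‖ ^ 2
      ≤ ∫ v, Set.indicator (Set.Icc v0 v1) (fun _ => (1 : ℝ)) v :=
        integral_mono_of_nonneg (Filter.Eventually.of_forall fun v => by positivity) h2
          (Filter.Eventually.of_forall h1)
    _ = v1 - v0 := by
        rw [integral_indicator measurableSet_Icc]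
        simp [h]

theorem fourier_ft {z : ℕ → ℝ} (hz : ∀ n, |z n| ≤ 1) {v0 v1 : ℝ} {K : ℕ} (hK : Real.exp v1 ≤ K)
    {ξ : ℝ} (hξ : ξ ≠ 0) :
    ‖𝓕 (fun v : ℝ => ((MargS.ft z v0 v1 v : ℝ) : ℂ)) ξ‖ ≤ (K + 1) / |ξ| := by
  rw [Real.fourier_real_eq_integral_exp_smul]
  set e : ℝ → ℂ := fun v => Complex.exp (((-2 * Real.pi * v * ξ : ℝ) : ℂ) * Complex.I) with he
  have hec : Continuous e := by
    rw [he]
    fun_prop
  let I : ℕ → Set ℝ := fun n => {v | v ∈ Set.Icc v0 v1 ∧ ⌊Real.exp v⌋₊ = n}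
  have hIsub : ∀ n, I n ⊆ Set.Icc v0 v1 := fun n v hv => hv.1
  have hIord : ∀ n, (I n).OrdConnected := by
    intro n
    refine ⟨fun x hx y hy v hv => ?_⟩
    refine ⟨⟨hx.1.1.trans hv.1, hv.2.trans hy.1.2⟩, ?_⟩
    have h1 : ⌊Real.exp x⌋₊ ≤ ⌊Real.exp v⌋₊ := Nat.floor_le_floor (Real.exp_le_exp.2 hv.1)
    have h2 : ⌊Real.exp v⌋₊ ≤ ⌊Real.exp y⌋₊ := Nat.floor_le_floor (Real.exp_le_exp.2 hv.2)
    rw [hx.2] at h1
    rw [hy.2] at h2
    exact le_antisymm h2 h1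
  have hIm : ∀ n, MeasurableSet (I n) := fun n => (hIord n).measurableSet
  have hdec : ∀ v, e v • ((MargS.ft z v0 v1 v : ℝ) : ℂ) =
      ∑ n ∈ Finset.range (K + 1), Set.indicator (I n) (fun v => ((z n : ℝ) : ℂ) * e v) v := by
    intro v
    by_cases hv : v ∈ Set.Icc v0 v1
    · have hn : ⌊Real.exp v⌋₊ ∈ Finset.range (K + 1) := by
        rw [Finset.mem_range, Nat.lt_succ_iff]
        have : Real.exp v ≤ K := (Real.exp_le_exp.2 hv.2).trans hK
        exact Nat.floor_le_of_le this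
      rw [Finset.sum_eq_single_of_mem _ hn]
      · rw [Set.indicator_of_mem (show v ∈ I ⌊Real.exp v⌋₊ from ⟨hv, rfl⟩), MargS.ft_eq hv]
        unfold MargS.ZE Marg.zf
        rw [smul_eq_mul, mul_comm]
      · intro n _ hne
        exact Set.indicator_of_notMem (fun h => hne h.2.symm) _
    · rw [MargS.ft_supp v0 v1 v hv]
      rw [Finset.sum_eq_zero]
      · simp
      · intro n _
        exact Set.indicator_of_notMem (fun h => hv h.1) _
  have hint : ∀ n, Integrable (Set.indicator (I n) (fun v => ((z n : ℝ) : ℂ) * e v)) := by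
    intro n
    rw [integrable_indicator_iff (hIm n)]
    have : IntegrableOn (fun v => ((z n : ℝ) : ℂ) * e v) (Set.Icc v0 v1) :=
      (continuous_const.mul hec).continuousOn.integrableOn_Icc
    exact this.mono_set (hIsub n)
  have h1 : ∫ v, e v • ((MargS.ft z v0 v1 v : ℝ) : ℂ) =
      ∑ n ∈ Finset.range (K + 1), ((z n : ℝ) : ℂ) * ∫ v in I n, e v := by
    simp_rw [hdec]
    rw [integral_finsetSum _ fun n _ => hint n]
    refine Finset.sum_congr rfl fun n _ => ?_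
    rw [integral_indicator (hIm n), integral_const_mul]
  change ‖∫ v, e v • ((MargS.ft z v0 v1 v : ℝ) : ℂ)‖ ≤ _
  rw [h1]
  refine (norm_sum_le _ _).trans ?_
  have h2 : ∀ n ∈ Finset.range (K + 1), ‖((z n : ℝ) : ℂ) * ∫ v in I n, e v‖ ≤ 1 / |ξ| := by
    intro n _
    rw [norm_mul, Complex.norm_real, Real.norm_eq_abs]
    have h3 := ord_int (hIord n) (hIsub n) hξ
    have h4 : (0 : ℝ) ≤ ‖∫ v in I n, e v‖ := norm_nonneg _
    calc |z n| * ‖∫ v in I n, e v‖ ≤ 1 * ‖∫ v in I n, e v‖ :=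
          mul_le_mul_of_nonneg_right (hz n) h4
      _ ≤ 1 / |ξ| := by rw [one_mul]; exact h3
  refine (Finset.sum_le_card_nsmul _ _ _ h2).trans ?_
  rw [Finset.card_range, nsmul_eq_mul]
  push_cast
  rw [mul_one_div]

end MargE
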