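import Pool.Agent.MargE.Defs

/-! # The inequality of van der Corput (PACKAGE EA3)

Proof. Let `a n = ee (x n)` for `0 ≤ n < L` and `a n = 0` otherwise (`n : ℤ`). Then
`H * ∑ n, a n = ∑ n, ∑ j < H, a (n + j)`, the sum over the `n` with `-H < n < L`, at most
`L + H ≤ 2 L` values of `n`. By Cauchy-Schwarz
`H ^ 2 * ‖S‖ ^ 2 ≤ 2 L * ∑ n, ‖∑ j < H, a (n + j)‖ ^ 2 = 2 L * ∑ j < H, ∑ j' < H, ∑ n, a (n + j) * conj (a (n + j'))`.
The terms with `j = j'` give `H * L`. For `j' < j`, `h = j - j'`, the inner sum is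
`∑ n, a (n + h) * conj (a n) = ∑ i < L - h, ee (x (i + h) - x i)`; for `j < j'` it is the conjugate.
There are at most `H` pairs with a given `h`, so the whole is at most
`2 L * (H * L + 2 H * ∑ 1 ≤ h < H, ‖∑ i < L - h, ee (x (i + h) - x i)‖)`. Divide by `H ^ 2`.

(It may be simpler to avoid `ℤ`: put `b n = a (n - H)` for `n : ℕ`, that is `b n = ee (x (n - H))`
for `H ≤ n < H + L` and `0` otherwise.) -/

set_option autoImplicit false

open Finset Real

namespace MargE

/-- the shifted sequence -/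
private noncomputable def cc (x : ℕ → ℝ) (L j n : ℕ) : ℂ :=
  if j ≤ n ∧ n < j + L then ee (x (n - j)) else 0

private lemma sum_cc (x : ℕ → ℝ) {L H j : ℕ} (hj : j < H) (f : ℂ → ℂ) (hf : f 0 = 0) :
    ∑ n ∈ range (L + H), f (cc x L j n) = ∑ i ∈ range L, f (ee (x i)) := by
  have h1 : ∀ n, f (cc x L j n) = if j ≤ n ∧ n < j + L then f (ee (x (n - j))) else 0 := by
    intro n
    unfold cc
    split_ifs with h
    · rfl
    · exact hf
  simp_rw [h1]
  rw [← sum_filter]
  have h2 : (range (L + H)).filter (fun n => j ≤ n ∧ n < j + L) = Ico j (j + L) := by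
    ext n
    simp only [mem_filter, mem_range, mem_Ico]
    omega
  rw [h2, Finset.sum_Ico_eq_sum_range, Nat.add_sub_cancel_left]
  refine sum_congr rfl fun i _ => ?_
  rw [Nat.add_sub_cancel_left]

private lemma corr_eq (x : ℕ → ℝ) {L H j k : ℕ} (hkj : k < j) (hj : j < H) (hHL : H ≤ L) :
    ‖∑ n ∈ range (L + H), cc x L j n * (starRingEnd ℂ) (cc x L k n)‖ =
      ‖∑ i ∈ range (L - (j - k)), ee (x (i + (j - k)) - x i)‖ := by
  have h1 : ∀ n, cc x L j n * (starRingEnd ℂ) (cc x L k n) =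
      if j ≤ n ∧ n < k + L then
        (starRingEnd ℂ) (ee (x (n - k) - x (n - j))) else 0 := by
    intro n
    unfold cc
    by_cases a : j ≤ n ∧ n < k + L
    · rw [if_pos a, if_pos (⟨a.1, by omega⟩ : j ≤ n ∧ n < j + L),
        if_pos (⟨by omega, a.2⟩ : k ≤ n ∧ n < k + L), ee_sub, map_mul, RingHomCompTriple.comp_apply,
        RingHom.id_apply, mul_comm]
    · rw [if_neg a]
      by_cases b : j ≤ n ∧ n < j + L
      · rw [if_neg (by omega : ¬ (k ≤ n ∧ n < k + L)), map_zero, mul_zero]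
      · rw [if_neg b, zero_mul]
  simp_rw [h1]
  rw [← sum_filter]
  have h2 : (range (L + H)).filter (fun n => j ≤ n ∧ n < k + L) = Ico j (k + L) := by
    ext n
    simp only [mem_filter, mem_range, mem_Ico]
    omega
  rw [h2, Finset.sum_Ico_eq_sum_range, ← map_sum, RCLike.norm_conj]
  have h3 : k + L - j = L - (j - k) := by omega
  rw [h3]
  congr 1
  refine sum_congr rfl fun i _ => ?_
  have h4 : j + i - k = i + (j - k) := by omega
  have h5 : j + i - j = i := by omega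
  rw [h4, h5]

private lemma corr_symm (x : ℕ → ℝ) (L H j k : ℕ) :
    ‖∑ n ∈ range (L + H), cc x L j n * (starRingEnd ℂ) (cc x L k n)‖ =
      ‖∑ n ∈ range (L + H), cc x L k n * (starRingEnd ℂ) (cc x L j n)‖ := by
  rw [← RCLike.norm_conj, map_sum]
  congr 1
  refine sum_congr rfl fun n _ => ?_
  rw [map_mul, RingHomCompTriple.comp_apply, RingHom.id_apply, mul_comm]

private lemma corr_self (x : ℕ → ℝ) {L H j : ℕ} (hj : j < H) :
    ‖∑ n ∈ range (L + H), cc x L j n * (starRingEnd ℂ) (cc x L j n)‖ ≤ L := by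
  rw [sum_cc x hj (fun z => z * (starRingEnd ℂ) z) (by simp)]
  refine (norm_sum_le _ _).trans ?_
  simp

/-- the sum over the pairs -/
private lemma pair_sum (G : ℕ → ℕ → ℝ) (g : ℕ → ℝ) (A : ℝ) (hg : ∀ h, 0 ≤ g h) {H : ℕ}
    (h1 : ∀ j < H, G j j ≤ A) (h2 : ∀ j < H, ∀ k < j, G j k ≤ g (j - k))
    (h3 : ∀ j k, G j k = G k j) :
    ∑ j ∈ range H, ∑ k ∈ range H, G j k ≤ H * A + 2 * H * ∑ h ∈ Ico 1 H, g h := by
  have row : ∀ j < H, ∑ k ∈ range H, G j k ≤ A + 2 * ∑ h ∈ Ico 1 H, g h := by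
    intro j hj
    have e1 : ∑ k ∈ range H, G j k =
        ∑ k ∈ range j, G j k + (G j j + ∑ k ∈ Ico (j + 1) H, G j k) := by
      rw [← Finset.sum_range_add_sum_Ico _ hj.le, Finset.sum_eq_sum_Ico_succ_bot hj]
    have e2 : ∑ k ∈ range j, G j k ≤ ∑ h ∈ Ico 1 H, g h := by
      calc ∑ k ∈ range j, G j k ≤ ∑ k ∈ range j, g (j - k) :=
            sum_le_sum fun k hk => h2 j hj k (mem_range.1 hk)
        _ = ∑ h ∈ (range j).image (fun k => j - k), g h := by
            rw [sum_image]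
            intro a ha b hb hab
            have ha' := mem_range.1 (mem_coe.1 ha)
            have hb' := mem_range.1 (mem_coe.1 hb)
            simp only at hab
            omega
        _ ≤ ∑ h ∈ Ico 1 H, g h := by
            refine sum_le_sum_of_subset_of_nonneg ?_ fun h _ _ => hg h
            intro h hh
            obtain ⟨k, hk, rfl⟩ := mem_image.1 hh
            have hk' := mem_range.1 hk
            rw [mem_Ico]
            omega
    have e3 : ∑ k ∈ Ico (j + 1) H, G j k ≤ ∑ h ∈ Ico 1 H, g h := by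
      calc ∑ k ∈ Ico (j + 1) H, G j k ≤ ∑ k ∈ Ico (j + 1) H, g (k - j) := by
            refine sum_le_sum fun k hk => ?_
            rw [mem_Ico] at hk
            rw [h3]
            exact h2 k hk.2 j (by omega)
        _ = ∑ h ∈ (Ico (j + 1) H).image (fun k => k - j), g h := by
            rw [sum_image]
            intro a ha b hb hab
            have ha' := mem_Ico.1 (mem_coe.1 ha)
            have hb' := mem_Ico.1 (mem_coe.1 hb)
            simp only at hab
            omega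
        _ ≤ ∑ h ∈ Ico 1 H, g h := by
            refine sum_le_sum_of_subset_of_nonneg ?_ fun h _ _ => hg h
            intro h hh
            obtain ⟨k, hk, rfl⟩ := mem_image.1 hh
            have hk' := mem_Ico.1 hk
            rw [mem_Ico]
            omega
    have e4 := h1 j hj
    rw [e1]
    linarith
  calc ∑ j ∈ range H, ∑ k ∈ range H, G j k
      ≤ ∑ _j ∈ range H, (A + 2 * ∑ h ∈ Ico 1 H, g h) :=
        sum_le_sum fun j hj => row j (mem_range.1 hj)
    _ = H * A + 2 * H * ∑ h ∈ Ico 1 H, g h := by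
        rw [sum_const, card_range, nsmul_eq_mul]
        ring

theorem vdc_ineq (x : ℕ → ℝ) {L H : ℕ} (hH : 1 ≤ H) (hHL : H ≤ L) :
    ‖∑ i ∈ range L, ee (x i)‖ ^ 2 ≤
      2 * L / H * (L + 2 * ∑ j ∈ Ico 1 H, ‖∑ i ∈ range (L - j), ee (x (i + j) - x i)‖) := by
  set S : ℂ := ∑ i ∈ range L, ee (x i) with hS
  set T : ℝ := ∑ j ∈ Ico 1 H, ‖∑ i ∈ range (L - j), ee (x (i + j) - x i)‖ with hT
  have hT0 : 0 ≤ T := sum_nonneg fun _ _ => norm_nonneg _
  have hH0 : (0 : ℝ) < H := by exact_mod_cast hH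
  have hLH : (H : ℝ) ≤ L := by exact_mod_cast hHL
  have e1 : (H : ℂ) * S = ∑ n ∈ range (L + H), ∑ j ∈ range H, cc x L j n := by
    rw [sum_comm]
    have : ∀ j ∈ range H, ∑ n ∈ range (L + H), cc x L j n = S := fun j hj =>
      sum_cc x (mem_range.1 hj) (fun z => z) rfl
    rw [sum_congr rfl this, sum_const, card_range, nsmul_eq_mul]
  have e2 : ((H : ℝ) * ‖S‖) ^ 2 ≤
      ((L : ℝ) + H) * ∑ n ∈ range (L + H), ‖∑ j ∈ range H, cc x L j n‖ ^ 2 := by
    have h1 : (H : ℝ) * ‖S‖ ≤ ∑ n ∈ range (L + H), ‖∑ j ∈ range H, cc x L j n‖ := by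
      have h2 : ‖(H : ℂ) * S‖ = (H : ℝ) * ‖S‖ := by
        rw [norm_mul, Complex.norm_natCast]
      rw [← h2, e1]
      exact norm_sum_le _ _
    calc ((H : ℝ) * ‖S‖) ^ 2 ≤ (∑ n ∈ range (L + H), ‖∑ j ∈ range H, cc x L j n‖) ^ 2 :=
          pow_le_pow_left₀ (by positivity) h1 2
      _ ≤ ((range (L + H)).card : ℝ) * ∑ n ∈ range (L + H), ‖∑ j ∈ range H, cc x L j n‖ ^ 2 :=
          sq_sum_le_card_mul_sum_sq
      _ = _ := by rw [card_range]; push_cast; rfl
  have e3 : ∑ n ∈ range (L + H), ‖∑ j ∈ range H, cc x L j n‖ ^ 2 ≤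
      ∑ j ∈ range H, ∑ k ∈ range H,
        ‖∑ n ∈ range (L + H), cc x L j n * (starRingEnd ℂ) (cc x L k n)‖ := by
    have h1 : ((∑ n ∈ range (L + H), ‖∑ j ∈ range H, cc x L j n‖ ^ 2 : ℝ) : ℂ) =
        ∑ j ∈ range H, ∑ k ∈ range H,
          ∑ n ∈ range (L + H), cc x L j n * (starRingEnd ℂ) (cc x L k n) := by
      push_cast
      have h2 : ∀ n ∈ range (L + H), ((‖∑ j ∈ range H, cc x L j n‖ : ℂ)) ^ 2 =
          ∑ j ∈ range H, ∑ k ∈ range H, cc x L j n * (starRingEnd ℂ) (cc x L k n) := by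
        intro n _
        rw [← Complex.mul_conj', map_sum, sum_mul_sum]
      rw [sum_congr rfl h2, sum_comm]
      refine sum_congr rfl fun j _ => ?_
      rw [sum_comm]
    have h3 : ∑ n ∈ range (L + H), ‖∑ j ∈ range H, cc x L j n‖ ^ 2 =
        ‖((∑ n ∈ range (L + H), ‖∑ j ∈ range H, cc x L j n‖ ^ 2 : ℝ) : ℂ)‖ := by
      rw [Complex.norm_real, Real.norm_of_nonneg (sum_nonneg fun _ _ => sq_nonneg _)]
    rw [h3, h1]
    refine (norm_sum_le _ _).trans (sum_le_sum fun j _ => ?_)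
    exact norm_sum_le _ _
  have e4 : ∑ j ∈ range H, ∑ k ∈ range H,
        ‖∑ n ∈ range (L + H), cc x L j n * (starRingEnd ℂ) (cc x L k n)‖ ≤
      H * L + 2 * H * T :=
    pair_sum _ (fun h => ‖∑ i ∈ range (L - h), ee (x (i + h) - x i)‖) L
      (fun _ => norm_nonneg _) (fun j hj => corr_self x hj)
      (fun j hj k hk => (corr_eq x hk hj hHL).le) (fun j k => corr_symm x L H j k)
  have e5 : (H : ℝ) ^ 2 * ‖S‖ ^ 2 ≤ 2 * L * (H * (L + 2 * T)) := by
    calc (H : ℝ) ^ 2 * ‖S‖ ^ 2 = ((H : ℝ) * ‖S‖) ^ 2 := by ring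
      _ ≤ ((L : ℝ) + H) * (H * L + 2 * H * T) :=
          e2.trans (mul_le_mul_of_nonneg_left (e3.trans e4) (by positivity))
      _ ≤ (2 * L) * (H * L + 2 * H * T) :=
          mul_le_mul_of_nonneg_right (by linarith) (by positivity)
      _ = _ := by ring
  have e6 : 2 * (L : ℝ) / H * (L + 2 * T) = 2 * L * (H * (L + 2 * T)) / (H : ℝ) ^ 2 := by
    field_simp
  rw [e6, le_div_iff₀ (by positivity)]
  linarith

end MargE
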