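import Pool.Agent.MargE.VdcTwo
import Pool.Agent.MargE.VdcIneq

/-!
# The induction step of van der Corput (PACKAGE EA5)

`vdc_succ`. Let `δ'` be the constant of `h`. Put `δ = min (min ((η - η') / 2) (δ' / 2)) (min (1 - η) (η / 2))`.
Given `C c₀ C₀` let `K'` be the constant of `h` for `C`, `c₀`, `C₀` and `K'' = max K' 0`. Let `N, L, lam, x` be given, `S = ∑ i < L, ee (x i)`,
`H = ⌊N ^ η⌋₊ ≥ 1`, `N ^ η / 2 ≤ H ≤ N ^ η`. If `L < H` then `‖S‖ ≤ L ≤ N ^ η ≤ N ^ (1 - δ)`. Let `H ≤ L`. By `vdc_ineq`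
`‖S‖ ^ 2 ≤ (2 L / H) (L + 2 ∑ 1 ≤ j < H, ‖S_j‖)`, `S_j = ∑ i < L - j, ee (x (i + j) - x i)`. For `j ≤ N ^ η'` use
`‖S_j‖ ≤ L ≤ N`; these are at most `N ^ η'` values of `j`. For `N ^ η' < j < H`: the `k`-th difference of `y i = x (i + j) - x i` is
`dd^[k] x (i + j) - dd^[k] x i = ∑ l < j, dd^[k + 1] x (i + l)` (telescoping, `dd_iterate_succ`,
`dd_iterate_sub`, `dd_iterate_shift`), and it is in `[j lam, C (j lam)]` for `i + k < L - j`. With `lam' = j lam`: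
`c₀ N ^ (-(q - η')) ≤ lam'` (`j ≥ N ^ η'`) and `lam' ≤ C₀ N ^ (-(p - η))` (`j ≤ N ^ η`; note `C₀ > 0`, as `0 < lam`), so `h` gives
`‖S_j‖ ≤ K'' N ^ (1 - δ')`. In total, with `2 L / H ≤ 4 N ^ (1 - η)` and `H ≤ N ^ η`:
`‖S‖ ^ 2 ≤ 4 N ^ (1 - η) (N + 2 N ^ (1 + η') + 2 N ^ η K'' N ^ (1 - δ'))
  = 4 N ^ (2 - η) + 8 N ^ (2 - (η - η')) + 8 K'' N ^ (2 - δ') ≤ (12 + 8 K'') N ^ (2 - 2 δ)`.
So `K = √(12 + 8 K'') + 1` is a constant for `k + 1`.

`vdc_low`: induction on `k`, `k = 2` is `vdc_two`; step: `vdc_succ` with `η = min p 1 / 2`, `η' = η / 2`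
(`0 < p - η`, `p - η ≤ q - η'`, `q - η' < 2`).

`vdc_high`: `k = k' + 1`, `k' ≥ 2`, `vdc_succ` with `η = 3 / 4`, `η' = 1 / 2` and `vdc_low`
(`0 < p - 3 / 4 ≤ q - 1 / 2 < 2`).
-/

set_option autoImplicit false

open Finset Real

namespace MargE

private lemma dd_iterate_tele (k : ℕ) (x : ℕ → ℝ) (i j : ℕ) :
    dd^[k] (fun i => x (i + j) - x i) i = ∑ l ∈ range j, dd^[k + 1] x (i + l) := by
  rw [dd_iterate_sub k (fun i => x (i + j)) x i, dd_iterate_shift]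
  induction j with
  | zero => simp
  | succ j ih =>
    rw [sum_range_succ, ← ih, dd_iterate_succ, add_assoc]
    ring

private lemma dd_iterate_bounds {k L j : ℕ} {x : ℕ → ℝ} {lam C : ℝ}
    (hx : ∀ i, i + (k + 1) < L → lam ≤ dd^[k + 1] x i ∧ dd^[k + 1] x i ≤ C * lam) {i : ℕ}
    (hi : i + k < L - j) :
    j * lam ≤ dd^[k] (fun i => x (i + j) - x i) i ∧
      dd^[k] (fun i => x (i + j) - x i) i ≤ C * (j * lam) := by
  rw [dd_iterate_tele]
  have h1 : ∀ l ∈ range j, lam ≤ dd^[k + 1] x (i + l) ∧ dd^[k + 1] x (i + l) ≤ C * lam := by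
    intro l hl
    rw [mem_range] at hl
    exact hx _ (by omega)
  constructor
  · calc (j : ℝ) * lam = ∑ l ∈ range j, lam := by rw [sum_const, card_range, nsmul_eq_mul]
      _ ≤ _ := sum_le_sum fun l hl => (h1 l hl).1
  · calc ∑ l ∈ range j, dd^[k + 1] x (i + l) ≤ ∑ l ∈ range j, C * lam :=
        sum_le_sum fun l hl => (h1 l hl).2
      _ = C * (j * lam) := by
        rw [sum_const, card_range, nsmul_eq_mul]
        ring

private lemma card_small {N r : ℝ} {H : ℕ} (hN : 0 < N) :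
    (((Ico 1 H).filter fun j : ℕ => (j : ℝ) ≤ N ^ r).card : ℝ) ≤ N ^ r := by
  have h0 : 0 ≤ N ^ r := rpow_nonneg hN.le _
  have h1 : (Ico 1 H).filter (fun j : ℕ => (j : ℝ) ≤ N ^ r) ⊆ Icc 1 ⌊N ^ r⌋₊ := by
    intro j hj
    rw [mem_filter, mem_Ico] at hj
    rw [mem_Icc]
    exact ⟨hj.1.1, Nat.le_floor hj.2⟩
  have h2 := card_le_card h1
  rw [Nat.card_Icc, Nat.add_sub_cancel] at h2
  calc _ ≤ ((⌊N ^ r⌋₊ : ℕ) : ℝ) := by exact_mod_cast h2
    _ ≤ N ^ r := Nat.floor_le h0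

theorem vdc_succ {k : ℕ} {p q η η' : ℝ} (h0 : 0 < η') (h1 : η' < η) (h2 : η < 1)
    (h : VdC k (p - η) (q - η')) : VdC (k + 1) p q := by
  obtain ⟨δ', hδ', hd⟩ := h
  obtain ⟨δ, hδ⟩ : ∃ δ, δ = min (min ((η - η') / 2) (δ' / 2)) (min (1 - η) (η / 2)) :=
    ⟨_, rfl⟩
  have hd1 : δ ≤ (η - η') / 2 := by
    rw [hδ]
    exact (min_le_left _ _).trans (min_le_left _ _)
  have hd2 : δ ≤ δ' / 2 := by
    rw [hδ]
    exact (min_le_left _ _).trans (min_le_right _ _)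
  have hd3 : δ ≤ 1 - η := by
    rw [hδ]
    exact (min_le_right _ _).trans (min_le_left _ _)
  have hd4 : δ ≤ η / 2 := by
    rw [hδ]
    exact (min_le_right _ _).trans (min_le_right _ _)
  have hd0 : 0 < δ := by
    rw [hδ]
    exact lt_min (lt_min (by linarith) (by linarith)) (lt_min (by linarith) (by linarith))
  refine ⟨δ, hd0, ?_⟩
  intro C c₀ C₀ hc0
  obtain ⟨K', hK'⟩ := hd C c₀ C₀ hc0
  obtain ⟨K, hK⟩ : ∃ K, K = max K' 0 := ⟨_, rfl⟩
  have hK0 : 0 ≤ K := by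
    rw [hK]
    exact le_max_right _ _
  have hKK : K' ≤ K := by
    rw [hK]
    exact le_max_left _ _
  refine ⟨√(12 + 8 * K) + 1, ?_⟩
  intro N hN L lam hL hl1 hl2 x hx
  have hN0 : 0 < N := by linarith
  have hlam : 0 < lam := lt_of_lt_of_le (mul_pos hc0 (rpow_pos_of_pos hN0 _)) hl1
  have hpos : ∀ r : ℝ, 0 < N ^ r := fun r => rpow_pos_of_pos hN0 r
  have hNη : 1 ≤ N ^ η := one_le_rpow hN (by linarith)
  obtain ⟨H, hH⟩ : ∃ H, H = ⌊N ^ η⌋₊ := ⟨_, rfl⟩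
  have hH1 : 1 ≤ H := by
    rw [hH]
    exact Nat.le_floor (by exact_mod_cast hNη)
  have hHu : (H : ℝ) ≤ N ^ η := by
    rw [hH]
    exact Nat.floor_le (by linarith)
  have hHl : N ^ η ≤ 2 * H := by
    have h3 := Nat.lt_floor_add_one (N ^ η)
    rw [← hH] at h3
    have h4 : (1 : ℝ) ≤ H := by exact_mod_cast hH1
    linarith
  have hsq0 : 0 ≤ √(12 + 8 * K) := sqrt_nonneg _
  by_cases hLH : L < H
  · calc ‖∑ i ∈ range L, ee (x i)‖ ≤ (range L).card := norm_sum_ee_le _ _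
      _ = (L : ℝ) := by rw [card_range]
      _ ≤ (H : ℝ) := by exact_mod_cast hLH.le
      _ ≤ N ^ η := hHu
      _ ≤ N ^ (1 - δ) := rpow_le_rpow_of_exponent_le hN (by linarith)
      _ = 1 * N ^ (1 - δ) := by rw [one_mul]
      _ ≤ (√(12 + 8 * K) + 1) * N ^ (1 - δ) :=
        mul_le_mul_of_nonneg_right (by linarith) (hpos _).le
  rw [not_lt] at hLH
  have hvi := vdc_ineq x hH1 hLH
  have hj : ∀ j ∈ Ico 1 H, ‖∑ i ∈ range (L - j), ee (x (i + j) - x i)‖ ≤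
      (if (j : ℝ) ≤ N ^ η' then N else 0) + K * N ^ (1 - δ') := by
    intro j hj
    rw [mem_Ico] at hj
    have hKN : 0 ≤ K * N ^ (1 - δ') := mul_nonneg hK0 (hpos _).le
    have hLj : ((L - j : ℕ) : ℝ) ≤ N := by
      have h3 : ((L - j : ℕ) : ℝ) ≤ (L : ℝ) := by exact_mod_cast Nat.sub_le L j
      exact h3.trans hL
    split_ifs with hs
    · have h3 := norm_sum_ee_le (range (L - j)) fun i => x (i + j) - x i
      rw [card_range] at h3
      linarith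
    · rw [not_le] at hs
      have hjH : (j : ℝ) ≤ N ^ η := by
        have h3 : (j : ℝ) ≤ (H : ℝ) := by exact_mod_cast hj.2.le
        exact h3.trans hHu
      have hj0 : (0 : ℝ) ≤ j := Nat.cast_nonneg j
      have e1 : c₀ * N ^ (-(q - η')) ≤ j * lam := by
        have h3 : N ^ (-(q - η')) = N ^ (-q) * N ^ η' := by
          rw [← rpow_add hN0]
          congr 1
          ring
        rw [h3, ← mul_assoc, mul_comm (j : ℝ) lam]
        exact mul_le_mul hl1 hs.le (hpos _).le hlam.le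
      have e2 : j * lam ≤ C₀ * N ^ (-(p - η)) := by
        have h3 : N ^ (-(p - η)) = N ^ (-p) * N ^ η := by
          rw [← rpow_add hN0]
          congr 1
          ring
        rw [h3, ← mul_assoc, mul_comm (j : ℝ) lam]
        exact mul_le_mul hl2 hjH hj0 (hlam.le.trans hl2)
      have h4 := hK' N hN (L - j) (j * lam) hLj e1 e2 (fun i => x (i + j) - x i)
        fun i hi => dd_iterate_bounds hx hi
      have h5 : K' * N ^ (1 - δ') ≤ K * N ^ (1 - δ') :=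
        mul_le_mul_of_nonneg_right hKK (hpos _).le
      linarith
  have hsum : ∑ j ∈ Ico 1 H, ‖∑ i ∈ range (L - j), ee (x (i + j) - x i)‖ ≤
      N ^ η' * N + N ^ η * (K * N ^ (1 - δ')) := by
    refine (sum_le_sum hj).trans ?_
    rw [sum_add_distrib, ← sum_filter, sum_const, sum_const, nsmul_eq_mul, nsmul_eq_mul,
      Nat.card_Ico]
    refine add_le_add (mul_le_mul_of_nonneg_right (card_small hN0) hN0.le)
      (mul_le_mul_of_nonneg_right ?_ (mul_nonneg hK0 (hpos _).le))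
    have h3 : ((H - 1 : ℕ) : ℝ) ≤ (H : ℝ) := by exact_mod_cast Nat.sub_le H 1
    exact h3.trans hHu
  have hH0 : (0 : ℝ) < H := by exact_mod_cast hH1
  have hfac : 2 * (L : ℝ) / H ≤ 4 * N ^ (1 - η) := by
    rw [div_le_iff₀ hH0]
    have h3 : N ^ (1 - η) * N ^ η = N := by
      rw [← rpow_add hN0, sub_add_cancel, rpow_one]
    have h4 : N ^ (1 - η) * N ^ η ≤ N ^ (1 - η) * (2 * H) :=
      mul_le_mul_of_nonneg_left hHl (hpos _).le
    rw [h3] at h4
    linarith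
  have hin0 : 0 ≤ N + 2 * (N ^ η' * N + N ^ η * (K * N ^ (1 - δ'))) := by
    have h3 := mul_nonneg (hpos η').le hN0.le
    have h4 := mul_nonneg (hpos η).le (mul_nonneg hK0 (hpos (1 - δ')).le)
    linarith
  have hmain : ‖∑ i ∈ range L, ee (x i)‖ ^ 2 ≤
      4 * N ^ (1 - η) * (N + 2 * (N ^ η' * N + N ^ η * (K * N ^ (1 - δ')))) := by
    refine hvi.trans ?_
    refine mul_le_mul hfac (by linarith) ?_ (mul_nonneg (by norm_num) (hpos _).le)
    have h3 : 0 ≤ ∑ j ∈ Ico 1 H, ‖∑ i ∈ range (L - j), ee (x (i + j) - x i)‖ :=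
      sum_nonneg fun j _ => norm_nonneg _
    have h4 : (0 : ℝ) ≤ L := Nat.cast_nonneg L
    linarith
  have f1 : N ^ (1 - η) * N ≤ N ^ (2 - 2 * δ) := by
    have h3 : N ^ (1 - η) * N = N ^ (1 - η + 1) := by rw [rpow_add hN0, rpow_one]
    rw [h3]
    exact rpow_le_rpow_of_exponent_le hN (by linarith)
  have f2 : N ^ (1 - η) * (N ^ η' * N) ≤ N ^ (2 - 2 * δ) := by
    have h3 : N ^ (1 - η) * (N ^ η' * N) = N ^ (1 - η + (η' + 1)) := by
      rw [rpow_add hN0, rpow_add hN0, rpow_one]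
    rw [h3]
    exact rpow_le_rpow_of_exponent_le hN (by linarith)
  have f3 : N ^ (1 - η) * (N ^ η * N ^ (1 - δ')) ≤ N ^ (2 - 2 * δ) := by
    rw [← rpow_add hN0, ← rpow_add hN0]
    exact rpow_le_rpow_of_exponent_le hN (by linarith)
  have hfin : ‖∑ i ∈ range L, ee (x i)‖ ^ 2 ≤ (√(12 + 8 * K) * N ^ (1 - δ)) ^ 2 := by
    have h3 : N ^ (2 - 2 * δ) = (N ^ (1 - δ)) ^ 2 := by
      rw [← rpow_natCast, ← rpow_mul hN0.le]
      congr 1
      push_cast
      ring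
    rw [mul_pow, sq_sqrt (by linarith), ← h3]
    have h4 : K * (N ^ (1 - η) * (N ^ η * N ^ (1 - δ'))) ≤ K * N ^ (2 - 2 * δ) :=
      mul_le_mul_of_nonneg_left f3 hK0
    calc _ ≤ 4 * N ^ (1 - η) * (N + 2 * (N ^ η' * N + N ^ η * (K * N ^ (1 - δ')))) := hmain
      _ = 4 * (N ^ (1 - η) * N) + 8 * (N ^ (1 - η) * (N ^ η' * N)) +
          8 * (K * (N ^ (1 - η) * (N ^ η * N ^ (1 - δ')))) := by ring
      _ ≤ (12 + 8 * K) * N ^ (2 - 2 * δ) := by linarith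
  have hle := abs_le_of_sq_le_sq hfin (mul_nonneg hsq0 (hpos _).le)
  have h5 := (le_abs_self _).trans hle
  have h6 := (hpos (1 - δ)).le
  calc ‖∑ i ∈ range L, ee (x i)‖ ≤ √(12 + 8 * K) * N ^ (1 - δ) := h5
    _ ≤ (√(12 + 8 * K) + 1) * N ^ (1 - δ) := by linarith [add_mul (√(12 + 8 * K)) 1 (N ^ (1 - δ))]

theorem vdc_low {k : ℕ} (hk : 2 ≤ k) {p q : ℝ} (hp : 0 < p) (hpq : p ≤ q) (hq : q < 2) :
    VdC k p q := by
  induction k, hk using Nat.le_induction generalizing p q with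
  | base => exact vdc_two hp hq
  | succ k hk ih =>
    have h1 : 0 < min p 1 := lt_min hp one_pos
    have h2 : min p 1 ≤ p := min_le_left _ _
    have h3 : min p 1 ≤ 1 := min_le_right _ _
    exact vdc_succ (η := min p 1 / 2) (η' := min p 1 / 4) (by linarith) (by linarith)
      (by linarith) (ih (by linarith) (by linarith) (by linarith))

theorem vdc_high {k : ℕ} (hk : 3 ≤ k) {p q : ℝ} (hp : 3 / 4 < p) (hpq : p ≤ q) (hq : q < 5 / 2) :
    VdC k p q := by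
  obtain ⟨k', rfl⟩ : ∃ k', k = k' + 1 := ⟨k - 1, by omega⟩
  exact vdc_succ (η := 3 / 4) (η' := 1 / 2) (by norm_num) (by norm_num) (by norm_num)
    (vdc_low (by omega) (by linarith) (by linarith) (by linarith))

end MargE
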