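import Pool.Agent.MargE.Block
import Pool.Agent.MargE.VdcStep

/-!
# Exponential sums on one level (PACKAGE EA9)

`Λ = N ^ α + |ξ|`. `exp_level_pos`: take `δ₁` from `vdc_low` (`k = m + 2`, `p = 1 / 4`, `q = 5 / 4`), `δ₂` from `vdc_high`
(`k = m + 3`, `p = 5 / 4`, `q = 9 / 4`) and `δ = min δ₁ δ₂` (it depends on `m` only, so fix it once for both theorems:
`lev_delta`). Given `h` with `0 < h * pc α (m + 2)`: `c` from `Ak_large` (for `k = m + 1`), `K₁` from `exp_block` for `k = m + 1`, `c`, and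
`K₂` from `exp_block` for `k = m + 2`, `c`. Let `N`, `L ≤ N`, `ξ` be given, `T = c Λ`, `A z = Ak h α ξ (m + 1) z`, increasing in `z > 0`
(`Ak_mono`). Let `a` be the number of the `i < L` with `A (N + i) ≤ - T` and `b` the number of the `i < L` with `A (N + i) < T`:
`i < a ↔ A (N + i) ≤ - T`, `i < b ↔ A (N + i) < T` for `i < L`, `a ≤ b ≤ L` (a finite set of natural numbers which is
closed downwards is `range` of its cardinality; alternatively `Nat.find`). The sum is the sum over `[0, a)`, `[a, b)`, `[b, L)`.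
On the real interval `[N, N + a - 1]` (if `a ≥ 1`) `A z ≤ A (N + a - 1) ≤ - T`; on `[N + b, N + L - 1]`
`A z ≥ A (N + b) ≥ T`; both sums are at most `K₁ N ^ (1 - δ₁)` by `exp_block` with `k = m + 1`
(`(k : ℝ) + 1 - 5 / 4 = m + 2 - 5 / 4`). On `[N + a, N + b - 1]` (if `a < b`): `- T < A (N + a) ≤ A z ≤ A (N + b - 1) < T`, so
`Ak_large` gives `T ≤ Ak h α ξ (m + 2) z`, and `exp_block` with `k = m + 2` (`N ^ (m + 3 - 9 / 4) = N ^ (m + 2 - 5 / 4)`,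
`N ^ (m + 3 - 5 / 4) = N ^ (m + 2 - 1 / 4)`) gives `K₂ N ^ (1 - δ₂)`. `K = 2 K₁ + K₂`.

`exp_level`: if `h * pc α (m + 2) < 0` apply `exp_level_pos` to `- h` and `- ξ` and use `norm_sum_ee_neg`
(`pc_ne_zero`: the product is not zero).
-/

set_option autoImplicit false

open Finset Real

namespace MargE

private theorem lev_split (P : ℕ → Prop) (hP : ∀ i j, i ≤ j → P j → P i) (L : ℕ) :
    ∃ a ≤ L, ∀ i < L, (i < a ↔ P i) := by
  classical
  by_cases h : ∃ i, i < L ∧ ¬ P i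
  · refine ⟨Nat.find h, (Nat.find_spec h).1.le, fun i hi => ⟨fun hia => ?_, fun hPi => ?_⟩⟩
    · by_contra hcon
      exact Nat.find_min h hia ⟨hi, hcon⟩
    · by_contra hcon
      exact (Nat.find_spec h).2 (hP _ _ (not_lt.1 hcon) hPi)
  · push Not at h
    exact ⟨L, le_refl _, fun i hi => ⟨fun _ => h i hi, fun _ => hi⟩⟩

theorem lev_delta (m : ℕ) : ∃ δ : ℝ, 0 < δ ∧ ∃ δ₁ δ₂ : ℝ, δ ≤ δ₁ ∧ δ ≤ δ₂ ∧
    VdCd (m + 2) (1 / 4) (5 / 4) δ₁ ∧ VdCd (m + 3) (5 / 4) (9 / 4) δ₂ := by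
  obtain ⟨δ₁, h1, hV1⟩ := vdc_low (k := m + 2) (by omega) (p := 1 / 4) (q := 5 / 4) (by norm_num)
    (by norm_num) (by norm_num)
  obtain ⟨δ₂, h2, hV2⟩ := vdc_high (k := m + 3) (by omega) (p := 5 / 4) (q := 9 / 4) (by norm_num)
    (by norm_num) (by norm_num)
  exact ⟨min δ₁ δ₂, lt_min h1 h2, δ₁, δ₂, min_le_left _ _, min_le_right _ _, hV1, hV2⟩

theorem exp_level_pos {α : ℝ} (hα1 : 1 < α) (hα : ∀ n : ℕ, α ≠ n) (m : ℕ) {δ δ₁ δ₂ : ℝ}
    (h1 : δ ≤ δ₁) (h2 : δ ≤ δ₂) (hV1 : VdCd (m + 2) (1 / 4) (5 / 4) δ₁)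
    (hV2 : VdCd (m + 3) (5 / 4) (9 / 4) δ₂) {h : ℝ} (hh : 0 < h * pc α (m + 2)) :
    ∃ K : ℝ, 0 ≤ K ∧ ∀ N : ℕ, 1 ≤ N → ∀ L : ℕ, L ≤ N → ∀ ξ : ℝ,
      (N : ℝ) ^ ((m : ℝ) + 2 - 5 / 4) ≤ (N : ℝ) ^ α + |ξ| →
      (N : ℝ) ^ α + |ξ| ≤ (N : ℝ) ^ ((m : ℝ) + 2 - 1 / 4) →
      ‖∑ i ∈ range L, ee (h * ((N + i : ℕ) : ℝ) ^ α + ξ * log ((N + i : ℕ) : ℝ))‖ ≤
        K * (N : ℝ) ^ (1 - δ) := by
  have hα0 : 0 < α := by linarith
  have hne : h ≠ 0 := by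
    rintro rfl
    simp at hh
  obtain ⟨c, hc, hlarge⟩ := Ak_large hne hα1 hα (m + 1)
  obtain ⟨K₁, hK1, hb1⟩ := exp_block (k := m + 1) hV1 h hα0 hc
  obtain ⟨K₂, hK2, hb2⟩ := exp_block (k := m + 2) hV2 h hα0 hc
  refine ⟨2 * K₁ + K₂, by positivity, ?_⟩
  intro N hN L hL ξ hlow hup
  have hN1 : (1 : ℝ) ≤ N := by exact_mod_cast hN
  set Λ : ℝ := (N : ℝ) ^ α + |ξ| with hΛ
  have hΛ0 : 0 < Λ := by
    have : 0 < (N : ℝ) ^ α := Real.rpow_pos_of_pos (by linarith) _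
    have := abs_nonneg ξ
    linarith
  have hT : 0 < c * Λ := mul_pos hc hΛ0
  have hmono : ∀ x y : ℝ, 0 < x → x ≤ y → Ak h α ξ (m + 1) x ≤ Ak h α ξ (m + 1) y :=
    fun x y hx hxy => Ak_mono hα0 (k := m + 1) hh.le ξ hx hxy
  have hmonoN : ∀ i j : ℕ, i ≤ j →
      Ak h α ξ (m + 1) ((N : ℝ) + i) ≤ Ak h α ξ (m + 1) ((N : ℝ) + j) := by
    intro i j hij
    have hij' : (i : ℝ) ≤ j := by exact_mod_cast hij
    have hi0 : (0 : ℝ) ≤ i := Nat.cast_nonneg i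
    exact hmono _ _ (by linarith) (by linarith)
  obtain ⟨a, haL, ha⟩ := lev_split (fun i : ℕ => Ak h α ξ (m + 1) ((N : ℝ) + i) ≤ -(c * Λ))
    (fun i j hij hj => (hmonoN i j hij).trans hj) L
  obtain ⟨b, hbL, hb⟩ := lev_split (fun i : ℕ => Ak h α ξ (m + 1) ((N : ℝ) + i) < c * Λ)
    (fun i j hij hj => (hmonoN i j hij).trans_lt hj) L
  have hab : a ≤ b := by
    by_contra hcon
    have hba : b < a := not_le.1 hcon
    have hbL' : b < L := hba.trans_le haL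
    have h3 := (ha b hbL').1 hba
    have h4 : Ak h α ξ (m + 1) ((N : ℝ) + b) < c * Λ := by linarith
    exact lt_irrefl _ ((hb b hbL').2 h4)
  -- the exponents
  have e1 : ((m + 1 : ℕ) : ℝ) + 1 - 5 / 4 = (m : ℝ) + 2 - 5 / 4 := by push_cast; ring
  have e2 : ((m + 1 : ℕ) : ℝ) + 1 - 1 / 4 = (m : ℝ) + 2 - 1 / 4 := by push_cast; ring
  have e3 : ((m + 2 : ℕ) : ℝ) + 1 - 9 / 4 = (m : ℝ) + 2 - 5 / 4 := by push_cast; ring
  have e4 : ((m + 2 : ℕ) : ℝ) + 1 - 5 / 4 = (m : ℝ) + 2 - 1 / 4 := by push_cast; ring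
  -- the three blocks
  have B1 := hb1 N 0 a ξ hN (by omega) (by rw [e1]; exact hlow) (by rw [e2]; exact hup)
    (Or.inr (by
      rintro z ⟨hz1, hz2⟩
      rw [Nat.cast_zero, add_zero] at hz1 hz2
      rcases Nat.eq_zero_or_pos a with h0 | h0
      · rw [h0, Nat.cast_zero] at hz2
        linarith
      · obtain ⟨a', rfl⟩ : ∃ a', a = a' + 1 := ⟨a - 1, by omega⟩
        have h3 := (ha a' (by omega)).1 (by omega)
        push_cast at hz2
        exact (hmono z (N + a') (by linarith) (by linarith)).trans h3))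
  have B2 := hb2 N a (b - a) ξ hN (by omega) (by rw [e3]; exact hlow) (by rw [e4]; exact hup)
    (Or.inl (by
      rintro z ⟨hz1, hz2⟩
      have ha0 : (0 : ℝ) ≤ a := Nat.cast_nonneg a
      rcases hab.eq_or_lt with h0 | h0
      · rw [h0, Nat.sub_self, Nat.cast_zero] at hz2
        rw [h0] at hz1
        linarith
      · obtain ⟨b', rfl⟩ : ∃ b', b = b' + 1 := ⟨b - 1, by omega⟩
        have h3 := (hb b' (by omega)).1 (by omega)
        have h4 : -(c * Λ) < Ak h α ξ (m + 1) ((N : ℝ) + a) := by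
          by_contra hcon
          exact lt_irrefl _ ((ha a (by omega)).2 (not_lt.1 hcon))
        rw [Nat.cast_sub hab] at hz2
        push_cast at hz2
        have h5 := hmono z (N + b') (by linarith) (by linarith)
        have h6 := hmono (N + a) z (by linarith) hz1
        refine (hlarge N ξ z hN1 (by linarith) ?_).1 hh
        rw [abs_lt]
        constructor <;> linarith))
  have B3 := hb1 N b (L - b) ξ hN (by omega) (by rw [e1]; exact hlow) (by rw [e2]; exact hup)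
    (Or.inl (by
      rintro z ⟨hz1, hz2⟩
      have hb0 : (0 : ℝ) ≤ b := Nat.cast_nonneg b
      rcases hbL.eq_or_lt with h0 | h0
      · rw [h0, Nat.sub_self, Nat.cast_zero] at hz2
        rw [h0] at hz1
        linarith
      · have h4 : c * Λ ≤ Ak h α ξ (m + 1) ((N : ℝ) + b) := by
          by_contra hcon
          exact lt_irrefl _ ((hb b h0).2 (not_le.1 hcon))
        exact h4.trans (hmono _ z (by linarith) hz1)))
  -- the sum
  let f : ℕ → ℂ := fun i => ee (h * ((N + i : ℕ) : ℝ) ^ α + ξ * log ((N + i : ℕ) : ℝ))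
  have hf : ∀ s i : ℕ, f (s + i) = ee (Fd h α ξ 0 (N + s + i)) := by
    intro s i
    simp only [f, Fd]
    push_cast
    rw [add_assoc]
  have hsum : ∑ i ∈ range L, f i = ∑ i ∈ range a, f (0 + i) + ∑ i ∈ range (b - a), f (a + i) +
      ∑ i ∈ range (L - b), f (b + i) := by
    rw [← Finset.sum_Ico_eq_sum_range f a b, ← Finset.sum_Ico_eq_sum_range f b L]
    simp only [zero_add]
    rw [Finset.range_eq_Ico, Finset.range_eq_Ico, Finset.sum_Ico_consecutive f (Nat.zero_le a) hab,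
      Finset.sum_Ico_consecutive f (Nat.zero_le b) hbL]
  have hN0 : (0 : ℝ) < N := by linarith
  have p1 : (N : ℝ) ^ (1 - δ₁) ≤ (N : ℝ) ^ (1 - δ) :=
    Real.rpow_le_rpow_of_exponent_le hN1 (by linarith)
  have p2 : (N : ℝ) ^ (1 - δ₂) ≤ (N : ℝ) ^ (1 - δ) :=
    Real.rpow_le_rpow_of_exponent_le hN1 (by linarith)
  change ‖∑ i ∈ range L, f i‖ ≤ _
  rw [hsum]
  simp only [hf]
  refine (norm_add_le _ _).trans ((add_le_add_left (norm_add_le _ _) _).trans ?_)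
  have q1 := B1.trans (mul_le_mul_of_nonneg_left p1 hK1)
  have q2 := B2.trans (mul_le_mul_of_nonneg_left p2 hK2)
  have q3 := B3.trans (mul_le_mul_of_nonneg_left p1 hK1)
  linarith

theorem exp_level {α : ℝ} (hα1 : 1 < α) (hα : ∀ n : ℕ, α ≠ n) (m : ℕ) :
    ∃ δ : ℝ, 0 < δ ∧ ∀ h : ℝ, h ≠ 0 → ∃ K : ℝ, 0 ≤ K ∧ ∀ N : ℕ, 1 ≤ N → ∀ L : ℕ, L ≤ N → ∀ ξ : ℝ,
      (N : ℝ) ^ ((m : ℝ) + 2 - 5 / 4) ≤ (N : ℝ) ^ α + |ξ| →
      (N : ℝ) ^ α + |ξ| ≤ (N : ℝ) ^ ((m : ℝ) + 2 - 1 / 4) →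
      ‖∑ i ∈ range L, ee (h * ((N + i : ℕ) : ℝ) ^ α + ξ * log ((N + i : ℕ) : ℝ))‖ ≤
        K * (N : ℝ) ^ (1 - δ) := by
  obtain ⟨δ, hδ, δ₁, δ₂, h1, h2, hV1, hV2⟩ := lev_delta m
  refine ⟨δ, hδ, fun h hh => ?_⟩
  have hne : h * pc α (m + 2) ≠ 0 := mul_ne_zero hh (pc_ne_zero hα _)
  rcases lt_or_gt_of_ne hne with hlt | hgt
  · have hlt' : 0 < -h * pc α (m + 2) := by
      rw [neg_mul]
      linarith
    obtain ⟨K, hK, hb⟩ := exp_level_pos hα1 hα m h1 h2 hV1 hV2 hlt'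
    refine ⟨K, hK, fun N hN L hL ξ hlow hup => ?_⟩
    have h3 := hb N hN L hL (-ξ) (by rwa [abs_neg]) (by rwa [abs_neg])
    rw [← norm_sum_ee_neg]
    have h4 : ∀ i : ℕ, -(h * ((N + i : ℕ) : ℝ) ^ α + ξ * log ((N + i : ℕ) : ℝ)) =
        -h * ((N + i : ℕ) : ℝ) ^ α + -ξ * log ((N + i : ℕ) : ℝ) := by
      intro i
      ring
    simp only [h4]
    exact h3
  · exact exp_level_pos hα1 hα m h1 h2 hV1 hV2 hgt

end MargE
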