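import Pool.Agent.MargE.WtTrig
import Pool.Agent.MargE.FlowW
import Pool.Agent.MargE.Floor

/-!
# The times `⌊n ^ α⌋` with almost every speed (PACKAGE EC4, assembly)

`dim_floor`. If `α = m` is a natural number then `⌊k ^ α⌋₊ = k ^ α` (`Real.rpow_natCast`, `Nat.floor_natCast`) and the claim is
`MargS.dim_speed_flow` with `b = m`, `σ = sgN m` (`Marg.sgN_lt_one`). Otherwise `α > 1` is not a natural number. Let `b = ⌈α⌉₊`, `δ` from
`wt_trig`, `σ = max (sgN b) (swN b h1) < 1`. Let `z` be given, `z c t = z (t - c)` for `c : ℚ`, again continuous, bounded by `C`, uniformly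
continuous, with mean value `L`: `∫ t in 0..T, z (t - c) = ∫ t in (-c)..(T - c), z t`, which differs from `∫ t in 0..T, z t` by at most `2 C |c|`. The
following sets have dimension at most `σ` (`MargS.dim_speed_flow`, `dim_weights_flow` with the weights of `wt_trig` for
`h : ℤ`, `h ≠ 0`, applied to `z c` and to the constant function `1`):
`{s > 0 | ¬ (∑ k < n, z (s k ^ α - c)) / n → L}`, `{s > 0 | ¬ (∑ k < n, cos (2 π h k ^ α) z (s k ^ α - c)) / n → 0}`, the same with `sin`,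
`{s > 0 | ¬ (∑ k < n, cos (2 π h k ^ α) * 1) / n → 0}`, the same with `sin`. So does their union over `c : ℚ`, `h : ℤ`, `h ≠ 0`
(`dimH_iUnion`, `dimH_union`), and outside of the union `floor_avg` applies with `t k = k ^ α`.

`floor_speed`: copy the proof of `MargS.equidistributed_speed` (`Pool/Agent/MargS/Flow.lean`) with `dim_floor` (note that here `σ` is
given before the function).
-/

set_option autoImplicit false

open Finset Real MeasureTheory Filter Topology Marg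
open scoped ENNReal NNReal

namespace MargE

/-- the mean value of a translate -/
private theorem mean_shift {z : ℝ → ℝ} (hz : Continuous z) {C : ℝ} (hC : ∀ t, |z t| ≤ C) {L : ℝ}
    (hL : Tendsto (fun T : ℝ => (∫ t in (0 : ℝ)..T, z t) / T) atTop (𝓝 L)) (c : ℝ) :
    Tendsto (fun T : ℝ => (∫ t in (0 : ℝ)..T, z (t - c)) / T) atTop (𝓝 L) := by
  have e1 : ∀ T : ℝ, (∫ t in (0 : ℝ)..T, z (t - c)) = (∫ t in (0 : ℝ)..T, z t) +
      ((∫ t in (-c)..0, z t) - ∫ t in (T - c)..T, z t) := by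
    intro T
    rw [intervalIntegral.integral_comp_sub_right, zero_sub]
    have h1 := intervalIntegral.integral_add_adjacent_intervals
      (hz.intervalIntegrable (μ := volume) (-c) 0) (hz.intervalIntegrable 0 T)
    have h2 := intervalIntegral.integral_add_adjacent_intervals
      (hz.intervalIntegrable (μ := volume) (-c) (T - c)) (hz.intervalIntegrable (T - c) T)
    linarith
  have hb : ∀ a b : ℝ, |∫ t in a..b, z t| ≤ C * |b - a| := by
    intro a b
    have h := intervalIntegral.norm_integral_le_of_norm_le_const (a := a) (b := b) (f := z)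
      (C := C) fun t _ => by rw [Real.norm_eq_abs]; exact hC t
    rwa [Real.norm_eq_abs] at h
  have h0 : Tendsto (fun T : ℝ => ((∫ t in (-c)..0, z t) - ∫ t in (T - c)..T, z t) / T) atTop
      (𝓝 0) := by
    have h2 : Tendsto (fun T : ℝ => (2 * C * |c|) / T) atTop (𝓝 0) :=
      tendsto_const_nhds.div_atTop tendsto_id
    refine squeeze_zero_norm' ?_ h2
    filter_upwards [eventually_gt_atTop 0] with T hT
    rw [Real.norm_eq_abs, abs_div, abs_of_pos hT]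
    refine div_le_div_of_nonneg_right ?_ hT.le
    have h3 := hb (-c) 0
    have h4 := hb (T - c) T
    have e3 : |0 - -c| = |c| := by rw [zero_sub, neg_neg]
    have e4 : |T - (T - c)| = |c| := by rw [sub_sub_cancel]
    rw [e3] at h3
    rw [e4] at h4
    refine (abs_sub _ _).trans ?_
    linarith
  have h3 := hL.add h0
  rw [add_zero] at h3
  refine h3.congr fun T => ?_
  rw [e1, add_div]

theorem dim_floor {α : ℝ} (hα : 1 ≤ α) : ∃ σ : ℝ≥0, σ < 1 ∧ ∀ (z : ℝ → ℝ), Continuous z →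
    (∃ C : ℝ, ∀ t, |z t| ≤ C) →
    (∀ ε : ℝ, 0 < ε → ∃ δ : ℝ, 0 < δ ∧ ∀ t t' : ℝ, |t - t'| ≤ δ → |z t - z t'| ≤ ε) →
    ∀ L : ℝ, Tendsto (fun T : ℝ => (∫ t in (0 : ℝ)..T, z t) / T) atTop (𝓝 L) →
    dimH {s : ℝ | 0 < s ∧ ¬ Tendsto (fun n : ℕ =>
      (∑ k ∈ range n, z (s * (⌊(k : ℝ) ^ α⌋₊ : ℝ))) / (n : ℝ)) atTop (𝓝 L)} ≤ σ := by
  by_cases hm : ∃ m : ℕ, α = m
  · obtain ⟨m, hm⟩ := hm
    refine ⟨sgN m, sgN_lt_one m, fun z hz hC hu L hL => ?_⟩
    obtain ⟨C, hC⟩ := hC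
    have h1 := MargS.dim_speed_flow hz hC hu hL (b := m) hα hm.le
    have e : ∀ k : ℕ, (⌊(k : ℝ) ^ α⌋₊ : ℝ) = (k : ℝ) ^ α := by
      intro k
      rw [hm, Real.rpow_natCast]
      have e1 : (k : ℝ) ^ m = ((k ^ m : ℕ) : ℝ) := by push_cast; rfl
      rw [e1, Nat.floor_natCast]
    simp only [e]
    exact h1
  · push Not at hm
    have hα1 : 1 < α := lt_of_le_of_ne hα fun h => hm 1 (by rw [← h]; norm_num)
    obtain ⟨δ, h0, h1, hw⟩ := wt_trig hα1 hm
    set b := ⌈α⌉₊ with hb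
    have hb' : α ≤ b := Nat.le_ceil α
    refine ⟨max (sgN b) (swN b h1), max_lt (sgN_lt_one b) (swN_lt_one b h0 h1), ?_⟩
    intro z hz hC hu L hL
    obtain ⟨C, hC⟩ := hC
    have hzc : ∀ c : ℚ, Continuous fun t : ℝ => z (t - c) := fun c =>
      hz.comp (continuous_id.sub continuous_const)
    have huc : ∀ c : ℚ, ∀ ε : ℝ, 0 < ε → ∃ δ : ℝ, 0 < δ ∧ ∀ t t' : ℝ, |t - t'| ≤ δ →
        |z (t - c) - z (t' - c)| ≤ ε := by
      intro c ε hε
      obtain ⟨δ', hδ, h⟩ := hu ε hε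
      exact ⟨δ', hδ, fun t t' ht => h _ _ (by rwa [sub_sub_sub_cancel_right])⟩
    let A : ℚ → Set ℝ := fun c => {s : ℝ | 0 < s ∧ ¬ Tendsto (fun n : ℕ =>
      (∑ k ∈ range n, (fun t : ℝ => z (t - c)) (s * (k : ℝ) ^ α)) / (n : ℝ)) atTop (𝓝 L)}
    let B : (ℕ → ℝ) → (ℝ → ℝ) → Set ℝ := fun ω y => {s : ℝ | 0 < s ∧ ¬ Tendsto (fun n : ℕ =>
      (∑ k ∈ range n, ω k * y (s * (k : ℝ) ^ α)) / (n : ℝ)) atTop (𝓝 0)}
    let cw : ℤ → ℕ → ℝ := fun h n => cos (2 * π * (h * (n : ℝ) ^ α))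
    let sw' : ℤ → ℕ → ℝ := fun h n => sin (2 * π * (h * (n : ℝ) ^ α))
    have hA : ∀ c, dimH (A c) ≤ ((max (sgN b) (swN b h1) : ℝ≥0) : ℝ≥0∞) := by
      intro c
      refine (MargS.dim_speed_flow (hzc c) (fun t => hC _) (huc c) (mean_shift hz hC hL c)
        (b := b) hα hb').trans ?_
      exact_mod_cast le_max_left _ _
    have hB : ∀ (c : ℚ) (h : ℤ), h ≠ 0 → dimH (B (cw h) fun t => z (t - c)) ≤
        ((max (sgN b) (swN b h1) : ℝ≥0) : ℝ≥0∞) := by
      intro c h hh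
      refine (dim_weights_flow (ω := cw h) (fun n => abs_cos_le_one _) hα hb' h0 h1
        (hw h (by exact_mod_cast hh)).1 (hzc c) (fun t => hC _) (huc c)).trans ?_
      exact_mod_cast le_max_right _ _
    have hB' : ∀ (c : ℚ) (h : ℤ), h ≠ 0 → dimH (B (sw' h) fun t => z (t - c)) ≤
        ((max (sgN b) (swN b h1) : ℝ≥0) : ℝ≥0∞) := by
      intro c h hh
      refine (dim_weights_flow (ω := sw' h) (fun n => abs_sin_le_one _) hα hb' h0 h1
        (hw h (by exact_mod_cast hh)).2 (hzc c) (fun t => hC _) (huc c)).trans ?_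
      exact_mod_cast le_max_right _ _
    have hone : ∀ ε : ℝ, 0 < ε → ∃ δ : ℝ, 0 < δ ∧ ∀ t t' : ℝ, |t - t'| ≤ δ →
        |(fun _ : ℝ => (1 : ℝ)) t - (fun _ : ℝ => (1 : ℝ)) t'| ≤ ε :=
      fun ε hε => ⟨1, one_pos, fun _ _ _ => by simpa using hε.le⟩
    have hD : ∀ h : ℤ, h ≠ 0 → dimH (B (cw h) fun _ => 1) ≤
        ((max (sgN b) (swN b h1) : ℝ≥0) : ℝ≥0∞) := by
      intro h hh
      refine (dim_weights_flow (ω := cw h) (fun n => abs_cos_le_one _) hα hb' h0 h1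
        (hw h (by exact_mod_cast hh)).1 continuous_const (C := 1) (fun t => by simp)
        hone).trans ?_
      exact_mod_cast le_max_right _ _
    have hD' : ∀ h : ℤ, h ≠ 0 → dimH (B (sw' h) fun _ => 1) ≤
        ((max (sgN b) (swN b h1) : ℝ≥0) : ℝ≥0∞) := by
      intro h hh
      refine (dim_weights_flow (ω := sw' h) (fun n => abs_sin_le_one _) hα hb' h0 h1
        (hw h (by exact_mod_cast hh)).2 continuous_const (C := 1) (fun t => by simp)
        hone).trans ?_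
      exact_mod_cast le_max_right _ _
    let U : ℚ → {h : ℤ // h ≠ 0} → Set ℝ := fun c h => A c ∪ ((B (cw h) fun t => z (t - c)) ∪
      ((B (sw' h) fun t => z (t - c)) ∪ ((B (cw h) fun _ => 1) ∪ (B (sw' h) fun _ => 1))))
    have hU : ∀ c h, dimH (U c h) ≤ ((max (sgN b) (swN b h1) : ℝ≥0) : ℝ≥0∞) := by
      intro c h
      simp only [U, dimH_union]
      exact max_le (hA c) (max_le (hB c h h.2) (max_le (hB' c h h.2)
        (max_le (hD h h.2) (hD' h h.2))))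
    refine (dimH_mono (t := ⋃ c, ⋃ h, U c h) ?_).trans ?_
    · rintro s ⟨hs, hbad⟩
      by_contra hcon
      have hcon' : ∀ c h, s ∉ U c h := fun c h hh =>
        hcon (Set.mem_iUnion.2 ⟨c, Set.mem_iUnion.2 ⟨h, hh⟩⟩)
      apply hbad
      have k1 : ∀ c, s ∉ A c := fun c hc => hcon' c ⟨1, one_ne_zero⟩ (Or.inl hc)
      have k2 : ∀ (c : ℚ) (h : ℤ), h ≠ 0 → s ∉ B (cw h) fun t => z (t - c) :=
        fun c h hh hc => hcon' c ⟨h, hh⟩ (Or.inr (Or.inl hc))
      have k3 : ∀ (c : ℚ) (h : ℤ), h ≠ 0 → s ∉ B (sw' h) fun t => z (t - c) :=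
        fun c h hh hc => hcon' c ⟨h, hh⟩ (Or.inr (Or.inr (Or.inl hc)))
      have k4 : ∀ (h : ℤ), h ≠ 0 → s ∉ B (cw h) fun _ => 1 :=
        fun h hh hc => hcon' 0 ⟨h, hh⟩ (Or.inr (Or.inr (Or.inr (Or.inl hc))))
      have k5 : ∀ (h : ℤ), h ≠ 0 → s ∉ B (sw' h) fun _ => 1 :=
        fun h hh hc => hcon' 0 ⟨h, hh⟩ (Or.inr (Or.inr (Or.inr (Or.inr hc))))
      refine floor_avg hC hu hs (t := fun k => (k : ℝ) ^ α) (fun k => by positivity) ?_ ?_ ?_
        ?_ ?_
      · intro c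
        by_contra h
        exact k1 c ⟨hs, h⟩
      · intro c h hh
        by_contra h'
        exact k2 c h hh ⟨hs, h'⟩
      · intro c h hh
        by_contra h'
        exact k3 c h hh ⟨hs, h'⟩
      · intro h hh
        by_contra h'
        refine k4 h hh ⟨hs, fun h'' => h' ?_⟩
        simpa only [mul_one] using h''
      · intro h hh
        by_contra h'
        refine k5 h hh ⟨hs, fun h'' => h' ?_⟩
        simpa only [mul_one] using h''
    · rw [dimH_iUnion]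
      refine iSup_le fun c => ?_
      rw [dimH_iUnion]
      exact iSup_le fun h => hU c h

section Action

variable {G : Type*} [Group G] [TopologicalSpace G] {X : Type*} [TopologicalSpace X]
  [MulAction G X] [ContinuousSMul G X] [LocallyCompactSpace X] [T2Space X]
  [SecondCountableTopology X] [MeasurableSpace X] [BorelSpace X] {μ : Measure X}
  [IsProbabilityMeasure μ]

theorem floor_speed {α : ℝ} {σ : ℝ≥0}
    (hσ : ∀ (z : ℝ → ℝ), Continuous z → (∃ C : ℝ, ∀ t, |z t| ≤ C) →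
      (∀ ε : ℝ, 0 < ε → ∃ δ : ℝ, 0 < δ ∧ ∀ t t' : ℝ, |t - t'| ≤ δ → |z t - z t'| ≤ ε) →
      ∀ L : ℝ, Tendsto (fun T : ℝ => (∫ t in (0 : ℝ)..T, z t) / T) atTop (𝓝 L) →
      dimH {s : ℝ | 0 < s ∧ ¬ Tendsto (fun n : ℕ =>
        (∑ k ∈ range n, z (s * (⌊(k : ℝ) ^ α⌋₊ : ℝ))) / (n : ℝ)) atTop (𝓝 L)} ≤ σ)
    {u : ℝ → G} (huc : Continuous u) (hu : ∀ s t, u (s + t) = u s * u t) {x : X}
    (hx : MargS.RealEquidistributed μ fun t => u t • x) :
    dimH {s : ℝ | 0 < s ∧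
      ¬ Equidistributed μ fun n : ℕ => u (s * (⌊(n : ℝ) ^ α⌋₊ : ℝ)) • x} ≤ σ := by
  obtain ⟨F, hF, hd⟩ := exists_dense_family X
  have h1 : ∀ i, ∃ C : ℝ, ∀ x, |F i x| ≤ C := by
    intro i
    obtain ⟨C, hC⟩ := (hF i).1.bounded_above_of_compact_support (hF i).2
    exact ⟨C, fun x => by simpa [Real.norm_eq_abs] using hC x⟩
  choose C hC using h1
  have hsub : {s : ℝ | 0 < s ∧
      ¬ Equidistributed μ fun n : ℕ => u (s * (⌊(n : ℝ) ^ α⌋₊ : ℝ)) • x}
      ⊆ ⋃ i : ℕ, {s : ℝ | 0 < s ∧ ¬ Tendsto (fun N : ℕ =>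
      (∑ n ∈ Finset.range N, F i (u (s * (⌊(n : ℝ) ^ α⌋₊ : ℝ)) • x)) / (N : ℝ))
        atTop (𝓝 (∫ p, F i p ∂μ))} := by
    rintro s ⟨h2, h4⟩
    rw [Set.mem_iUnion]
    by_contra hcon
    push Not at hcon
    apply h4
    refine equidistributed_of_family hF hd fun i => ?_
    rw [cesaro_shift (z := fun n : ℕ => F i (u (s * (⌊(n : ℝ) ^ α⌋₊ : ℝ)) • x))
      (fun n => hC i _)]
    by_contra h5
    exact hcon i ⟨h2, h5⟩
  refine (dimH_mono hsub).trans ?_
  rw [dimH_iUnion]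
  apply iSup_le
  intro i
  refine hσ (fun t => F i (u t • x)) ((hF i).1.comp (huc.smul continuous_const))
    ⟨C i, fun t => hC i _⟩ ?_ _ (hx (F i) (hF i).1 (hF i).2)
  intro ε hε
  obtain ⟨δ, hδ, h2⟩ := MargS.unif_flow huc hu (hF i).1 (hF i).2 hε
  refine ⟨δ, hδ, fun t t' ht => ?_⟩
  have h3 := h2 (t - t') ht (u t' • x)
  rwa [smul_smul, ← hu, sub_add_cancel] at h3

end Action

/-- **Homogeneous spaces.** -/
theorem homogeneous_floor {α : ℝ} (hα : 1 ≤ α) : ∃ σ : ℝ≥0, σ < 1 ∧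
    ∀ {G : Type*} [Group G] [TopologicalSpace G] [IsTopologicalGroup G] [T2Space G]
      [LocallyCompactSpace G] (Γ : Subgroup G) [DiscreteTopology Γ]
      [SecondCountableTopology (G ⧸ Γ)] [MeasurableSpace (G ⧸ Γ)] [BorelSpace (G ⧸ Γ)]
      (μ : Measure (G ⧸ Γ)) [IsProbabilityMeasure μ] (u : ℝ → G) (x : G ⧸ Γ),
      Continuous u → (∀ s t, u (s + t) = u s * u t) →
      (MargS.RealEquidistributed μ fun t : ℝ => u t • x) →
      dimH {s : ℝ | 0 < s ∧
        ¬ Equidistributed μ fun n : ℕ => u (s * (⌊(n : ℝ) ^ α⌋₊ : ℝ)) • x} ≤ σ := by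
  obtain ⟨σ, h1, h2⟩ := dim_floor hα
  refine ⟨σ, h1, ?_⟩
  intro G _ _ _ _ _ Γ _ _ _ _ μ _ u x huc hu hx
  have hcl : IsClosed (Γ : Set G) := Subgroup.isClosed_of_discrete
  exact floor_speed h2 huc hu hx

end MargE
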