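import Pool.Agent.MargE.Planch
import Pool.Agent.MargE.Defs

/-!
# The `L²` norm of a combination of translates (PACKAGE EB2)

Proof of `l2_mult`. Let `g u = ∑ i < N, w i * f (u + t i)`, integrable and square integrable. `𝓕 g ξ = (∑ i < N, w i * ee (ξ * t i)) * 𝓕 f ξ`
(`𝓕 g ξ = ∫ exp (- 2 π i v ξ) g v`, `Real.fourier_eq'` or `Real.fourierIntegral_eq'`; translation invariance of the integral). By `plancherel`
for `g`: `∫ ‖g‖ ^ 2 = ∫ ‖𝓕 g‖ ^ 2`. For `|ξ| ≤ X`: `‖𝓕 g ξ‖ ^ 2 ≤ S ^ 2 ‖𝓕 f ξ‖ ^ 2`; for `|ξ| > X`: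
`‖𝓕 g ξ‖ ^ 2 ≤ N ^ 2 D ^ 2 / ξ ^ 2`. So `‖𝓕 g ξ‖ ^ 2 ≤ S ^ 2 ‖𝓕 f ξ‖ ^ 2 + N ^ 2 D ^ 2 k ξ`, where `k ξ = 1 / ξ ^ 2` for
`|ξ| > X` and `0` otherwise, `∫ k = 2 / X` (`integral_Ioi_rpow_of_lt` and its mirror image). Use `plancherel` for `f`.
-/

set_option autoImplicit false

open MeasureTheory Finset
open scoped FourierTransform

namespace MargE

open Classical in
private noncomputable def ml_k (X : ℝ) (r : ℝ) : ℝ := if X < r then r ^ (-2 : ℝ) else 0

private theorem ml_int {X : ℝ} (hX : 0 < X) : ∫ ξ : ℝ, ml_k X |ξ| = 2 / X := by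
  rw [integral_comp_abs (f := ml_k X)]
  have h1 : ∫ x in Set.Ioi (0 : ℝ), ml_k X x = ∫ x in Set.Ioi X, x ^ (-2 : ℝ) := by
    have h2 : (Set.Ioi (0 : ℝ)).indicator (ml_k X) =
        (Set.Ioi X).indicator fun x => x ^ (-2 : ℝ) := by
      funext x
      by_cases hx : X < x
      · rw [Set.indicator_of_mem (Set.mem_Ioi.2 (hX.trans hx)),
          Set.indicator_of_mem (Set.mem_Ioi.2 hx)]
        exact if_pos hx
      · have hx' : x ∉ Set.Ioi X := hx
        rw [Set.indicator_of_notMem hx']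
        by_cases h0 : 0 < x
        · rw [Set.indicator_of_mem (Set.mem_Ioi.2 h0)]
          exact if_neg hx
        · have h0' : x ∉ Set.Ioi (0 : ℝ) := h0
          rw [Set.indicator_of_notMem h0']
    rw [← integral_indicator measurableSet_Ioi, h2, integral_indicator measurableSet_Ioi]
  rw [h1, integral_Ioi_rpow_of_lt (by norm_num) hX]
  have h3 : X ^ ((-2 : ℝ) + 1) = X⁻¹ := by
    rw [show (-2 : ℝ) + 1 = -1 by norm_num, Real.rpow_neg_one]
  rw [h3]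
  field_simp
  norm_num

private theorem ml_integrable {X : ℝ} (hX : 0 < X) : Integrable fun ξ : ℝ => ml_k X |ξ| := by
  by_contra h
  have h1 := ml_int hX
  rw [integral_undef h] at h1
  have h2 : 0 < 2 / X := by positivity
  exact h2.ne h1

private theorem ml_four {f : ℝ → ℂ} (hf : Integrable f) (N : ℕ) (w : ℕ → ℂ) (t : ℕ → ℝ)
    (ξ : ℝ) : 𝓕 (fun u => ∑ i ∈ range N, w i * f (u + t i)) ξ =
      (∑ i ∈ range N, w i * ee (ξ * t i)) * 𝓕 f ξ := by
  rw [Real.fourier_real_eq_integral_exp_smul, Real.fourier_real_eq_integral_exp_smul]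
  have hb : ∀ i, Integrable fun v : ℝ =>
      Complex.exp (((-2 * Real.pi * v * ξ : ℝ) : ℂ) * Complex.I) • (w i * f (v + t i)) := by
    intro i
    refine ((hf.comp_add_right (t i)).const_mul (w i)).bdd_mul (c := 1) ?_ ?_
    · exact (Continuous.aestronglyMeasurable (by fun_prop))
    · exact Filter.Eventually.of_forall fun v => (Complex.norm_exp_ofReal_mul_I _).le
  have h1 : ∀ i, ∫ v : ℝ,
      Complex.exp (((-2 * Real.pi * v * ξ : ℝ) : ℂ) * Complex.I) • (w i * f (v + t i)) =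
      (w i * ee (ξ * t i)) * ∫ v : ℝ,
        Complex.exp (((-2 * Real.pi * v * ξ : ℝ) : ℂ) * Complex.I) • f v := by
    intro i
    rw [← integral_const_mul, ← integral_add_right_eq_self (fun v => (w i * ee (ξ * t i)) *
      Complex.exp (((-2 * Real.pi * v * ξ : ℝ) : ℂ) * Complex.I) • f v) (t i)]
    refine integral_congr_ae (Filter.Eventually.of_forall fun v => ?_)
    beta_reduce
    have h2 : Complex.exp (((-2 * Real.pi * v * ξ : ℝ) : ℂ) * Complex.I) =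
        ee (ξ * t i) *
          Complex.exp (((-2 * Real.pi * (v + t i) * ξ : ℝ) : ℂ) * Complex.I) := by
      unfold ee
      rw [← Complex.exp_add]
      congr 1
      push_cast
      ring
    rw [h2]
    simp only [smul_eq_mul]
    ring
  rw [Finset.sum_mul, ← Finset.sum_congr rfl fun i _ => h1 i, ← integral_finsetSum _
    fun i _ => hb i]
  refine integral_congr_ae (Filter.Eventually.of_forall fun v => ?_)
  beta_reduce
  rw [Finset.smul_sum]

theorem l2_mult {f : ℝ → ℂ} (hf : Integrable f) (hf2 : MemLp f 2) (N : ℕ) (w : ℕ → ℂ)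
    (t : ℕ → ℝ) (hw : ∀ i, ‖w i‖ ≤ 1) {X S D : ℝ} (hX : 0 < X) (hS0 : 0 ≤ S) (hD0 : 0 ≤ D)
    (hS : ∀ ξ : ℝ, |ξ| ≤ X → ‖∑ i ∈ range N, w i * ee (ξ * t i)‖ ≤ S)
    (hD : ∀ ξ : ℝ, X < |ξ| → ‖𝓕 f ξ‖ ≤ D / |ξ|) :
    ∫ u, ‖∑ i ∈ range N, w i * f (u + t i)‖ ^ 2 ≤
      S ^ 2 * (∫ u, ‖f u‖ ^ 2) + (N : ℝ) ^ 2 * D ^ 2 * (2 / X) := by
  have hg1 : Integrable (fun u => ∑ i ∈ range N, w i * f (u + t i)) :=
    integrable_finsetSum _ fun i _ => (hf.comp_add_right (t i)).const_mul (w i)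
  have hg2 : MemLp (fun u => ∑ i ∈ range N, w i * f (u + t i)) 2 :=
    memLp_finsetSum _ fun i _ =>
      (hf2.comp_measurePreserving (measurePreserving_add_right volume (t i))).const_mul (w i)
  obtain ⟨hG, hGi⟩ := plancherel hg1 hg2
  obtain ⟨hF, hFi⟩ := plancherel hf hf2
  rw [← hGi, ← hFi]
  have hGn := (memLp_two_iff_integrable_sq_norm hG.1).1 hG
  have hFn := (memLp_two_iff_integrable_sq_norm hF.1).1 hF
  rw [← ml_int hX, ← integral_const_mul, ← integral_const_mul, ← integral_add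
    (hFn.const_mul _) ((ml_integrable hX).const_mul _)]
  refine integral_mono hGn ((hFn.const_mul _).add ((ml_integrable hX).const_mul _)) fun ξ => ?_
  beta_reduce
  rw [ml_four hf N w t ξ, norm_mul, mul_pow]
  rcases le_or_gt |ξ| X with h | h
  · have h1 : ml_k X |ξ| = 0 := if_neg (not_lt.2 h)
    rw [h1, mul_zero, add_zero]
    exact mul_le_mul_of_nonneg_right (pow_le_pow_left₀ (norm_nonneg _) (hS ξ h) 2) (by positivity)
  · have h1 : ml_k X |ξ| = |ξ| ^ (-2 : ℝ) := if_pos h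
    have h0 : 0 < |ξ| := hX.trans h
    have h2 : |ξ| ^ (-2 : ℝ) = (1 / |ξ|) ^ 2 := by
      rw [Real.rpow_neg h0.le, one_div, inv_pow]
      congr 1
      exact_mod_cast Real.rpow_natCast |ξ| 2
    have h3 : ‖∑ i ∈ range N, w i * ee (ξ * t i)‖ ≤ N := by
      refine (norm_sum_le _ _).trans ?_
      have h4 : ∀ i ∈ range N, ‖w i * ee (ξ * t i)‖ ≤ 1 := fun i _ => by
        rw [norm_mul, norm_ee, mul_one]
        exact hw i
      refine (Finset.sum_le_sum h4).trans ?_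
      simp
    have h5 : ‖∑ i ∈ range N, w i * ee (ξ * t i)‖ ^ 2 ≤ (N : ℝ) ^ 2 :=
      pow_le_pow_left₀ (norm_nonneg _) h3 2
    have h6 : ‖𝓕 f ξ‖ ^ 2 ≤ (D / |ξ|) ^ 2 := pow_le_pow_left₀ (norm_nonneg _) (hD ξ h) 2
    have h7 : ‖∑ i ∈ range N, w i * ee (ξ * t i)‖ ^ 2 * ‖𝓕 f ξ‖ ^ 2 ≤
        (N : ℝ) ^ 2 * (D / |ξ|) ^ 2 := mul_le_mul h5 h6 (by positivity) (by positivity)
    have h8 : 0 ≤ S ^ 2 * ‖𝓕 f ξ‖ ^ 2 := by positivity
    rw [h1, h2]
    have h9 : (N : ℝ) ^ 2 * (D / |ξ|) ^ 2 = (N : ℝ) ^ 2 * D ^ 2 * (1 / |ξ|) ^ 2 := by ring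
    linarith

end MargE
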