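import Pool.Agent.MargE.Cont
import Pool.Agent.MargS.Seq

/-!
# Hausdorff dimension of the exceptional set, bounded sequences with weights (PACKAGE EB7)

`hcont_null`. Copy the proof of `MargS.hcont_RM_zero` (`Pool/Agent/MargS/L2.lean`): for `ε > 0` the contents of
`{0 ≤ u ≤ 1, ε < |TW ω z β c (M ^ D) u|}`, `M` large, are at most `C (M ^ D) ^ (-δ) ≤ C M ^ (-2)` (`hcont_block`, `M ^ D → ∞`, `D ≥ 1`), a
summable sequence; `measure_limsup_atTop_eq_zero`; union over `ε = 1 / (k + 1)`.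

`dim_weights`. Let `B = max C 1`, `y n = z n / B`, `|y n| ≤ 1`. Let `D = ⌈2 / δ⌉₊ + 1`. For `c : ℤ` let
`S c = {u | 0 ≤ u ≤ 1, ¬ Tendsto (fun M => TW ω y β c (M ^ D) u) atTop (𝓝 0)}`; `dimH (S c) ≤ swN b h1` (`hcont_null`, `Marg.dimH_le_of_hcont`), also for
the image under `u ↦ exp (u + c)` (see the proof of `MargS.dim_speed` in `Pool/Agent/MargS/Seq.lean`, copy it). Let `s > 0`,
`c = ⌊log s⌋`, `u = log s - c ∈ [0, 1]`, and suppose that `u ∉ S c`. `ZE y (u + lc β c x) = y ⌊exp (u + c) x ^ β⌋₊ = y ⌊s x ^ β⌋₊`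
(`MargS.lc_exp`, `MargS.ZE`, `Marg.zf`), so with `a k = ω k * y ⌊s k ^ β⌋₊` the block averages
`(∑ i < M ^ D, a (M ^ D + i)) / M ^ D` tend to zero, and `Marg.block_to_full` (`Pool/Agent/Marg/Seq.lean`, `|a k| ≤ 1`, `D ≥ 1`) gives
`(∑ k < n, a k) / n → 0`. Multiply by `B`.
-/

set_option autoImplicit false

open Finset Real MeasureTheory Filter Topology Marg
open scoped ENNReal NNReal

namespace MargE

theorem hcont_null {ω : ℕ → ℝ} (hω : ∀ n, |ω n| ≤ 1) {β : ℝ} (hβ : 1 ≤ β) {b : ℕ} (hb : β ≤ b)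
    {δ : ℝ} (h0 : 0 < δ) (h1 : δ ≤ 1) (h : Wt ω β δ) (c : ℝ) {D : ℕ} (hD1 : 1 ≤ D)
    (hD : 2 ≤ D * δ) {z : ℕ → ℝ} (hz : ∀ n, |z n| ≤ 1) :
    hcont (sw b δ) (sw_pos b h1)
      {u | 0 ≤ u ∧ u ≤ 1 ∧ ¬ Tendsto (fun M : ℕ => TW ω z β c (M ^ D) u) atTop (𝓝 0)} = 0 := by
  have key : ∀ ε : ℝ, 0 < ε → hcont (sw b δ) (sw_pos b h1)
      {u | ∃ᶠ M : ℕ in atTop, 0 ≤ u ∧ u ≤ 1 ∧ ε < |TW ω z β c (M ^ D) u|} = 0 := by
    intro ε hε
    obtain ⟨C, hC0, hC⟩ := hcont_block hω hβ hb h0 h1 h c hε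
    have hpow : Tendsto (fun M : ℕ => M ^ D) atTop atTop := tendsto_pow_atTop (by omega)
    have hC2 : ∀ᶠ M : ℕ in atTop, hcont (sw b δ) (sw_pos b h1)
        {u | 0 ≤ u ∧ u ≤ 1 ∧ ε < |TW ω z β c (M ^ D) u|}
          ≤ ENNReal.ofReal (C * (M : ℝ) ^ (-2 : ℝ)) := by
      filter_upwards [hpow.eventually hC, eventually_ge_atTop 1] with M hM hM1
      refine (hM z hz).trans (ENNReal.ofReal_le_ofReal ?_)
      have hμ : (1 : ℝ) ≤ M := by exact_mod_cast hM1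
      have e : ((M ^ D : ℕ) : ℝ) ^ (-δ) = (M : ℝ) ^ (-(D * δ)) := by
        push_cast
        rw [← Real.rpow_natCast, ← Real.rpow_mul (by linarith)]
        congr 1
        ring
      rw [e]
      apply mul_le_mul_of_nonneg_left _ hC0
      exact Real.rpow_le_rpow_of_exponent_le hμ (by linarith)
    obtain ⟨M0, hM0⟩ := eventually_atTop.1 hC2
    have hsum : Summable (fun M : ℕ => C * ((M + M0 : ℕ) : ℝ) ^ (-2 : ℝ)) := by
      apply Summable.mul_left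
      have h2 : Summable (fun M : ℕ => (M : ℝ) ^ (-2 : ℝ)) := by
        rw [Real.summable_nat_rpow]; norm_num
      exact (summable_nat_add_iff (f := fun M : ℕ => (M : ℝ) ^ (-2 : ℝ)) M0).2 h2
    have h3 : ∑' M : ℕ, hcont (sw b δ) (sw_pos b h1)
        {u | 0 ≤ u ∧ u ≤ 1 ∧ ε < |TW ω z β c ((M + M0) ^ D) u|} ≠ ⊤ := by
      refine ne_top_of_le_ne_top ?_ (ENNReal.tsum_le_tsum fun M => hM0 (M + M0) (by omega))
      rw [← ENNReal.ofReal_tsum_of_nonneg (fun M => by positivity) hsum]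
      exact ENNReal.ofReal_ne_top
    have h4 := measure_limsup_atTop_eq_zero h3
    refine measure_mono_null ?_ h4
    intro u hu
    rw [mem_limsup_iff_frequently_mem]
    have hu' : ∃ᶠ M : ℕ in atTop, 0 ≤ u ∧ u ≤ 1 ∧ ε < |TW ω z β c (M ^ D) u| := hu
    rw [frequently_atTop] at hu' ⊢
    intro a
    obtain ⟨M, hM, hM2⟩ := hu' (a + M0)
    refine ⟨M - M0, by omega, ?_⟩
    have : M - M0 + M0 = M := by omega
    simp only [Set.mem_ofPred_eq, this]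
    exact hM2
  have hsub : {u | 0 ≤ u ∧ u ≤ 1 ∧
      ¬ Tendsto (fun M : ℕ => TW ω z β c (M ^ D) u) atTop (𝓝 0)}
      ⊆ ⋃ k : ℕ, {u | ∃ᶠ M : ℕ in atTop,
          0 ≤ u ∧ u ≤ 1 ∧ 1 / ((k : ℝ) + 1) < |TW ω z β c (M ^ D) u|} := by
    rintro u ⟨h1, h2, h3⟩
    rw [Set.mem_iUnion]
    by_contra hcon
    push Not at hcon
    apply h3
    rw [Metric.tendsto_atTop]
    intro ε hε
    obtain ⟨k, hk⟩ := exists_nat_one_div_lt hε
    have h4 : ¬ ∃ᶠ M : ℕ in atTop,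
        0 ≤ u ∧ u ≤ 1 ∧ 1 / ((k : ℝ) + 1) < |TW ω z β c (M ^ D) u| := hcon k
    rw [not_frequently, eventually_atTop] at h4
    obtain ⟨M0, hM0⟩ := h4
    refine ⟨M0, fun M hM => ?_⟩
    have h5 := hM0 M hM
    rw [Real.dist_eq, sub_zero]
    by_contra h6
    push Not at h6
    exact h5 ⟨h1, h2, hk.trans_le h6⟩
  refine measure_mono_null hsub ?_
  rw [measure_iUnion_null_iff]
  intro k
  exact key _ (by positivity)

theorem dim_weights {ω : ℕ → ℝ} (hω : ∀ n, |ω n| ≤ 1) {β : ℝ} (hβ : 1 ≤ β) {b : ℕ} (hb : β ≤ b)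
    {δ : ℝ} (h0 : 0 < δ) (h1 : δ ≤ 1) (h : Wt ω β δ) {z : ℕ → ℝ} {C : ℝ} (hz : ∀ n, |z n| ≤ C) :
    dimH {s : ℝ | 0 < s ∧ ¬ Tendsto (fun n : ℕ =>
      (∑ k ∈ range n, ω k * z ⌊s * (k : ℝ) ^ β⌋₊) / (n : ℝ)) atTop (𝓝 0)} ≤ swN b h1 := by
  set B : ℝ := max C 1 with hB
  have hB1 : 1 ≤ B := le_max_right _ _
  have hB0 : 0 < B := by linarith
  set y : ℕ → ℝ := fun n => z n / B with hy
  have hyb : ∀ n, |y n| ≤ 1 := by
    intro n
    simp only [hy]
    rw [abs_div, abs_of_pos hB0, div_le_one hB0]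
    exact (hz n).trans (le_max_left _ _)
  set D : ℕ := ⌈2 / δ⌉₊ + 1 with hDdef
  have hD1 : 1 ≤ D := by omega
  have hD : 2 ≤ (D : ℝ) * δ := by
    have h2 : 2 / δ ≤ (D : ℝ) := by
      refine (Nat.le_ceil _).trans ?_
      rw [hDdef]
      push_cast
      linarith
    rwa [div_le_iff₀ h0] at h2
  set S : ℤ → Set ℝ := fun c =>
    {u | 0 ≤ u ∧ u ≤ 1 ∧ ¬ Tendsto (fun M : ℕ => TW ω y β c (M ^ D) u) atTop (𝓝 0)} with hS
  have hdS : ∀ c, dimH (S c) ≤ swN b h1 := fun c =>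
    dimH_le_of_hcont (σ := swN b h1) (hσ := sw_pos b h1)
      (hcont_null hω hβ hb h0 h1 h c hD1 hD hyb)
  have himg : ∀ c : ℤ, dimH ((fun u : ℝ => exp (u + c)) '' S c) ≤ dimH (S c) := by
    intro c
    apply ContDiffOn.dimH_image_le (s := Set.univ) (f := fun u : ℝ => exp (u + c)) _ convex_univ
      (Set.subset_univ _)
    exact (Real.contDiff_exp.comp (contDiff_id.add contDiff_const)).contDiffOn
  have hsub : {s : ℝ | 0 < s ∧ ¬ Tendsto (fun n : ℕ =>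
      (∑ k ∈ range n, ω k * z ⌊s * (k : ℝ) ^ β⌋₊) / (n : ℝ)) atTop (𝓝 0)}
      ⊆ ⋃ c : ℤ, (fun u : ℝ => exp (u + c)) '' S c := by
    rintro s ⟨h1, h3⟩
    rw [Set.mem_iUnion]
    have e1 : log s - (⌊log s⌋ : ℤ) + (⌊log s⌋ : ℤ) = log s := by ring
    have g1 : (0 : ℝ) ≤ log s - (⌊log s⌋ : ℤ) := by linarith [Int.floor_le (log s)]
    have g2 : log s - (⌊log s⌋ : ℤ) ≤ 1 := by linarith [Int.lt_floor_add_one (log s)]
    refine ⟨⌊log s⌋, log s - (⌊log s⌋ : ℤ), ⟨g1, g2, ?_⟩, ?_⟩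
    · intro hT
      apply h3
      have h4 : Tendsto (fun n : ℕ =>
          (∑ k ∈ range n, ω k * y ⌊s * (k : ℝ) ^ β⌋₊) / (n : ℝ)) atTop (𝓝 0) := by
        apply block_to_full (w := fun k => ω k * y ⌊s * (k : ℝ) ^ β⌋₊) (d := D) _ hD1
        · refine hT.congr' ?_
          filter_upwards [eventually_ge_atTop 1] with M hM
          unfold TW
          congr 1
          refine Finset.sum_congr rfl fun i _ => ?_
          have h5 : (0 : ℝ) < ((M ^ D + i : ℕ) : ℝ) := by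
            have h6 : 0 < M ^ D := pow_pos (by omega) D
            have : 0 < M ^ D + i := by omega
            exact_mod_cast this
          unfold MargS.ZE zf
          have e2 : exp (log s - (⌊log s⌋ : ℤ) + MargS.lc β (⌊log s⌋ : ℤ) ((M ^ D + i : ℕ) : ℝ))
              = s * ((M ^ D + i : ℕ) : ℝ) ^ β := by
            rw [MargS.lc_exp h5, e1, Real.exp_log h1]
          rw [e2]
        · intro n
          rw [abs_mul]
          exact mul_le_one₀ (hω n) (abs_nonneg _) (hyb _)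
      have h5 := h4.const_mul B
      rw [mul_zero] at h5
      refine h5.congr fun n => ?_
      rw [← mul_div_assoc, Finset.mul_sum]
      congr 1
      refine Finset.sum_congr rfl fun k _ => ?_
      simp only [hy]
      field_simp
    · simp only
      rw [e1, Real.exp_log h1]
  refine (dimH_mono hsub).trans ?_
  rw [dimH_iUnion]
  exact iSup_le fun c => (himg c).trans (hdS c)

end MargE
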