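import Pool.Agent.MargE.Main

/-!
# The times `⌊n ^ α⌋` on the orbits of the expanding group

If `a r * u t * (a r)⁻¹ = u (exp r * t)` then `u k • a r • x = a r • u (exp (-r) * k) • x`, so that
the exceptional `r` are the numbers `-log s`, `s` an exceptional speed (`MargE.floor_speed`).
-/

set_option autoImplicit false

open Finset Real MeasureTheory Filter Topology Marg
open scoped ENNReal NNReal

namespace MargE

section Action

variable {G : Type*} [Group G] [TopologicalSpace G] {X : Type*} [TopologicalSpace X]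
  [MulAction G X] [ContinuousSMul G X] [MeasurableSpace X] [BorelSpace X] {μ : Measure X}

theorem floor_orbit {α : ℝ} {σ : ℝ≥0} {u : ℝ → G} {x : X}
    (h1 : dimH {s : ℝ | 0 < s ∧
      ¬ Equidistributed μ fun n : ℕ => u (s * (⌊(n : ℝ) ^ α⌋₊ : ℝ)) • x} ≤ σ)
    {a : ℝ → G} (ha : ∀ r t, a r * u t * (a r)⁻¹ = u (exp r * t))
    (hμ : ∀ r, μ.map (fun p => a r • p) = μ) :
    dimH {r : ℝ | ¬ Equidistributed μ fun n : ℕ => u (⌊(n : ℝ) ^ α⌋₊ : ℝ) • a r • x} ≤ σ := by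
  set S : Set ℝ := {s : ℝ | 0 < s ∧
    ¬ Equidistributed μ fun n : ℕ => u (s * (⌊(n : ℝ) ^ α⌋₊ : ℝ)) • x} with hS
  have h2 : dimH ((fun s : ℝ => -log s) '' S) ≤ dimH S := by
    apply ContDiffOn.dimH_image_le (s := Set.Ioi (0 : ℝ)) (f := fun s : ℝ => -log s) _
      (convex_Ioi 0) (fun s hs => hs.1)
    exact (Real.contDiffOn_log.mono fun s hs => ne_of_gt hs).neg
  refine (dimH_mono ?_).trans (h2.trans h1)
  intro r hr
  refine ⟨exp (-r), ⟨exp_pos _, fun h3 => hr ?_⟩, by simp⟩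
  have h4 := MargS.equidistributed_smul (hμ r) h3
  refine (congrArg (Equidistributed μ) (funext fun n => ?_)).mp h4
  have h5 : u (⌊(n : ℝ) ^ α⌋₊ : ℝ) * a r = a r * u (exp (-r) * (⌊(n : ℝ) ^ α⌋₊ : ℝ)) := by
    have h6 := ha r (exp (-r) * (⌊(n : ℝ) ^ α⌋₊ : ℝ))
    rw [← mul_assoc, ← exp_add, add_neg_cancel, exp_zero, one_mul] at h6
    rw [← h6, inv_mul_cancel_right]
  rw [smul_smul, smul_smul, h5]

end Action

/-- **Homogeneous spaces.** Speeds, and points of the orbits of the expanding group. -/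
theorem homogeneous_floor_orbit {α : ℝ} (hα : 1 ≤ α) : ∃ σ : ℝ≥0, σ < 1 ∧
    ∀ {G : Type*} [Group G] [TopologicalSpace G] [IsTopologicalGroup G] [T2Space G]
      [LocallyCompactSpace G] (Γ : Subgroup G) [DiscreteTopology Γ]
      [SecondCountableTopology (G ⧸ Γ)] [MeasurableSpace (G ⧸ Γ)] [BorelSpace (G ⧸ Γ)]
      (μ : Measure (G ⧸ Γ)) [IsProbabilityMeasure μ] (u : ℝ → G) (x : G ⧸ Γ),
      Continuous u → (∀ s t, u (s + t) = u s * u t) →
      (MargS.RealEquidistributed μ fun t : ℝ => u t • x) →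
      dimH {s : ℝ | 0 < s ∧
        ¬ Equidistributed μ fun n : ℕ => u (s * (⌊(n : ℝ) ^ α⌋₊ : ℝ)) • x} ≤ σ ∧
      ∀ a : ℝ → G, (∀ r t, a r * u t * (a r)⁻¹ = u (exp r * t)) →
        (∀ r, μ.map (fun p => a r • p) = μ) →
        dimH {r : ℝ | ¬ Equidistributed μ fun n : ℕ =>
          u (⌊(n : ℝ) ^ α⌋₊ : ℝ) • a r • x} ≤ σ := by
  obtain ⟨σ, h1, h2⟩ := homogeneous_floor hα
  refine ⟨σ, h1, ?_⟩
  intro G _ _ _ _ _ Γ _ _ _ _ μ _ u x huc hu hx
  exact ⟨h2 Γ μ u x huc hu hx, fun a ha hμ => floor_orbit (h2 Γ μ u x huc hu hx) ha hμ⟩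

end MargE
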