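import Mathlib

/-!
# Plancherel for integrable square integrable functions (PACKAGE EB1)

Proof. Let `g = hf2.toLp f`, an element of `Lp ℂ 2`, and `ĝ = 𝓕 g` its Fourier transform in `L²`
(`Mathlib/Analysis/Fourier/LpSpace.lean`, `MeasureTheory.Lp.fourierTransformₗᵢ`), `‖ĝ‖ = ‖g‖`
(`MeasureTheory.Lp.norm_fourier_eq`). Claim: `ĝ = 𝓕 f` almost everywhere. By
`MeasureTheory.Lp.fourier_toTemperedDistribution_eq` the tempered distribution of `ĝ` is the Fourier transform of that of `g`: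
for every Schwartz function `φ`: `∫ φ ĝ = ∫ (𝓕 φ) f`, and this is `∫ φ (𝓕 f)` because `f` and `φ` are integrable
(`VectorFourier.integral_fourierIntegral_smul_eq_flip`, or its form for `𝓕` in
`Mathlib/Analysis/Fourier/FourierTransform.lean`). `ĝ` and `𝓕 f` (continuous and bounded) are locally integrable, and
smooth functions with compact support are Schwartz functions
(`HasCompactSupport.toSchwartzMap`), so `ĝ = 𝓕 f` almost everywhere by `ae_eq_of_integral_contDiff_smul_eq`. Hence `MemLp (𝓕 f) 2`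
and `∫ ‖𝓕 f‖ ^ 2 = ‖ĝ‖ ^ 2 = ‖g‖ ^ 2 = ∫ ‖f‖ ^ 2` (`L2.norm_sq_eq_inner'` or
`MeasureTheory.L2.inner_def`, `integral_congr_ae`).

(Another proof: smooth `f` by a convolution and use Fourier inversion.)
-/

set_option autoImplicit false

open MeasureTheory
open scoped FourierTransform ContDiff

namespace MargE

theorem plancherel {f : ℝ → ℂ} (hf : Integrable f) (hf2 : MemLp f 2) :
    MemLp (𝓕 f) 2 ∧ ∫ ξ, ‖𝓕 f ξ‖ ^ 2 = ∫ x, ‖f x‖ ^ 2 := by
  have hcont : Continuous (𝓕 f) :=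
    VectorFourier.fourierIntegral_continuous Real.continuous_fourierChar continuous_inner hf
  have key : ∀ᵐ ξ, (𝓕 (hf2.toLp f) : Lp (α := ℝ) ℂ 2 volume) ξ = 𝓕 f ξ := by
    refine ae_eq_of_integral_contDiff_smul_eq ?_ hcont.locallyIntegrable ?_
    · exact (Lp.memLp (𝓕 (hf2.toLp f) : Lp (α := ℝ) ℂ 2 volume)).locallyIntegrable (by norm_num)
    · intro φ hφ hφc
      have hc : HasCompactSupport (fun x => (φ x : ℂ)) :=
        hφc.comp_left (g := fun t : ℝ => (t : ℂ)) Complex.ofReal_zero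
      have hd : ContDiff ℝ ∞ (fun x => (φ x : ℂ)) := Complex.ofRealCLM.contDiff.comp hφ
      let φs : SchwartzMap ℝ ℂ := hc.toSchwartzMap hd
      have hφs : ∀ x, φs x = (φ x : ℂ) := fun x => rfl
      have h1 := Lp.fourier_toTemperedDistribution_eq (hf2.toLp f)
      have h2 := congrArg (fun T : TemperedDistribution ℝ ℂ => T φs) h1
      simp only [TemperedDistribution.fourier_apply, Lp.toTemperedDistribution_apply] at h2
      have h3 : ∫ x, (𝓕 φs) x • (hf2.toLp f) x = ∫ x, (𝓕 φs) x • f x := by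
        refine integral_congr_ae ?_
        filter_upwards [hf2.coeFn_toLp] with x hx
        rw [hx]
      have h4 : ∫ x, (𝓕 φs) x • f x = ∫ x, φs x • 𝓕 f x := by
        simpa using! VectorFourier.integral_fourierIntegral_smul_eq_flip (L := innerₗ ℝ)
          Real.continuous_fourierChar continuous_inner φs.integrable hf
      have h5 : ∫ x, φs x • (𝓕 (hf2.toLp f) : Lp (α := ℝ) ℂ 2 volume) x = ∫ x, φs x • 𝓕 f x := by
        rw [← h2, h3, h4]
      exact h5
  refine ⟨(memLp_congr_ae key).1 (Lp.memLp _), ?_⟩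
  have h6 : ‖(𝓕 (hf2.toLp f) : Lp (α := ℝ) ℂ 2 volume)‖ ^ 2 = ‖hf2.toLp f‖ ^ 2 := by
    rw [Lp.norm_fourier_eq]
  have h7 : ∀ u : Lp (α := ℝ) ℂ 2 volume, ‖u‖ ^ 2 = ∫ x, ‖u x‖ ^ 2 := by
    intro u
    rw [← inner_self_eq_norm_sq (𝕜 := ℂ) u, L2.inner_def, ← integral_re (L2.integrable_inner u u)]
    refine integral_congr_ae (Filter.Eventually.of_forall fun x => ?_)
    show RCLike.re (inner ℂ (u x) (u x)) = ‖u x‖ ^ 2
    rw [inner_self_eq_norm_sq (𝕜 := ℂ)]
  rw [h7, h7] at h6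
  have h8 : ∫ ξ, ‖𝓕 f ξ‖ ^ 2 = ∫ ξ, ‖(𝓕 (hf2.toLp f) : Lp (α := ℝ) ℂ 2 volume) ξ‖ ^ 2 := by
    refine integral_congr_ae ?_
    filter_upwards [key] with x hx
    rw [hx]
  have h9 : ∫ x, ‖(hf2.toLp f) x‖ ^ 2 = ∫ x, ‖f x‖ ^ 2 := by
    refine integral_congr_ae ?_
    filter_upwards [hf2.coeFn_toLp] with x hx
    rw [hx]
  rw [h8, h6, h9]

end MargE
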