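import Pool.Agent.Marg.L2

/-!
# The box smoothing is a contraction of `L²` (PACKAGE EB5)

`sm g s v = (prim g v - prim g (v - s)) / s = (1 / s) ∫ t in (v - s)..v, g t` (`Pool/Agent/Marg/Smooth.lean`; there `Bdd` is the case
`C = 1`; here `g` is bounded by `C`; one may also apply the lemmas for `Bdd` to `g / C'`, `C' = max C 1`).

`sm_sq`. By Cauchy-Schwarz `(sm g s v) ^ 2 ≤ (1 / s) ∫ t in (v - s)..v, g t ^ 2 = (1 / s) ∫ τ in 0..s, g (v - τ) ^ 2`. The function
`g ^ 2` is integrable (bounded, bounded support), so by Fubini and the translation invariance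
`∫ v, (sm g s v) ^ 2 ≤ (1 / s) ∫ τ in 0..s, ∫ v, g (v - τ) ^ 2 = ∫ g ^ 2`. `sm g s` is continuous, and it is zero outside `[c, d + s]`, so its
square is integrable.

`sm_sum`: `sm` commutes with translations and finite sums.
-/

set_option autoImplicit false

open Finset Real MeasureTheory

namespace Marg

private theorem ii_of {u : ℝ → ℝ} (hu : Measurable u) {C : ℝ} (hC : ∀ v, |u v| ≤ C) (a b : ℝ) :
    IntervalIntegrable u volume a b := by
  rw [intervalIntegrable_iff]
  refine IntegrableOn.of_bound ?_ hu.aestronglyMeasurable C ?_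
  · exact measure_Ioc_lt_top
  · exact Filter.Eventually.of_forall fun x => hC x

/-- Cauchy-Schwarz -/
private theorem cs_int {u : ℝ → ℝ} (hu : Measurable u) {C : ℝ} (hC : ∀ v, |u v| ≤ C) {s : ℝ}
    (hs : 0 < s) : (∫ τ in (0 : ℝ)..s, u τ) ^ 2 ≤ s * ∫ τ in (0 : ℝ)..s, u τ ^ 2 := by
  obtain ⟨A, hA⟩ : ∃ A, A = ∫ τ in (0 : ℝ)..s, u τ := ⟨_, rfl⟩
  have h1 : IntervalIntegrable u volume 0 s := ii_of hu hC 0 s
  have h2 : IntervalIntegrable (fun τ => u τ ^ 2) volume 0 s := by
    refine ii_of (hu.pow_const 2) (C := C ^ 2) (fun v => ?_) 0 s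
    rw [abs_pow]
    exact pow_le_pow_left₀ (abs_nonneg _) (hC v) 2
  have h0 : 0 ≤ ∫ τ in (0 : ℝ)..s, (u τ - A / s) ^ 2 :=
    intervalIntegral.integral_nonneg hs.le fun _ _ => sq_nonneg _
  have h3 : ∫ τ in (0 : ℝ)..s, (u τ - A / s) ^ 2 =
      (∫ τ in (0 : ℝ)..s, u τ ^ 2) - 2 * (A / s) * A + s * (A / s) ^ 2 := by
    have e : (fun τ => (u τ - A / s) ^ 2) =
        fun τ => (u τ ^ 2 - 2 * (A / s) * u τ) + (A / s) ^ 2 := by
      funext τ
      ring
    rw [e, intervalIntegral.integral_add (h2.sub (h1.const_mul _)) intervalIntegrable_const,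
      intervalIntegral.integral_sub h2 (h1.const_mul _), intervalIntegral.integral_const_mul,
      intervalIntegral.integral_const, ← hA, sub_zero, smul_eq_mul]
  rw [h3] at h0
  rw [← hA]
  have h4 : (∫ τ in (0 : ℝ)..s, u τ ^ 2) - 2 * (A / s) * A + s * (A / s) ^ 2 =
      (∫ τ in (0 : ℝ)..s, u τ ^ 2) - A ^ 2 / s := by
    field_simp
    ring
  rw [h4, sub_nonneg, div_le_iff₀ hs] at h0
  linarith

theorem Cpt.sm_sq {g : ℝ → ℝ} {c d C : ℝ} (hg : Cpt g c d C) {s : ℝ} (hs : 0 < s) :
    Integrable (fun v => sm g s v ^ 2) ∧ ∫ v, sm g s v ^ 2 ≤ ∫ v, g v ^ 2 := by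
  have hg2 : Integrable (fun v => g v ^ 2) := by
    have h := hg.integrable_mul 0 0
    simp only [add_zero] at h
    simpa only [sq] using h
  have hii := ii_of hg.meas hg.bound
  have hcont : Continuous (sm g s) := by
    have h1 : Continuous (prim g) := intervalIntegral.continuous_primitive hii 0
    exact (h1.sub (h1.comp (continuous_id.sub continuous_const))).div_const s
  let F : ℝ → ℝ → ℝ := fun v τ => (Set.Ioc 0 s).indicator (fun _ => (1 : ℝ)) τ * g (v - τ) ^ 2
  have hind : Integrable ((Set.Ioc 0 s).indicator (fun _ => (1 : ℝ))) := by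
    rw [integrable_indicator_iff measurableSet_Ioc]
    exact integrableOn_const measure_Ioc_lt_top.ne
  have hF : Integrable (Function.uncurry F) ((volume : Measure ℝ).prod (volume : Measure ℝ)) :=
    Integrable.convolution_integrand (ContinuousLinearMap.mul ℝ ℝ) hind hg2
  have hFi : Integrable fun v => ∫ τ, F v τ := hF.integral_prod_left
  have hF1 : ∀ v, ∫ τ, F v τ = ∫ τ in (0 : ℝ)..s, g (v - τ) ^ 2 := by
    intro v
    rw [intervalIntegral.integral_of_le hs.le, ← integral_indicator measurableSet_Ioc]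
    congr 1
    funext τ
    by_cases h : τ ∈ Set.Ioc 0 s
    · simp only [F, Set.indicator_of_mem h, one_mul]
    · simp only [F, Set.indicator_of_notMem h, zero_mul]
  have hF2 : ∫ v, ∫ τ, F v τ = s * ∫ v, g v ^ 2 := by
    rw [integral_integral_swap hF]
    have h1 : ∀ τ, ∫ v, F v τ =
        (Set.Ioc 0 s).indicator (fun _ => (1 : ℝ)) τ * ∫ v, g v ^ 2 := by
      intro τ
      simp only [F]
      rw [integral_const_mul, integral_sub_right_eq_self (fun v => g v ^ 2) τ]
    simp only [h1]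
    rw [integral_mul_const, integral_indicator measurableSet_Ioc, setIntegral_const,
      smul_eq_mul, mul_one, Real.volume_real_Ioc_of_le hs.le, sub_zero]
  have hpt : ∀ v, sm g s v ^ 2 ≤ 1 / s * ∫ τ, F v τ := by
    intro v
    have h1 : sm g s v = (∫ τ in (0 : ℝ)..s, g (v - τ)) / s := by
      unfold sm prim
      rw [intervalIntegral.integral_interval_sub_left (hii _ _) (hii _ _),
        intervalIntegral.integral_comp_sub_left (fun x => g x) v, sub_zero]
    have h2 := cs_int (u := fun τ => g (v - τ))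
      (hg.meas.comp (measurable_const.sub measurable_id)) (fun τ => hg.bound (v - τ)) hs
    rw [hF1 v, h1, div_pow, div_le_iff₀ (by positivity)]
    calc (∫ τ in (0 : ℝ)..s, g (v - τ)) ^ 2 ≤ s * ∫ τ in (0 : ℝ)..s, g (v - τ) ^ 2 := h2
      _ = 1 / s * (∫ τ in (0 : ℝ)..s, g (v - τ) ^ 2) * s ^ 2 := by field_simp
  have hint : Integrable fun v => sm g s v ^ 2 := by
    refine (hFi.const_mul (1 / s)).mono' (hcont.pow 2).aestronglyMeasurable
      (Filter.Eventually.of_forall fun v => ?_)
    rw [Real.norm_of_nonneg (sq_nonneg _)]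
    exact hpt v
  refine ⟨hint, ?_⟩
  calc ∫ v, sm g s v ^ 2 ≤ ∫ v, 1 / s * ∫ τ, F v τ :=
        integral_mono hint (hFi.const_mul (1 / s)) hpt
    _ = ∫ v, g v ^ 2 := by
        rw [integral_const_mul, hF2]
        field_simp

theorem Bdd.sm_sum {f : ℝ → ℝ} (hf : Bdd f) {s : ℝ} {N : ℕ} (w t : ℕ → ℝ) (v : ℝ) :
    sm (fun v => ∑ i ∈ range N, w i * f (v + t i)) s v = ∑ i ∈ range N, w i * sm f s (v + t i) := by
  have hf1 : ∀ (i : ℕ) (a b : ℝ), IntervalIntegrable (fun x => w i * f (x + t i)) volume a b :=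
    fun i a b => (ii_of (hf.meas.comp (measurable_id.add_const (t i)))
      (fun x => hf.bound (x + t i)) a b).const_mul (w i)
  have hF : ∀ a b : ℝ, IntervalIntegrable (fun v => ∑ i ∈ range N, w i * f (v + t i))
      volume a b := by
    intro a b
    have h := IntervalIntegrable.sum (range N) (fun i _ => hf1 i a b)
    have e : (∑ i ∈ range N, fun x => w i * f (x + t i)) =
        fun v => ∑ i ∈ range N, w i * f (v + t i) := by
      funext x
      rw [Finset.sum_apply]
    rwa [e] at h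
  have h1 : prim (fun v => ∑ i ∈ range N, w i * f (v + t i)) v -
      prim (fun v => ∑ i ∈ range N, w i * f (v + t i)) (v - s) =
      ∑ i ∈ range N, w i * (prim f (v + t i) - prim f (v + t i - s)) := by
    unfold prim
    rw [intervalIntegral.integral_interval_sub_left (hF _ _) (hF _ _),
      intervalIntegral.integral_finsetSum fun i _ => hf1 i _ _]
    refine Finset.sum_congr rfl fun i _ => ?_
    rw [intervalIntegral.integral_const_mul, intervalIntegral.integral_comp_add_right,
      intervalIntegral.integral_interval_sub_left (hf.ii _ _) (hf.ii _ _)]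
    have e : v - s + t i = v + t i - s := by ring
    rw [e]
  unfold sm
  rw [h1, Finset.sum_div]
  exact Finset.sum_congr rfl fun i _ => by ring

/-- finite sums of translates: measurable, bounded by `N`, bounded support -/
theorem Bdd.sum_cpt {f : ℝ → ℝ} (hf : Bdd f) {v0 v1 : ℝ} (hsupp : ∀ v, v ∉ Set.Icc v0 v1 → f v = 0)
    (N : ℕ) {w : ℕ → ℝ} (hw : ∀ i, |w i| ≤ 1) {t : ℕ → ℝ} {t0 t1 : ℝ}
    (ht : ∀ i, i < N → t i ∈ Set.Icc t0 t1) :
    Cpt (fun v => ∑ i ∈ range N, w i * f (v + t i)) (v0 - t1) (v1 - t0) N := by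
  refine ⟨?_, fun v => ?_, fun v hv => ?_⟩
  · exact Finset.measurable_fun_sum _ fun i _ =>
      (hf.meas.comp (measurable_id.add_const (t i))).const_mul (w i)
  · refine (Finset.abs_sum_le_sum_abs _ _).trans ?_
    have h1 : ∀ i ∈ range N, |w i * f (v + t i)| ≤ 1 := by
      intro i _
      rw [abs_mul]
      exact mul_le_one₀ (hw i) (abs_nonneg _) (hf.bound _)
    refine (Finset.sum_le_sum h1).trans ?_
    simp
  · refine Finset.sum_eq_zero fun i hi => ?_
    have h1 := ht i (Finset.mem_range.1 hi)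
    rw [hsupp, mul_zero]
    intro h2
    exact hv ⟨by linarith [h2.1, h1.2], by linarith [h2.2, h1.1]⟩

end Marg
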