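import Pool.Agent.MargE.KL

/-!
# The second difference test (PACKAGE EA2)

Let `θ > 0`, `θ ≤ 1 / 2`.

`one_period`: if `m - θ ≤ dd x i < m + 1 - θ` for `i + 1 < L` and `lam ≤ dd (dd x) i` for `i + 2 < L`
(`lam > 0`) then `‖∑ i < L, ee (x i)‖ ≤ 2 θ / lam + 1 + 2 / θ`. Proof: `dd x` is strictly increasing on
`{i | i + 1 < L}`. Let `a` be the number of the `i` with `i + 1 < L` and `dd x i < m + θ`; these are the
`i < a`. If `a ≥ 1`: `(a - 1) lam ≤ dd x (a - 1) - dd x 0 < 2 θ`, so `a ≤ 2 θ / lam + 1`. The first `a`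
terms give at most `a`; the sum over `a ≤ i < L` is `∑ i < L - a, ee (x (a + i))`, at most `2 / θ` by
`kusmin_landau` (`m + θ ≤ dd x (a + i) ≤ m + 1 - θ`).

`periods` (induction on `M : ℕ`): if `m - θ ≤ dd x i < m + M - θ` for all `i + 1 < L` (and the same
assumption on `dd (dd x)`) then `‖∑ i < L, ee (x i)‖ ≤ M * (2 θ / lam + 1 + 2 / θ) + 1`. `M = 0`: there is no
`i` with `i + 1 < L`, so `L ≤ 1`. `M + 1`: let `a` be the number of the `i` with `i + 1 < L` and
`dd x i < m + M - θ` (an initial segment). If `a + 1 ≥ L` use the hypothesis for `M`. Otherwise the first `a + 1` terms satisfy the hypothesis with `M`, and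
the other `L - (a + 1)` terms are a sum as in `one_period` with `m + M` instead of `m`
(`dd x i ≥ m + M - θ` for `i ≥ a`, `i + 1 < L`).

`second_test`. If `lam > 1 / 4` then `C * L * √lam ≥ L / 2` and the sum is at most `L`. Let `lam ≤ 1 / 4`,
`θ = √lam ≤ 1 / 2`, `c = 2 θ / lam + 1 + 2 / θ = 4 / √lam + 1 ≤ 5 / √lam`. If `L ≤ 1` the sum is at most `1 ≤ 1 / √lam`.
Otherwise let `m = ⌊dd x 0 + θ⌋`, so `m - θ ≤ dd x 0 < m + 1 - θ`, and `dd x i ≤ dd x 0 + i * (C * lam)` for `i + 1 < L`, so
`periods` applies with `M = ⌈C * lam * L⌉₊ + 1 ≤ C * lam * L + 2`. The result is at most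
`(C * lam * L + 2) * (5 / √lam) + 1 = 5 C L √lam + 10 / √lam + 1 ≤ 20 (C L √lam + 1 / √lam)`.
-/

set_option autoImplicit false

open Finset Real

namespace MargE

private theorem grow {x : ℕ → ℝ} {L : ℕ} {lam : ℝ}
    (h : ∀ i, i + 2 < L → lam ≤ dd (dd x) i) (k : ℕ) :
    ∀ i, i + k + 1 < L → dd x i + k * lam ≤ dd x (i + k) := by
  induction k with
  | zero => intro i _; simp
  | succ k ih =>
    intro i hi
    have h1 := ih i (by omega)
    have h2 := h (i + k) (by omega)
    have h3 : dd (dd x) (i + k) = dd x (i + k + 1) - dd x (i + k) := rfl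
    rw [h3] at h2
    rw [← add_assoc]
    push_cast
    linarith

private theorem grow' {x : ℕ → ℝ} {L : ℕ} {lam : ℝ}
    (h : ∀ i, i + 2 < L → dd (dd x) i ≤ lam) (k : ℕ) :
    ∀ i, i + k + 1 < L → dd x (i + k) ≤ dd x i + k * lam := by
  induction k with
  | zero => intro i _; simp
  | succ k ih =>
    intro i hi
    have h1 := ih i (by omega)
    have h2 := h (i + k) (by omega)
    have h3 : dd (dd x) (i + k) = dd x (i + k + 1) - dd x (i + k) := rfl
    rw [h3] at h2
    rw [← add_assoc]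
    push_cast
    linarith

/-- the initial segment on which `dd x i < t` -/
private theorem init_seg {x : ℕ → ℝ} {L : ℕ} {lam : ℝ} (hlam : 0 < lam)
    (h : ∀ i, i + 2 < L → lam ≤ dd (dd x) i) (t : ℝ) :
    ∃ a, (∀ i, i < a → i + 1 < L ∧ dd x i < t) ∧ (∀ i, a ≤ i → i + 1 < L → t ≤ dd x i) := by
  classical
  have hex : ∃ a, ¬ (a + 1 < L ∧ dd x a < t) := ⟨L, by omega⟩
  refine ⟨Nat.find hex, fun i hi => not_not.mp (Nat.find_min hex hi), fun i hi hi' => ?_⟩
  have h1 := Nat.find_spec hex
  have h2 : t ≤ dd x (Nat.find hex) := by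
    by_contra h3
    exact h1 ⟨by omega, not_le.mp h3⟩
  obtain ⟨k, hk⟩ := Nat.exists_eq_add_of_le hi
  have h3 := grow h k (Nat.find hex) (by omega)
  rw [← hk] at h3
  have h4 : 0 ≤ (k : ℝ) * lam := by positivity
  linarith

private theorem norm_split (x : ℕ → ℝ) {a L : ℕ} (ha : a ≤ L) :
    ‖∑ i ∈ range L, ee (x i)‖ ≤
      ‖∑ i ∈ range a, ee (x i)‖ + ‖∑ i ∈ range (L - a), ee (x (a + i))‖ := by
  have h1 : L = a + (L - a) := by omega
  have h2 : ∑ i ∈ range L, ee (x i) =
      ∑ i ∈ range a, ee (x i) + ∑ i ∈ range (L - a), ee (x (a + i)) := by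
    conv_lhs => rw [h1]
    exact Finset.sum_range_add _ _ _
  rw [h2]
  exact norm_add_le _ _

private theorem one_period {x : ℕ → ℝ} {L : ℕ} {lam θ : ℝ} {m : ℤ} (hlam : 0 < lam) (hθ : 0 < θ)
    (hθ1 : θ ≤ 1) (h1 : ∀ i, i + 1 < L → m - θ ≤ dd x i ∧ dd x i < m + 1 - θ)
    (h : ∀ i, i + 2 < L → lam ≤ dd (dd x) i) :
    ‖∑ i ∈ range L, ee (x i)‖ ≤ 2 * θ / lam + 1 + 2 / θ := by
  obtain ⟨a, ha, ha'⟩ := init_seg hlam h (m + θ)
  have haL : a ≤ L := by
    rcases Nat.eq_zero_or_pos a with h0 | h0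
    · omega
    · have := (ha (a - 1) (by omega)).1
      omega
  have hfirst : ‖∑ i ∈ range a, ee (x i)‖ ≤ 2 * θ / lam + 1 := by
    have e1 : ‖∑ i ∈ range a, ee (x i)‖ ≤ (a : ℝ) := by
      simpa using norm_sum_ee_le (range a) x
    refine e1.trans ?_
    rcases Nat.eq_zero_or_pos a with h0 | h0
    · rw [h0]
      push_cast
      positivity
    · obtain ⟨b, rfl⟩ := Nat.exists_eq_add_of_le' h0
      have h2 := ha b (by omega)
      have h3 := (h1 0 (by omega)).1
      have h4 := grow h b 0 (by omega)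
      rw [zero_add] at h4
      have h5 : (b : ℝ) ≤ 2 * θ / lam := by
        rw [le_div_iff₀ hlam]
        linarith [h2.2]
      push_cast
      linarith
  have hsec : ‖∑ i ∈ range (L - a), ee (x (a + i))‖ ≤ 2 / θ := by
    refine kusmin_landau (x := fun i => x (a + i)) (L := L - a) (θ := θ) m hθ hθ1 ?_ ?_
    · intro i hi
      have h2 : dd (fun i => x (a + i)) i = dd x (a + i) := rfl
      rw [h2]
      exact ⟨ha' _ (by omega) (by omega), (h1 _ (by omega)).2.le⟩
    · intro i hi
      have h2 : dd (fun i => x (a + i)) i = dd x (a + i) := rfl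
      have h3 : dd (fun i => x (a + i)) (i + 1) = dd x (a + i + 1) := rfl
      rw [h2, h3]
      have h4 := h (a + i) (by omega)
      have h5 : dd (dd x) (a + i) = dd x (a + i + 1) - dd x (a + i) := rfl
      rw [h5] at h4
      linarith
  exact (norm_split x haL).trans (add_le_add hfirst hsec)

private theorem periods {x : ℕ → ℝ} {lam θ : ℝ} {m : ℤ} (hlam : 0 < lam) (hθ : 0 < θ)
    (hθ1 : θ ≤ 1) (M : ℕ) :
    ∀ L : ℕ, (∀ i, i + 1 < L → m - θ ≤ dd x i ∧ dd x i < m + M - θ) →
    (∀ i, i + 2 < L → lam ≤ dd (dd x) i) →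
    ‖∑ i ∈ range L, ee (x i)‖ ≤ M * (2 * θ / lam + 1 + 2 / θ) + 1 := by
  have hc : 0 ≤ 2 * θ / lam + 1 + 2 / θ := by positivity
  induction M with
  | zero =>
    intro L h1 _
    have hL : L ≤ 1 := by
      by_contra hL
      have := h1 0 (by omega)
      push_cast at this
      linarith [this.1, this.2]
    have e1 : ‖∑ i ∈ range L, ee (x i)‖ ≤ (L : ℝ) := by
      simpa using norm_sum_ee_le (range L) x
    have : (L : ℝ) ≤ 1 := by exact_mod_cast hL
    push_cast
    linarith
  | succ M ih =>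
    intro L h1 h
    obtain ⟨a, ha, ha'⟩ := init_seg hlam h (m + M - θ)
    rcases Nat.lt_or_ge (a + 1) L with haL | haL
    · have e1 := ih (a + 1) (fun i hi => ⟨(h1 i (by omega)).1, (ha i (by omega)).2⟩)
        (fun i hi => h i (by omega))
      have e2 := one_period (x := fun i => x (a + 1 + i)) (L := L - (a + 1)) (m := m + M)
        hlam hθ hθ1 (fun i hi => by
          have h2 : dd (fun i => x (a + 1 + i)) i = dd x (a + 1 + i) := rfl
          have h3 := (h1 (a + 1 + i) (by omega)).2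
          push_cast at h3 ⊢
          rw [h2]
          exact ⟨ha' _ (by omega) (by omega), by linarith⟩) (fun i hi => h (a + 1 + i) (by omega))
      have e3 := norm_split x haL.le
      push_cast
      linarith
    · have e1 := ih L (fun i hi => ⟨(h1 i hi).1, (ha i (by omega)).2⟩) h
      push_cast
      linarith

theorem second_test {x : ℕ → ℝ} {L : ℕ} {lam C : ℝ} (hlam : 0 < lam) (hC : 1 ≤ C)
    (h : ∀ i, i + 2 < L → lam ≤ dd (dd x) i ∧ dd (dd x) i ≤ C * lam) :
    ‖∑ i ∈ range L, ee (x i)‖ ≤ 20 * (C * L * √lam + 1 / √lam) := by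
  have hs : 0 < √lam := Real.sqrt_pos.mpr hlam
  have hss : √lam * √lam = lam := Real.mul_self_sqrt hlam.le
  have hL0 : (0 : ℝ) ≤ L := Nat.cast_nonneg L
  have htriv : ‖∑ i ∈ range L, ee (x i)‖ ≤ (L : ℝ) := by
    simpa using norm_sum_ee_le (range L) x
  have hinv : 0 < 1 / √lam := by positivity
  rcases lt_or_ge (1 / 4) lam with h4 | h4
  · have h5 : 1 / 2 < √lam := by
      rw [Real.lt_sqrt (by norm_num)]
      norm_num
      exact h4
    have h6 : (L : ℝ) * (1 / 2) ≤ C * L * √lam := by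
      have : (L : ℝ) ≤ C * L := le_mul_of_one_le_left hL0 hC
      exact mul_le_mul this h5.le (by norm_num) (by positivity)
    linarith
  · have h5 : √lam ≤ 1 / 2 := by
      rw [Real.sqrt_le_left (by norm_num)]
      norm_num
      exact h4
    have h6 : 2 ≤ 1 / √lam := by
      rw [le_div_iff₀ hs]; linarith
    have hCL : 0 ≤ C * L * √lam := by positivity
    rcases Nat.lt_or_ge 1 L with hL | hL
    · obtain ⟨m, hm⟩ : ∃ m : ℤ, m = ⌊dd x 0 + √lam⌋ := ⟨_, rfl⟩
      have hm1 : (m : ℝ) ≤ dd x 0 + √lam := by rw [hm]; exact Int.floor_le _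
      have hm2 : dd x 0 + √lam < m + 1 := by rw [hm]; exact Int.lt_floor_add_one _
      have hM : C * lam * L ≤ (⌈C * lam * L⌉₊ : ℝ) := Nat.le_ceil _
      have hM' : (⌈C * lam * L⌉₊ : ℝ) < C * lam * L + 1 := Nat.ceil_lt_add_one (by positivity)
      have hp := periods (x := x) (lam := lam) (θ := √lam) (m := m) hlam hs (by linarith)
        (⌈C * lam * L⌉₊ + 1) L (fun i hi => by
          have g1 := grow (fun i hi => (h i hi).1) i 0 (by omega)
          have g2 := grow' (fun i hi => (h i hi).2) i 0 (by omega)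
          rw [zero_add] at g1 g2
          have hi1 : (i : ℝ) ≤ L := by
            have : i ≤ L := by omega
            exact_mod_cast this
          have hi0 : (0 : ℝ) ≤ i := Nat.cast_nonneg i
          have g3 : (i : ℝ) * (C * lam) ≤ C * lam * L := by
            rw [mul_comm]
            exact mul_le_mul_of_nonneg_left hi1 (by positivity)
          have g4 : 0 ≤ (i : ℝ) * lam := by positivity
          push_cast
          constructor <;> linarith) (fun i hi => (h i hi).1)
      have hc : 2 * √lam / lam + 1 + 2 / √lam ≤ 5 * (1 / √lam) := by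
        have e1 : 2 * √lam / lam = 2 * (1 / √lam) := by
          rw [mul_one_div, div_eq_div_iff hlam.ne' hs.ne', mul_assoc, hss]
        have e2 : 2 / √lam = 2 * (1 / √lam) := by ring
        rw [e1, e2]
        linarith
      push_cast at hp
      have h7 : ((⌈C * lam * L⌉₊ : ℝ) + 1) * (2 * √lam / lam + 1 + 2 / √lam) ≤
          (C * lam * L + 2) * (5 * (1 / √lam)) := by
        refine mul_le_mul (by linarith) hc (by positivity) (by positivity)
      have h8 : C * lam * L * (1 / √lam) = C * L * √lam := by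
        have : lam * (1 / √lam) = √lam := by
          rw [mul_one_div, div_eq_iff hs.ne', hss]
        calc C * lam * L * (1 / √lam) = C * L * (lam * (1 / √lam)) := by ring
          _ = C * L * √lam := by rw [this]
      have h9 : (C * lam * L + 2) * (5 * (1 / √lam)) =
          5 * (C * lam * L * (1 / √lam)) + 10 * (1 / √lam) := by ring
      rw [h9, h8] at h7
      linarith
    · have : (L : ℝ) ≤ 1 := by exact_mod_cast hL
      linarith

end MargE
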