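import Mathlib

/-!
# From characters to continuous functions on the circle (PACKAGE EC1)

Proof. Let `C ≥ 0`. For `ψ : C(AddCircle (1 : ℝ), ℂ)` let `A n ψ = (∑ k < n, ψ (θ k) * a k) / n` and let `P ψ` be the statement
`A n ψ → L * ∫ x, ψ x`. `P` holds for `ψ = fourier h` (`h : ℤ`): `fourier h (θ k) = exp (2 π i h θ k) = cos (2 π h θ k) + i sin (2 π h θ k)`
(`fourier_coe_apply`), `∫ fourier h = 0` for `h ≠ 0` (`fourierIntegral`... e.g. `integral_eq_zero_of_add_right_eq_neg` as in the proof of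
`orthonormal_fourier`, or `fourierCoeff`), `= 1` for `h = 0`; the measure `volume` of `AddCircle 1` has mass one. `P` is linear, so it holds on
`Submodule.span ℂ (Set.range fourier)`, which is dense (`span_fourier_closure_eq_top`). `P` is closed: `‖A n ψ - A n ψ'‖ ≤ C ‖ψ - ψ'‖` and
`|∫ ψ - ∫ ψ'| ≤ ‖ψ - ψ'‖`. So `P` holds for all `ψ`; apply it to the complexification of the real function `ψ` and take real parts.
-/

set_option autoImplicit false

open Finset Real MeasureTheory Filter Topology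

namespace MargE

private noncomputable def avg (θ a : ℕ → ℝ) (ψ : C(AddCircle (1 : ℝ), ℂ)) (n : ℕ) : ℂ :=
  (∑ k ∈ range n, ψ (θ k) * (a k : ℂ)) / (n : ℂ)

private theorem avg_sub_norm {θ a : ℕ → ℝ} {C : ℝ} (ha : ∀ n, |a n| ≤ C)
    (ψ ψ' : C(AddCircle (1 : ℝ), ℂ)) (n : ℕ) :
    ‖avg θ a ψ n - avg θ a ψ' n‖ ≤ C * ‖ψ - ψ'‖ := by
  have hC : 0 ≤ C := (abs_nonneg _).trans (ha 0)
  rcases Nat.eq_zero_or_pos n with rfl | hn
  · simp only [avg, Finset.range_zero, Finset.sum_empty, Nat.cast_zero, div_zero, sub_self, norm_zero]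
    positivity
  have hn' : (0 : ℝ) < (n : ℝ) := by exact_mod_cast hn
  have e : avg θ a ψ n - avg θ a ψ' n
      = (∑ k ∈ range n, (ψ - ψ') (θ k) * (a k : ℂ)) / (n : ℂ) := by
    unfold avg
    rw [← sub_div, ← Finset.sum_sub_distrib]
    congr 1
    refine Finset.sum_congr rfl (fun k _ => ?_)
    rw [ContinuousMap.sub_apply]; ring
  rw [e, norm_div, Complex.norm_natCast, div_le_iff₀ hn']
  refine (norm_sum_le _ _).trans ?_
  calc ∑ k ∈ range n, ‖(ψ - ψ') (θ k) * (a k : ℂ)‖
      ≤ ∑ k ∈ range n, C * ‖ψ - ψ'‖ := by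
        refine Finset.sum_le_sum (fun k _ => ?_)
        rw [norm_mul, Complex.norm_real, Real.norm_eq_abs, mul_comm]
        exact mul_le_mul (ha k) (ContinuousMap.norm_coe_le_norm _ _) (norm_nonneg _) hC
    _ = C * ‖ψ - ψ'‖ * n := by
        rw [Finset.sum_const, Finset.card_range, nsmul_eq_mul]; ring

private theorem vol_univ : (volume : Measure (AddCircle (1 : ℝ))).real Set.univ = 1 := by
  rw [measureReal_def, AddCircle.measure_univ]; simp

private theorem integral_sub_norm (ψ ψ' : C(AddCircle (1 : ℝ), ℂ)) :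
    ‖(∫ x : AddCircle (1 : ℝ), ψ x) - ∫ x : AddCircle (1 : ℝ), ψ' x‖ ≤ ‖ψ - ψ'‖ := by
  have i1 : Integrable (fun x : AddCircle (1 : ℝ) => ψ x) :=
    ψ.continuous.integrable_of_hasCompactSupport (HasCompactSupport.of_compactSpace _)
  have i2 : Integrable (fun x : AddCircle (1 : ℝ) => ψ' x) :=
    ψ'.continuous.integrable_of_hasCompactSupport (HasCompactSupport.of_compactSpace _)
  rw [← integral_sub i1 i2]
  have h := norm_integral_le_of_norm_le_const (μ := (volume : Measure (AddCircle (1 : ℝ))))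
    (f := fun x => ψ x - ψ' x) (C := ‖ψ - ψ'‖)
    (Filter.Eventually.of_forall (fun x => by
      have := ContinuousMap.norm_coe_le_norm (ψ - ψ') x
      rwa [ContinuousMap.sub_apply] at this))
  rwa [vol_univ, mul_one] at h

private theorem integral_fourier_ne {h : ℤ} (hh : h ≠ 0) :
    (∫ x : AddCircle (1 : ℝ), fourier h x) = 0 := by
  haveI : Fact ((0 : ℝ) < 1) := ⟨one_pos⟩
  exact integral_eq_zero_of_add_right_eq_neg (μ := (volume : Measure (AddCircle (1 : ℝ))))
    (fourier_add_half_inv_index hh (Fact.out (p := (0 : ℝ) < 1)))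

theorem trig_density {θ a : ℕ → ℝ} {C L : ℝ} (ha : ∀ n, |a n| ≤ C)
    (h0 : Tendsto (fun n : ℕ => (∑ k ∈ range n, a k) / (n : ℝ)) atTop (𝓝 L))
    (hc : ∀ h : ℤ, h ≠ 0 → Tendsto (fun n : ℕ =>
      (∑ k ∈ range n, cos (2 * π * (h * θ k)) * a k) / (n : ℝ)) atTop (𝓝 0))
    (hs : ∀ h : ℤ, h ≠ 0 → Tendsto (fun n : ℕ =>
      (∑ k ∈ range n, sin (2 * π * (h * θ k)) * a k) / (n : ℝ)) atTop (𝓝 0))
    (ψ : C(AddCircle (1 : ℝ), ℝ)) :
    Tendsto (fun n : ℕ => (∑ k ∈ range n, ψ (θ k) * a k) / (n : ℝ)) atTop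
      (𝓝 (L * ∫ x : AddCircle (1 : ℝ), ψ x)) := by
  classical
  have hint : ∀ φ : C(AddCircle (1 : ℝ), ℂ), Integrable (fun x : AddCircle (1 : ℝ) => φ x) :=
    fun φ => φ.continuous.integrable_of_hasCompactSupport (HasCompactSupport.of_compactSpace _)
  let S : Submodule ℂ C(AddCircle (1 : ℝ), ℂ) :=
    { carrier := {φ | Tendsto (avg θ a φ) atTop (𝓝 ((L : ℂ) * ∫ x : AddCircle (1 : ℝ), φ x))}
      add_mem' := by
        intro φ φ' h h'
        have := h.add h'
        simp only [Set.mem_setOf_eq]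
        have e1 : avg θ a (φ + φ') = fun n => avg θ a φ n + avg θ a φ' n := by
          funext n
          unfold avg
          rw [← add_div, ← Finset.sum_add_distrib]
          congr 1
          refine Finset.sum_congr rfl (fun k _ => ?_)
          rw [ContinuousMap.add_apply]; ring
        have e2 : (∫ x : AddCircle (1 : ℝ), (φ + φ') x)
            = (∫ x : AddCircle (1 : ℝ), φ x) + ∫ x : AddCircle (1 : ℝ), φ' x := by
          rw [← integral_add (hint φ) (hint φ')]; rfl
        rw [e1, e2, mul_add]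
        exact this
      zero_mem' := by
        simp only [Set.mem_setOf_eq]
        have e1 : avg θ a 0 = fun _ => 0 := by
          funext n; unfold avg; simp
        rw [e1]
        simp
      smul_mem' := by
        intro c φ h
        simp only [Set.mem_setOf_eq] at h ⊢
        have e1 : avg θ a (c • φ) = fun n => c * avg θ a φ n := by
          funext n
          unfold avg
          rw [← mul_div_assoc, Finset.mul_sum]
          congr 1
          refine Finset.sum_congr rfl (fun k _ => ?_)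
          rw [ContinuousMap.smul_apply, smul_eq_mul]; ring
        have e2 : (∫ x : AddCircle (1 : ℝ), (c • φ) x) = c * ∫ x : AddCircle (1 : ℝ), φ x := by
          rw [← integral_const_mul]; rfl
        rw [e1, e2]
        have := h.const_mul c
        convert this using 2
        ring }
  have hclosed : IsClosed (S : Set C(AddCircle (1 : ℝ), ℂ)) := by
    refine isClosed_of_closure_subset (fun φ hφ => ?_)
    change Tendsto (avg θ a φ) atTop (𝓝 ((L : ℂ) * ∫ x : AddCircle (1 : ℝ), φ x))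
    rw [Metric.tendsto_atTop]
    intro ε hε
    have hC : 0 ≤ C := (abs_nonneg _).trans (ha 0)
    have hK : 0 < C + |L| + 1 := by positivity
    obtain ⟨φ', hφ', hd⟩ := Metric.mem_closure_iff.1 hφ (ε / (2 * (C + |L| + 1))) (by positivity)
    have hφ'' : Tendsto (avg θ a φ') atTop (𝓝 ((L : ℂ) * ∫ x : AddCircle (1 : ℝ), φ' x)) := hφ'
    obtain ⟨N, hN⟩ := Metric.tendsto_atTop.1 hφ'' (ε / 2) (by positivity)
    refine ⟨N, fun n hn => ?_⟩
    have h1 := hN n hn
    have h2 := avg_sub_norm (θ := θ) ha φ φ' n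
    have h3 := integral_sub_norm φ' φ
    rw [dist_eq_norm] at hd h1
    rw [dist_eq_norm]
    have h4 : ‖(L : ℂ) * (∫ x : AddCircle (1 : ℝ), φ' x) - (L : ℂ) * ∫ x : AddCircle (1 : ℝ), φ x‖
        ≤ |L| * ‖φ - φ'‖ := by
      rw [← mul_sub, norm_mul, Complex.norm_real, Real.norm_eq_abs, norm_sub_rev φ φ']
      exact mul_le_mul_of_nonneg_left h3 (abs_nonneg _)
    have h5 : avg θ a φ n - (L : ℂ) * ∫ x : AddCircle (1 : ℝ), φ x
        = (avg θ a φ n - avg θ a φ' n)
          + (avg θ a φ' n - (L : ℂ) * ∫ x : AddCircle (1 : ℝ), φ' x)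
          + ((L : ℂ) * (∫ x : AddCircle (1 : ℝ), φ' x) - (L : ℂ) * ∫ x : AddCircle (1 : ℝ), φ x) := by
      ring
    rw [h5]
    have h6 := norm_add₃_le (a := avg θ a φ n - avg θ a φ' n)
      (b := avg θ a φ' n - (L : ℂ) * ∫ x : AddCircle (1 : ℝ), φ' x)
      (c := (L : ℂ) * (∫ x : AddCircle (1 : ℝ), φ' x) - (L : ℂ) * ∫ x : AddCircle (1 : ℝ), φ x)
    have h7 : (C + |L| + 1) * (ε / (2 * (C + |L| + 1))) = ε / 2 := by
      field_simp
    have h8 : (C + |L|) * ‖φ - φ'‖ ≤ (C + |L| + 1) * ‖φ - φ'‖ := by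
      have := norm_nonneg (φ - φ')
      nlinarith
    have h9 : (C + |L| + 1) * ‖φ - φ'‖ < ε / 2 := by
      rw [← h7]
      exact mul_lt_mul_of_pos_left hd hK
    nlinarith
  have hspan : Submodule.span ℂ (Set.range (fourier (T := (1 : ℝ)))) ≤ S := by
    rw [Submodule.span_le]
    rintro _ ⟨h, rfl⟩
    change Tendsto (avg θ a (fourier h)) atTop
      (𝓝 ((L : ℂ) * ∫ x : AddCircle (1 : ℝ), fourier h x))
    by_cases hh : h = 0
    · subst hh
      have e1 : avg θ a (fourier 0) = fun n : ℕ => (((∑ k ∈ range n, a k) / (n : ℝ) : ℝ) : ℂ) := by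
        funext n
        unfold avg
        push_cast
        congr 1
        refine Finset.sum_congr rfl (fun k _ => ?_)
        rw [fourier_zero, one_mul]
      have e2 : (∫ x : AddCircle (1 : ℝ), fourier 0 x) = (1 : ℂ) := by
        simp only [fourier_zero]
        rw [integral_const, vol_univ, one_smul]
      rw [e1, e2, mul_one]
      exact (Complex.continuous_ofReal.tendsto L).comp h0
    · rw [integral_fourier_ne hh, mul_zero]
      have e1 : avg θ a (fourier h) = fun n : ℕ =>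
          (((∑ k ∈ range n, cos (2 * π * (h * θ k)) * a k) / (n : ℝ) : ℝ) : ℂ)
          + (((∑ k ∈ range n, sin (2 * π * (h * θ k)) * a k) / (n : ℝ) : ℝ) : ℂ) * Complex.I := by
        funext n
        unfold avg
        push_cast
        rw [div_mul_eq_mul_div, ← add_div, Finset.sum_mul, ← Finset.sum_add_distrib]
        congr 1
        refine Finset.sum_congr rfl (fun k _ => ?_)
        rw [fourier_coe_apply]
        have e3 : (2 * (π : ℂ) * Complex.I * (h : ℂ) * (θ k : ℂ) / ((1 : ℝ) : ℂ))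
            = (2 * (π : ℂ) * ((h : ℂ) * (θ k : ℂ))) * Complex.I := by
          push_cast
          ring
        rw [e3, Complex.exp_mul_I]
        ring
      rw [e1]
      have h1 := (Complex.continuous_ofReal.tendsto 0).comp (hc h hh)
      have h2 := ((Complex.continuous_ofReal.tendsto 0).comp (hs h hh)).mul_const Complex.I
      have h3 := h1.add h2
      simpa using h3
  have htop : S = ⊤ := by
    haveI : Fact ((0 : ℝ) < 1) := ⟨one_pos⟩
    rw [eq_top_iff, ← span_fourier_closure_eq_top (T := (1 : ℝ))]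
    exact Submodule.topologicalClosure_minimal _ hspan hclosed
  let Ψ : C(AddCircle (1 : ℝ), ℂ) := ⟨fun x => ((ψ x : ℝ) : ℂ), Complex.continuous_ofReal.comp ψ.continuous⟩
  have hΨ : Tendsto (avg θ a Ψ) atTop (𝓝 ((L : ℂ) * ∫ x : AddCircle (1 : ℝ), Ψ x)) := by
    have : Ψ ∈ S := by rw [htop]; trivial
    exact this
  have h1 := (Complex.continuous_re.tendsto _).comp hΨ
  have e1 : ((L : ℂ) * ∫ x : AddCircle (1 : ℝ), Ψ x).re = L * ∫ x : AddCircle (1 : ℝ), ψ x := by
    have : (∫ x : AddCircle (1 : ℝ), Ψ x) = ((∫ x : AddCircle (1 : ℝ), ψ x : ℝ) : ℂ) :=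
      integral_ofReal (𝕜 := ℂ) (f := fun x : AddCircle (1 : ℝ) => ψ x)
    rw [this, ← Complex.ofReal_mul, Complex.ofReal_re]
  rw [e1] at h1
  refine h1.congr (fun n => ?_)
  change (avg θ a Ψ n).re = _
  have e2 : avg θ a Ψ n = (((∑ k ∈ range n, ψ (θ k) * a k) / (n : ℝ) : ℝ) : ℂ) := by
    unfold avg
    push_cast
    rfl
  rw [e2, Complex.ofReal_re]

end MargE
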