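import Pool.Agent.MargE.T2

/-!
# The property `VdC 2 p q` (PACKAGE EA4)

(`VdC k p q` is `∃ δ > 0, VdCd k p q δ`.) `δ = min (p / 2) (1 - q / 2)`. Given `C c₀ C₀`: let `C' = max C 1`. By `second_test` (with `C'`; `dd^[2] x = dd (dd x)`,
`lam > 0` because `c₀ > 0`) the sum is at most `20 (C' L √lam + 1 / √lam)`. `√lam ≤ √(C₀ N ^ (-p)) = √C₀ N ^ (-p / 2)`
and `√lam ≥ √c₀ N ^ (-q / 2)`, so this is at most
`20 (C' √C₀ N ^ (1 - p / 2) + N ^ (q / 2) / √c₀) ≤ K N ^ (1 - δ)` with `K = 20 (C' √C₀ + 1 / √c₀)`, because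
`1 - p / 2 ≤ 1 - δ` and `q / 2 ≤ 1 - δ`, `N ≥ 1` (`Real.rpow_le_rpow_of_exponent_le`).
-/

set_option autoImplicit false

open Finset Real

namespace MargE

theorem vdc_two {p q : ℝ} (hp : 0 < p) (hq : q < 2) : VdC 2 p q := by
  refine ⟨min (p / 2) (1 - q / 2), lt_min (by linarith) (by linarith), ?_⟩
  intro C c₀ C₀ hc0
  refine ⟨20 * (max C 1 * √C₀ + 1 / √c₀), ?_⟩
  intro N hN L lam hL h1 h2 x hx
  have hN0 : 0 < N := by linarith
  have hlam : 0 < lam := lt_of_lt_of_le (mul_pos hc0 (rpow_pos_of_pos hN0 _)) h1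
  have hC : (1 : ℝ) ≤ max C 1 := le_max_right _ _
  have hC0 : (0 : ℝ) ≤ max C 1 := by linarith
  have h3 := second_test (x := x) (L := L) hlam hC fun i hi =>
    ⟨(hx i hi).1, (hx i hi).2.trans (mul_le_mul_of_nonneg_right (le_max_left _ _) hlam.le)⟩
  refine h3.trans ?_
  have hsq : ∀ r : ℝ, √(N ^ (-r)) = N ^ (-(r / 2)) := by
    intro r
    rw [sqrt_eq_rpow, ← rpow_mul hN0.le]
    congr 1
    ring
  have hδ1 : 1 - p / 2 ≤ 1 - min (p / 2) (1 - q / 2) := by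
    have := min_le_left (p / 2) (1 - q / 2)
    linarith
  have hδ2 : q / 2 ≤ 1 - min (p / 2) (1 - q / 2) := by
    have := min_le_right (p / 2) (1 - q / 2)
    linarith
  have h4 : √lam ≤ √C₀ * N ^ (-(p / 2)) := by
    have h5 := sqrt_le_sqrt h2
    rwa [sqrt_mul' _ (rpow_nonneg hN0.le _), hsq] at h5
  have h6 : √c₀ * N ^ (-(q / 2)) ≤ √lam := by
    have h5 := sqrt_le_sqrt h1
    rwa [sqrt_mul' _ (rpow_nonneg hN0.le _), hsq] at h5
  have hs0 : 0 < √c₀ := sqrt_pos.2 hc0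
  have h7 : 1 / √lam ≤ 1 / √c₀ * N ^ (1 - min (p / 2) (1 - q / 2)) := by
    have h8 : 0 < √c₀ * N ^ (-(q / 2)) := mul_pos hs0 (rpow_pos_of_pos hN0 _)
    calc 1 / √lam ≤ 1 / (√c₀ * N ^ (-(q / 2))) := one_div_le_one_div_of_le h8 h6
      _ = 1 / √c₀ * N ^ (q / 2) := by
        rw [rpow_neg hN0.le, one_div, mul_inv, inv_inv, one_div]
      _ ≤ 1 / √c₀ * N ^ (1 - min (p / 2) (1 - q / 2)) :=
        mul_le_mul_of_nonneg_left (rpow_le_rpow_of_exponent_le hN hδ2) (by positivity)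
  have h9 : max C 1 * L * √lam ≤ max C 1 * √C₀ * N ^ (1 - min (p / 2) (1 - q / 2)) := by
    have h10 : (L : ℝ) * √lam ≤ N * (√C₀ * N ^ (-(p / 2))) :=
      mul_le_mul hL h4 (sqrt_nonneg _) hN0.le
    have h11 : N * (√C₀ * N ^ (-(p / 2))) = √C₀ * N ^ (1 - p / 2) := by
      have h12 : N ^ (1 - p / 2) = N * N ^ (-(p / 2)) := by
        rw [sub_eq_add_neg, rpow_add hN0, rpow_one]
      rw [h12]
      ring
    rw [h11] at h10
    have h13 : √C₀ * N ^ (1 - p / 2) ≤ √C₀ * N ^ (1 - min (p / 2) (1 - q / 2)) :=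
      mul_le_mul_of_nonneg_left (rpow_le_rpow_of_exponent_le hN hδ1) (sqrt_nonneg _)
    have h14 := mul_le_mul_of_nonneg_left (h10.trans h13) hC0
    calc max C 1 * L * √lam = max C 1 * (L * √lam) := by ring
      _ ≤ max C 1 * (√C₀ * N ^ (1 - min (p / 2) (1 - q / 2))) := h14
      _ = max C 1 * √C₀ * N ^ (1 - min (p / 2) (1 - q / 2)) := by ring
  calc 20 * (max C 1 * L * √lam + 1 / √lam)
      ≤ 20 * (max C 1 * √C₀ * N ^ (1 - min (p / 2) (1 - q / 2)) +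
        1 / √c₀ * N ^ (1 - min (p / 2) (1 - q / 2))) := by
        have := add_le_add h9 h7
        linarith
    _ = 20 * (max C 1 * √C₀ + 1 / √c₀) * N ^ (1 - min (p / 2) (1 - q / 2)) := by ring

end MargE
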