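import Pool.Agent.MargE.ExpSum
import Pool.Agent.MargE.Mult
import Pool.Agent.MargE.FtStep
import Pool.Agent.MargE.WtDefs

/-!
# The weights `cos (2 π h n ^ α)`, `sin (2 π h n ^ α)` (PACKAGE EB4, assembly)

Proof. Let `b = ⌈α⌉₊ ≥ 2`, `A = 2 b + 3`, `δ` (at most `1`) from `exp_sum` for `A`. Let `h ≠ 0` and `K₀` from `exp_sum`. Let `c` be given,
`cc : ℕ` with `exp (1 + c) ≤ cc`. For `N ≥ 3` and `z` put `v0 = lc α c N - 1`, `v1 = 1 + lc α c (2 N)`,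
`f v = ft z v0 v1 v` (complex valued), `w i = ee (h * (N + i) ^ α)`, `t i = lc α c (N + i)`.

* `v1 - v0 ≤ b + 2` (`MargS.lc_two_mul`), so `∫ ‖f‖ ^ 2 ≤ b + 2` (`ft_sq_le`; `v0 ≤ v1` by `MargS.lc_mono`).
* `exp v1 = exp (1 + c) (2 N) ^ α ≤ cc (2 N) ^ b =: K` (`MargS.lc_exp`, see the proof of `MargS.hcont_RM` in `Pool/Agent/MargS/L2.lean`), so by
  `fourier_ft` `‖𝓕 f ξ‖ ≤ D / |ξ|` with `D = K + 1 ≤ (cc 2 ^ b + 1) N ^ b`.
* `X = N ^ (2 b + 2)`. For `|ξ| ≤ X`: `w i * ee (ξ * t i) = ee (ξ c) * ee (h * (N + i) ^ α + (ξ α) * log (N + i))`, because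
  `lc α c x = α log x + c`. `|ξ α| ≤ b N ^ (2 b + 2) ≤ N ^ (2 b + 3)` for `N ≥ b`. So `exp_sum` gives
  `S = K₀ N ^ (1 - δ)`.
* `l2_mult` : `∫ ‖∑ w i * f (u + t i)‖ ^ 2 ≤ S ^ 2 (b + 2) + N ^ 2 D ^ 2 (2 / X)
  ≤ K₀ ^ 2 (b + 2) N ^ (2 - 2 δ) + 2 (cc 2 ^ b + 1) ^ 2`, and `N ^ (2 - 2 δ) ≥ 1`. So `C = K₀ ^ 2 (b + 2) + 2 (cc 2 ^ b + 1) ^ 2`.
* The sums with the weights `cos (2 π h n ^ α)` and `sin (2 π h n ^ α)` are the real and the imaginary part of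
  `∑ w i * f (u + t i)` (`ee_re`, `ee_im`), so their squares are at most `‖∑ w i * f (u + t i)‖ ^ 2` for every `u`, which is
  integrable (`MemLp` of a finite sum of translates of `f`): `integral_mono_of_nonneg`.
-/

set_option autoImplicit false

open Finset Real MeasureTheory Filter Topology Marg
open scoped ENNReal NNReal

namespace MargE

private theorem wt_core {α δ : ℝ} (hα1 : 1 < α) {b : ℕ} (hb : α ≤ b) (hδ1 : δ ≤ 1) {h K₀ : ℝ}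
    (hK₀ : 0 ≤ K₀)
    (hexp : ∀ N : ℕ, 1 ≤ N → ∀ L : ℕ, L ≤ N → ∀ ξ : ℝ, |ξ| ≤ (N : ℝ) ^ ((2 * b + 3 : ℕ) : ℝ) →
      ‖∑ i ∈ range L, ee (h * ((N + i : ℕ) : ℝ) ^ α + ξ * log ((N + i : ℕ) : ℝ))‖ ≤
        K₀ * (N : ℝ) ^ (1 - δ)) (c : ℝ) :
    ∃ C : ℝ, 0 ≤ C ∧ ∀ᶠ N : ℕ in atTop, ∀ z : ℕ → ℝ, (∀ n, |z n| ≤ 1) →
      ∫ u, ‖∑ i ∈ range N, ee (h * ((N + i : ℕ) : ℝ) ^ α) *
        ((MargS.ft z (MargS.lc α c N - 1) (1 + MargS.lc α c (2 * N))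
          (u + MargS.lc α c ((N + i : ℕ) : ℝ)) : ℝ) : ℂ)‖ ^ 2 ≤ C * (N : ℝ) ^ (2 - 2 * δ) := by
  obtain ⟨cc, hcc⟩ := exists_nat_ge (exp (1 + c))
  refine ⟨K₀ ^ 2 * (b + 2) + 2 * (cc * 2 ^ b + 1) ^ 2, by positivity, ?_⟩
  filter_upwards [eventually_ge_atTop 3, eventually_ge_atTop b] with N hN3 hNb z hz
  have hN3' : (3 : ℝ) ≤ N := by exact_mod_cast hN3
  have hNb' : (b : ℝ) ≤ N := by exact_mod_cast hNb
  have hN0 : (0 : ℝ) < N := by linarith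
  have hN1 : (1 : ℝ) ≤ N := by linarith
  have hα1' : (1 : ℝ) ≤ α := hα1.le
  set v0 : ℝ := MargS.lc α c N - 1 with hv0
  set v1 : ℝ := 1 + MargS.lc α c (2 * N) with hv1
  have hv01 : v0 ≤ v1 := by
    have := MargS.lc_mono hα1' c hN3' (show (N : ℝ) ≤ 2 * N by linarith)
    rw [hv0, hv1]
    linarith
  have hvb : v1 - v0 ≤ b + 2 := by
    have := MargS.lc_two_mul hα1' hb c hN3'
    rw [hv0, hv1]
    linarith
  have hKexp : exp v1 ≤ ((cc * (2 * N) ^ b : ℕ) : ℝ) := by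
    have h20 : (0 : ℝ) < 2 * N := by linarith
    rw [hv1, MargS.lc_exp h20]
    push_cast
    have h21 : (2 * (N : ℝ)) ^ α ≤ (2 * (N : ℝ)) ^ b := by
      rw [← Real.rpow_natCast]
      exact Real.rpow_le_rpow_of_exponent_le (by linarith) hb
    gcongr
  have hX : (0 : ℝ) < (N : ℝ) ^ (2 * b + 2) := by positivity
  have hS0 : 0 ≤ K₀ * (N : ℝ) ^ (1 - δ) := by positivity
  have hmain := l2_mult (ft_integrable hz v0 v1) (ft_memLp hz v0 v1) N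
    (fun i => ee (h * ((N + i : ℕ) : ℝ) ^ α)) (fun i => MargS.lc α c ((N + i : ℕ) : ℝ))
    (fun i => (norm_ee _).le) (X := (N : ℝ) ^ (2 * b + 2)) (S := K₀ * (N : ℝ) ^ (1 - δ))
    (D := (((cc * (2 * N) ^ b : ℕ) : ℝ) + 1)) hX hS0 (by positivity)
    (by
      intro ξ hξ
      have e1 : ∀ i ∈ range N, ee (h * ((N + i : ℕ) : ℝ) ^ α) *
          ee (ξ * MargS.lc α c ((N + i : ℕ) : ℝ)) = ee (ξ * c) *
          ee (h * ((N + i : ℕ) : ℝ) ^ α + (ξ * α) * log ((N + i : ℕ) : ℝ)) := by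
        intro i _
        rw [← ee_add, ← ee_add]
        congr 1
        unfold MargS.lc MargS.bl
        ring
      rw [Finset.sum_congr rfl e1, ← Finset.mul_sum, norm_mul, norm_ee, one_mul]
      refine hexp N (by omega) N le_rfl (ξ * α) ?_
      rw [Real.rpow_natCast, abs_mul, abs_of_pos (by linarith : (0 : ℝ) < α)]
      calc |ξ| * α ≤ (N : ℝ) ^ (2 * b + 2) * N := by
            refine mul_le_mul hξ (hb.trans hNb') (by linarith) hX.le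
        _ = (N : ℝ) ^ (2 * b + 3) := by ring)
    (by
      intro ξ hξ
      refine fourier_ft hz hKexp ?_
      rintro rfl
      rw [abs_zero] at hξ
      linarith)
  refine hmain.trans ?_
  have hf : ∫ u, ‖((MargS.ft z v0 v1 u : ℝ) : ℂ)‖ ^ 2 ≤ (b : ℝ) + 2 :=
    (ft_sq_le hz hv01).trans hvb
  have hsq : (K₀ * (N : ℝ) ^ (1 - δ)) ^ 2 = K₀ ^ 2 * (N : ℝ) ^ (2 - 2 * δ) := by
    rw [mul_pow, ← Real.rpow_natCast ((N : ℝ) ^ (1 - δ)) 2, ← Real.rpow_mul hN0.le]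
    congr 2
    push_cast
    ring
  have hone : 1 ≤ (N : ℝ) ^ (2 - 2 * δ) := Real.one_le_rpow hN1 (by linarith)
  have hD : ((cc * (2 * N) ^ b : ℕ) : ℝ) + 1 ≤ (cc * 2 ^ b + 1) * (N : ℝ) ^ b := by
    push_cast
    rw [mul_pow]
    have : (1 : ℝ) ≤ (N : ℝ) ^ b := one_le_pow₀ hN1
    nlinarith
  have hD0 : (0 : ℝ) ≤ ((cc * (2 * N) ^ b : ℕ) : ℝ) + 1 := by positivity
  have h1 : (K₀ * (N : ℝ) ^ (1 - δ)) ^ 2 * ∫ u, ‖((MargS.ft z v0 v1 u : ℝ) : ℂ)‖ ^ 2 ≤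
      K₀ ^ 2 * (b + 2) * (N : ℝ) ^ (2 - 2 * δ) := by
    rw [hsq]
    calc K₀ ^ 2 * (N : ℝ) ^ (2 - 2 * δ) * ∫ u, ‖((MargS.ft z v0 v1 u : ℝ) : ℂ)‖ ^ 2
        ≤ K₀ ^ 2 * (N : ℝ) ^ (2 - 2 * δ) * (b + 2) := by gcongr
      _ = _ := by ring
  have h2 : (N : ℝ) ^ 2 * (((cc * (2 * N) ^ b : ℕ) : ℝ) + 1) ^ 2 * (2 / (N : ℝ) ^ (2 * b + 2)) ≤
      2 * ((cc : ℝ) * 2 ^ b + 1) ^ 2 := by
    calc (N : ℝ) ^ 2 * (((cc * (2 * N) ^ b : ℕ) : ℝ) + 1) ^ 2 * (2 / (N : ℝ) ^ (2 * b + 2))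
        ≤ (N : ℝ) ^ 2 * (((cc : ℝ) * 2 ^ b + 1) * (N : ℝ) ^ b) ^ 2 *
            (2 / (N : ℝ) ^ (2 * b + 2)) := by
          gcongr
      _ = 2 * ((cc : ℝ) * 2 ^ b + 1) ^ 2 := by
          have h3 : (N : ℝ) ^ (2 * b + 2) = ((N : ℝ) ^ b) ^ 2 * (N : ℝ) ^ 2 := by ring
          rw [h3]
          field_simp
  have h3 : 2 * ((cc : ℝ) * 2 ^ b + 1) ^ 2 ≤
      2 * (cc * 2 ^ b + 1) ^ 2 * (N : ℝ) ^ (2 - 2 * δ) :=
    le_mul_of_one_le_right (by positivity) hone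
  calc _ ≤ K₀ ^ 2 * (b + 2) * (N : ℝ) ^ (2 - 2 * δ) +
        2 * (cc * 2 ^ b + 1) ^ 2 * (N : ℝ) ^ (2 - 2 * δ) := add_le_add h1 (h2.trans h3)
    _ = _ := by ring

private theorem wt_int {z : ℕ → ℝ} (hz : ∀ n, |z n| ≤ 1) (v0 v1 : ℝ) (N : ℕ) (w : ℕ → ℂ)
    (t : ℕ → ℝ) :
    Integrable (fun u : ℝ => ‖∑ i ∈ range N, w i * ((MargS.ft z v0 v1 (u + t i) : ℝ) : ℂ)‖ ^ 2) := by
  have h1 : MemLp (fun u : ℝ => ∑ i ∈ range N,
      w i * ((MargS.ft z v0 v1 (u + t i) : ℝ) : ℂ)) 2 := by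
    refine memLp_finsetSum _ fun i _ => ?_
    exact ((ft_memLp hz v0 v1).comp_measurePreserving
      (measurePreserving_add_right volume (t i))).const_mul (w i)
  exact h1.integrable_norm_pow (by norm_num)

theorem wt_trig {α : ℝ} (hα1 : 1 < α) (hα : ∀ n : ℕ, α ≠ n) :
    ∃ δ : ℝ, 0 < δ ∧ δ ≤ 1 ∧ ∀ h : ℝ, h ≠ 0 →
      Wt (fun n : ℕ => cos (2 * π * (h * (n : ℝ) ^ α))) α δ ∧
      Wt (fun n : ℕ => sin (2 * π * (h * (n : ℝ) ^ α))) α δ := by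
  obtain ⟨δ, hδ0, hδ1, H⟩ := exp_sum hα1 hα ((2 * ⌈α⌉₊ + 3 : ℕ) : ℝ)
  refine ⟨δ, hδ0, hδ1, fun h hh => ?_⟩
  obtain ⟨K₀, hK₀, hexp⟩ := H h hh
  have core := wt_core hα1 (Nat.le_ceil α) hδ1 hK₀ hexp
  constructor
  · intro c
    obtain ⟨C, hC, hN⟩ := core c
    refine ⟨C, hC, ?_⟩
    filter_upwards [hN] with N hN z hz
    refine le_trans (integral_mono_of_nonneg (Eventually.of_forall fun u => sq_nonneg _)
      (wt_int hz _ _ N (fun i => ee (h * ((N + i : ℕ) : ℝ) ^ α))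
        (fun i => MargS.lc α c ((N + i : ℕ) : ℝ))) (Eventually.of_forall fun u => ?_)) (hN z hz)
    have e1 : ∑ i ∈ range N, cos (2 * π * (h * ((N + i : ℕ) : ℝ) ^ α)) *
        MargS.ft z (MargS.lc α c N - 1) (1 + MargS.lc α c (2 * N))
          (u + MargS.lc α c ((N + i : ℕ) : ℝ)) =
        (∑ i ∈ range N, ee (h * ((N + i : ℕ) : ℝ) ^ α) *
        ((MargS.ft z (MargS.lc α c N - 1) (1 + MargS.lc α c (2 * N))
          (u + MargS.lc α c ((N + i : ℕ) : ℝ)) : ℝ) : ℂ)).re := by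
      rw [Complex.re_sum]
      refine Finset.sum_congr rfl fun i _ => ?_
      rw [Complex.re_mul_ofReal, ee_re]
    change (∑ i ∈ range N, cos (2 * π * (h * ((N + i : ℕ) : ℝ) ^ α)) *
        MargS.ft z (MargS.lc α c N - 1) (1 + MargS.lc α c (2 * N))
          (u + MargS.lc α c ((N + i : ℕ) : ℝ))) ^ 2 ≤ ‖_‖ ^ 2
    rw [e1]
    exact sq_le_sq.2 ((Complex.abs_re_le_norm _).trans (le_abs_self _))
  · intro c
    obtain ⟨C, hC, hN⟩ := core c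
    refine ⟨C, hC, ?_⟩
    filter_upwards [hN] with N hN z hz
    refine le_trans (integral_mono_of_nonneg (Eventually.of_forall fun u => sq_nonneg _)
      (wt_int hz _ _ N (fun i => ee (h * ((N + i : ℕ) : ℝ) ^ α))
        (fun i => MargS.lc α c ((N + i : ℕ) : ℝ))) (Eventually.of_forall fun u => ?_)) (hN z hz)
    have e1 : ∑ i ∈ range N, sin (2 * π * (h * ((N + i : ℕ) : ℝ) ^ α)) *
        MargS.ft z (MargS.lc α c N - 1) (1 + MargS.lc α c (2 * N))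
          (u + MargS.lc α c ((N + i : ℕ) : ℝ)) =
        (∑ i ∈ range N, ee (h * ((N + i : ℕ) : ℝ) ^ α) *
        ((MargS.ft z (MargS.lc α c N - 1) (1 + MargS.lc α c (2 * N))
          (u + MargS.lc α c ((N + i : ℕ) : ℝ)) : ℝ) : ℂ)).im := by
      rw [Complex.im_sum]
      refine Finset.sum_congr rfl fun i _ => ?_
      rw [Complex.im_mul_ofReal, ee_im]
    change (∑ i ∈ range N, sin (2 * π * (h * ((N + i : ℕ) : ℝ) ^ α)) *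
        MargS.ft z (MargS.lc α c N - 1) (1 + MargS.lc α c (2 * N))
          (u + MargS.lc α c ((N + i : ℕ) : ℝ))) ^ 2 ≤ ‖_‖ ^ 2
    rw [e1]
    exact sq_le_sq.2 ((Complex.abs_im_le_norm _).trans (le_abs_self _))

end MargE
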